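import Pool.Agent.R645.TM.Cx

/-! The fundamental groups of a 2-complex embed in the group presented by its edges and the
boundary paths of its 2-cells. -/

set_option autoImplicit false

namespace Pool.Agent.R645.TM

universe u

namespace Cx

variable (K : Cx.{u}) (U : Set K.V)

/-- the relators: boundary paths of 2-cells in the full subcomplex on `U` -/
def rels : Set (FreeGroup K.E) :=
  {r | ∃ (f : K.F) (u : K.V), K.IsPath U u (K.bd f) u ∧ r = FreeGroup.mk (K.bd f)}

/-- the group generated by all edges with the boundary paths of the 2-cells as relators -/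
abbrev Gam : Type u := PresentedGroup (K.rels U)

variable {K}

/-- the class of an edge path -/
def cls (l : List (K.E × Bool)) : K.Gam U := PresentedGroup.mk _ (FreeGroup.mk l)

theorem cls_nil : cls U ([] : List (K.E × Bool)) = 1 := rfl

theorem cls_append (l l' : List (K.E × Bool)) : cls U (l ++ l') = cls U l * cls U l' := by
  unfold cls
  rw [← FreeGroup.mul_mk, map_mul]

theorem cls_rv (l : List (K.E × Bool)) : cls U (rv l) = (cls U l)⁻¹ := by
  unfold cls
  rw [← map_inv, FreeGroup.inv_mk]

theorem cls_back (z : K.E × Bool) : cls U [z, (z.1, !z.2)] = 1 := by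
  have h : FreeGroup.mk [z, (z.1, !z.2)] = FreeGroup.mk ([] : List (K.E × Bool)) := by
    apply Quot.sound
    exact FreeGroup.Red.Step.not (L₁ := []) (L₂ := [])
  unfold cls
  rw [h]
  rfl

theorem cls_move {l l' : List (K.E × Bool)} (hm : K.Move l l') {u v : K.V}
    (h : K.IsPath U u l v) (h' : K.IsPath U u l' v) : cls U l = cls U l' := by
  cases hm with
  | back a b z =>
    have e : a ++ z :: (z.1, !z.2) :: b = a ++ ([z, (z.1, !z.2)] ++ b) := by simp
    rw [e, cls_append, cls_append, cls_back, one_mul, cls_append]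
  | face a b f =>
    rw [List.append_assoc] at h
    obtain ⟨p, h1, h2⟩ := h.split
    obtain ⟨q, h3, h4⟩ := h2.split
    obtain ⟨p', h5, h6⟩ := h'.split
    have e1 : p = p' := h1.end_unique h5
    subst e1
    have e2 : p = q := h6.start_unique h4
    subst e2
    have h7 : cls U (K.bd f) = 1 := by
      unfold cls
      exact PresentedGroup.one_of_mem ⟨f, p, h3, rfl⟩
    rw [List.append_assoc, cls_append, cls_append, h7, one_mul, cls_append]

theorem cls_htp {l l' : List (K.E × Bool)} {u v : K.V} (h : K.Htp U u v l l') :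
    cls U l = cls U l' := by
  induction h with
  | refl _ => rfl
  | symm _ ih => exact ih.symm
  | trans _ _ ih1 ih2 => exact ih1.trans ih2
  | move h h' hm => exact cls_move U hm h h'

variable {U}

/-- the homomorphism from the fundamental group -/
def toGam (v : U) : K.Pi1 U v →* K.Gam U where
  toFun := Quotient.lift (fun l => cls U l.1) (fun _ _ h => cls_htp U h)
  map_one' := rfl
  map_mul' := by
    rintro ⟨a⟩ ⟨b⟩
    exact cls_append U a.1 b.1

theorem toGam_mk (v : U) (l : K.Loop U v) : toGam v (Pi1.mk l) = cls U l.1 := rfl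

section retraction

variable (u : U)

open Classical in
/-- a path from `u` to `v` if there is one -/
noncomputable def T (v : K.V) : List (K.E × Bool) :=
  if h : ∃ l, K.IsPath U u.1 l v then h.choose else []

theorem T_path {v : K.V} (h : ∃ l, K.IsPath U u.1 l v) : K.IsPath U u.1 (T u v) v := by
  unfold T
  rw [dif_pos h]
  exact h.choose_spec

open Classical in
/-- the image of an edge -/
noncomputable def cE (e : K.E) : K.Pi1 U u :=
  if h : K.IsPath U u.1 (T u (K.src e) ++ ([(e, true)] ++ rv (T u (K.tgt e)))) u.1 then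
    Pi1.mk ⟨_, h⟩ else 1

/-- the retraction on the free group -/
noncomputable def retF : FreeGroup K.E →* K.Pi1 U u := FreeGroup.lift (cE u)

theorem loop_path {v w : K.V} {l : List (K.E × Bool)} (hv : ∃ l, K.IsPath U u.1 l v)
    (h : K.IsPath U v l w) : K.IsPath U u.1 (T u v ++ (l ++ rv (T u w))) u.1 := by
  have hw : ∃ l, K.IsPath U u.1 l w := ⟨_, (T_path u hv).append h⟩
  exact (T_path u hv).append (h.append (T_path u hw).rev)

theorem retF_single {z : K.E × Bool} (hs : ∃ l, K.IsPath U u.1 l (K.s z)) (ht : K.t z ∈ U) :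
    retF u (FreeGroup.mk [z]) =
      Pi1.mk ⟨_, loop_path u hs (IsPath.single (T_path u hs).right ht)⟩ := by
  obtain ⟨e, b⟩ := z
  cases b with
  | true =>
    have h1 : FreeGroup.mk [(e, true)] = FreeGroup.of e := rfl
    rw [h1, retF, FreeGroup.lift_apply_of]
    unfold cE
    rw [dif_pos]
    · rfl
  | false =>
    have h1 : FreeGroup.mk [(e, false)] = (FreeGroup.of e)⁻¹ := rfl
    have hs' : ∃ l, K.IsPath U u.1 l (K.tgt e) := hs
    have ht' : K.src e ∈ U := ht
    have hsrc : ∃ l, K.IsPath U u.1 l (K.src e) :=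
      ⟨_, (T_path u hs').append (IsPath.single (z := (e, false)) (T_path u hs).right ht)⟩
    rw [h1, map_inv, retF, FreeGroup.lift_apply_of]
    unfold cE
    have hp : K.IsPath U u.1 (T u (K.src e) ++ ([(e, true)] ++ rv (T u (K.tgt e)))) u.1 :=
      loop_path u hsrc (IsPath.single (z := (e, true)) ht' (T_path u hs').right)
    rw [dif_pos hp, Pi1.mk_inv, Pi1.mk_eq]
    have e2 : rv (T u (K.src e) ++ ([(e, true)] ++ rv (T u (K.tgt e)))) =
        T u (K.tgt e) ++ ([(e, false)] ++ rv (T u (K.src e))) := by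
      rw [rv, FreeGroup.invRev_append, FreeGroup.invRev_append, FreeGroup.invRev_invRev,
        List.append_assoc]
      rfl
    show K.Htp U u.1 u.1 (rv (T u (K.src e) ++ ([(e, true)] ++ rv (T u (K.tgt e))))) _
    rw [e2]
    exact .refl (loop_path u hs (IsPath.single (T_path u hs).right ht))

theorem retF_path {v w : K.V} {l : List (K.E × Bool)} (hv : ∃ l, K.IsPath U u.1 l v)
    (h : K.IsPath U v l w) : retF u (FreeGroup.mk l) = Pi1.mk ⟨_, loop_path u hv h⟩ := by
  induction l generalizing v with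
  | nil =>
    obtain ⟨h1, rfl⟩ := h
    have e : FreeGroup.mk ([] : List (K.E × Bool)) = 1 := rfl
    rw [e, map_one, Pi1.one_def, Pi1.mk_eq]
    exact (Htp.mul_rev (T_path u hv)).symm
  | cons z l ih =>
    obtain ⟨h1, rfl, h3⟩ := h
    have hs := IsPath.single h1 h3.left
    have hv' : ∃ l, K.IsPath U u.1 l (K.t z) := ⟨_, (T_path u hv).append hs⟩
    have e : FreeGroup.mk (z :: l) = FreeGroup.mk [z] * FreeGroup.mk l := by
      rw [FreeGroup.mul_mk]; rfl
    rw [e, map_mul, ih hv' h3, retF_single u hv h3.left, Pi1.mk_mul, Pi1.mk_eq]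
    have hw : ∃ l, K.IsPath U u.1 l w := ⟨_, (T_path u hv').append h3⟩
    have h4 : K.Htp U (K.t z) (K.t z) (rv (T u (K.t z)) ++ T u (K.t z)) [] :=
      Htp.rev_mul (T_path u hv')
    have h5 := (h4.append_right (h3.append (T_path u hw).rev)).append_left
      ((T_path u hv).append hs)
    have e1 : T u (K.s z) ++ ([z] ++ rv (T u (K.t z))) ++ (T u (K.t z) ++ (l ++ rv (T u w))) =
        T u (K.s z) ++ [z] ++ ((rv (T u (K.t z)) ++ T u (K.t z)) ++ (l ++ rv (T u w))) := by
      simp
    have e2 : T u (K.s z) ++ (z :: l ++ rv (T u w)) =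
        T u (K.s z) ++ [z] ++ ([] ++ (l ++ rv (T u w))) := by simp
    show K.Htp U u.1 u.1 (T u (K.s z) ++ ([z] ++ rv (T u (K.t z))) ++
      (T u (K.t z) ++ (l ++ rv (T u w)))) (T u (K.s z) ++ (z :: l ++ rv (T u w)))
    rw [e1, e2]
    exact h5

theorem retF_not {v w : K.V} {l : List (K.E × Bool)} (hv : ¬ ∃ l, K.IsPath U u.1 l v)
    (h : K.IsPath U v l w) : retF u (FreeGroup.mk l) = 1 := by
  induction l generalizing v with
  | nil => exact map_one _
  | cons z l ih =>
    obtain ⟨h1, rfl, h3⟩ := h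
    have hs := IsPath.single h1 h3.left
    have hv' : ¬ ∃ l, K.IsPath U u.1 l (K.t z) := by
      rintro ⟨m, hm⟩
      exact hv ⟨_, hm.append hs.rev⟩
    have he : FreeGroup.mk (z :: l) = FreeGroup.mk [z] * FreeGroup.mk l := by
      rw [FreeGroup.mul_mk]; rfl
    rw [he, map_mul, ih hv' h3, mul_one]
    clear he
    have key : ∀ e : K.E, (¬ ∃ l, K.IsPath U u.1 l (K.src e)) → cE (U := U) u e = 1 := by
      intro e he
      unfold cE
      rw [dif_neg]
      intro h
      obtain ⟨p, hp1, hp2⟩ := h.split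
      obtain ⟨q, hq1, -⟩ := hp2.split
      apply he
      rw [show K.src e = p from hq1.2.1]
      exact ⟨_, hp1⟩
    obtain ⟨e, b⟩ := z
    cases b with
    | true =>
      have h1 : FreeGroup.mk [(e, true)] = FreeGroup.of e := rfl
      rw [h1, retF, FreeGroup.lift_apply_of]
      exact key e hv
    | false =>
      have h1 : FreeGroup.mk [(e, false)] = (FreeGroup.of e)⁻¹ := rfl
      rw [h1, map_inv, retF, FreeGroup.lift_apply_of, key e hv', inv_one]

/-- the retraction -/
noncomputable def ret : K.Gam U →* K.Pi1 U u :=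
  QuotientGroup.lift _ (retF u) (by
    intro g hg
    suffices h0 : Subgroup.normalClosure (K.rels U) ≤ (retF u).ker from
      MonoidHom.mem_ker.1 (h0 hg)
    apply Subgroup.normalClosure_le_normal
    rintro r ⟨f, v, hf, rfl⟩
    rw [SetLike.mem_coe, MonoidHom.mem_ker]
    by_cases hv : ∃ l, K.IsPath U u.1 l v
    · rw [retF_path u hv hf, Pi1.one_def, Pi1.mk_eq]
      have h1 : K.IsPath U u.1 (T u v ++ rv (T u v)) u.1 := (T_path u hv).append (T_path u hv).rev
      refine (Htp.move (loop_path u hv hf) h1 ?_).trans (Htp.mul_rev (T_path u hv))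
      have := Move.face (K := K) (T u v) (rv (T u v)) f
      rwa [List.append_assoc] at this
    · exact retF_not u hv hf)

theorem ret_cls {l : List (K.E × Bool)} (h : K.IsPath U u.1 l u.1) :
    ret u (cls U l) = Pi1.mk ⟨_, loop_path u ⟨[], nil_path u.2⟩ h⟩ :=
  retF_path u ⟨[], nil_path u.2⟩ h

theorem toGam_injective : Function.Injective (toGam (K := K) u) := by
  rintro ⟨a⟩ ⟨b⟩ h
  have h' : cls U a.1 = cls U b.1 := h
  have h2 := congrArg (ret u) h'
  rw [ret_cls u a.2, ret_cls u b.2, Pi1.mk_eq] at h2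
  apply Quotient.sound
  show K.Htp U u.1 u.1 a.1 b.1
  have hu : ∃ l, K.IsPath U u.1 l u.1 := ⟨[], nil_path u.2⟩
  have hT := T_path u hu
  have key : ∀ c : K.Loop U u, K.Htp U u.1 u.1
      (rv (T u u.1) ++ (T u u.1 ++ (c.1 ++ rv (T u u.1))) ++ T u u.1) c.1 := by
    intro c
    have h3 := (Htp.rev_mul hT).append (Htp.refl c.2)
    have h4 := h3.append (Htp.rev_mul hT)
    have e : rv (T u u.1) ++ (T u u.1 ++ (c.1 ++ rv (T u u.1))) ++ T u u.1 =
      (rv (T u u.1) ++ T u u.1 ++ c.1) ++ (rv (T u u.1) ++ T u u.1) := by simp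
    rw [e]
    simpa using h4
  have h3 : K.Htp U u.1 u.1 (T u u.1 ++ (a.1 ++ rv (T u u.1))) (T u u.1 ++ (b.1 ++ rv (T u u.1))) := h2
  have h4 := (h3.append_left hT.rev).append_right hT
  exact (key a).symm.trans (h4.trans (key b))

theorem pi1_fg_iff (v : U) : Group.FG (K.Pi1 U v) ↔ (toGam (K := K) v).range.FG := by
  have e : K.Pi1 U v ≃* (toGam (K := K) v).range := MonoidHom.ofInjective (toGam_injective v)
  rw [← Group.fg_iff_subgroup_fg]
  constructor
  · intro h
    exact Group.fg_of_surjective (f := e.toMonoidHom) e.surjective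
  · intro h
    exact Group.fg_of_surjective (f := e.symm.toMonoidHom) e.symm.surjective

theorem mem_range_toGam {v : U} {g : K.Gam U} :
    g ∈ (toGam (K := K) v).range ↔ ∃ l, K.IsPath U v.1 l v.1 ∧ g = cls U l := by
  constructor
  · rintro ⟨⟨l⟩, rfl⟩
    exact ⟨l.1, l.2, rfl⟩
  · rintro ⟨l, hl, rfl⟩
    exact ⟨Pi1.mk ⟨l, hl⟩, rfl⟩

end retraction

end Cx

end Pool.Agent.R645.TM
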