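import Pool.Agent.R645.TM.Pres

/-! Cocycles on covering complexes. -/

set_option autoImplicit false

namespace Pool.Agent.R645.TM

universe u v w

variable {G : Type u} [Group G] (P : Pres G) {V : Type v} [RAct G V] {Γ : Type w} [Group Γ]

theorem ra_inv_cancel (x : V) (g : G) : ra (ra x g) g⁻¹ = x := by
  rw [← RAct.ra_mul, mul_inv_cancel, RAct.ra_one]

theorem ra_cancel_inv (x : V) (g : G) : ra (ra x g⁻¹) g = x := by
  rw [← RAct.ra_mul, inv_mul_cancel, RAct.ra_one]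

section ev

variable (ε : V → P.X → Γ)

/-- the permutation attached to a generator -/
def stepP (x : P.X) : Equiv.Perm (V × Γ) where
  toFun z := (ra z.1 (P.gen x), z.2 * ε z.1 x)
  invFun z := (ra z.1 (P.gen x)⁻¹, z.2 * (ε (ra z.1 (P.gen x)⁻¹) x)⁻¹)
  left_inv z := by
    ext
    · exact ra_inv_cancel _ _
    · show z.2 * ε z.1 x * (ε (ra (ra z.1 (P.gen x)) (P.gen x)⁻¹) x)⁻¹ = z.2
      rw [ra_inv_cancel]
      group
  right_inv z := by
    ext
    · exact ra_cancel_inv _ _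
    · show z.2 * (ε (ra z.1 (P.gen x)⁻¹) x)⁻¹ * ε (ra z.1 (P.gen x)⁻¹) x = z.2
      group

/-- the right action on `V × Γ` -/
def thet : FreeGroup P.X →* (Equiv.Perm (V × Γ))ᵐᵒᵖ :=
  FreeGroup.lift (fun x => MulOpposite.op (stepP P ε x))

/-- the value of the cocycle along the word `w` read from the vertex `v` -/
def ev (v : V) (w : FreeGroup P.X) : Γ := ((thet P ε w).unop (v, 1)).2

theorem thet_apply (w : FreeGroup P.X) : ∀ (v : V) (γ : Γ),
    (thet P ε w).unop (v, γ) = (ra v (P.q w), γ * ev P ε v w) := by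
  have hmul : ∀ w w' : FreeGroup P.X, ∀ z, (thet P ε (w * w')).unop z =
      (thet P ε w').unop ((thet P ε w).unop z) := by
    intro w w' z
    rw [map_mul]
    rfl
  induction w using FreeGroup.induction_on with
  | C1 =>
    intro v γ
    unfold ev
    rw [map_one]
    simp [RAct.ra_one]
  | of x =>
    intro v γ
    unfold ev thet
    rw [FreeGroup.lift_apply_of, Pres.q, FreeGroup.lift_apply_of]
    show (ra v (P.gen x), γ * ε v x) = (ra v (P.gen x), γ * (1 * ε v x))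
    rw [one_mul]
  | inv_of x _ =>
    intro v γ
    unfold ev thet
    rw [map_inv, FreeGroup.lift_apply_of, Pres.q, map_inv, FreeGroup.lift_apply_of]
    show (ra v (P.gen x)⁻¹, γ * (ε (ra v (P.gen x)⁻¹) x)⁻¹) =
      (ra v (P.gen x)⁻¹, γ * (1 * (ε (ra v (P.gen x)⁻¹) x)⁻¹))
    rw [one_mul]
  | mul w w' h h' =>
    intro v γ
    have e1 : ev P ε v (w * w') = ev P ε v w * ev P ε (ra v (P.q w)) w' := by
      show ((thet P ε (w * w')).unop (v, 1)).2 = _
      rw [hmul, h, h', one_mul]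
    rw [hmul, h, h', e1, map_mul, RAct.ra_mul, mul_assoc]

theorem ev_mul (v : V) (w w' : FreeGroup P.X) :
    ev P ε v (w * w') = ev P ε v w * ev P ε (ra v (P.q w)) w' := by
  show ((thet P ε (w * w')).unop (v, 1)).2 = _
  rw [map_mul]
  show ((thet P ε w').unop ((thet P ε w).unop (v, 1))).2 = _
  rw [thet_apply, thet_apply, one_mul]

theorem ev_one (v : V) : ev P ε v 1 = 1 := by
  unfold ev
  rw [map_one]
  rfl

theorem ev_of (v : V) (x : P.X) : ev P ε v (FreeGroup.of x) = ε v x := by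
  unfold ev thet
  rw [FreeGroup.lift_apply_of]
  show 1 * ε v x = ε v x
  rw [one_mul]

theorem ev_inv (v : V) (w : FreeGroup P.X) :
    ev P ε v w⁻¹ = (ev P ε (ra v (P.q w)⁻¹) w)⁻¹ := by
  have h := ev_mul P ε v w⁻¹ w
  rw [inv_mul_cancel, ev_one, map_inv] at h
  exact eq_inv_of_mul_eq_one_left h.symm

theorem ev_inv' (v : V) (w : FreeGroup P.X) :
    ev P ε (ra v (P.q w)) w⁻¹ = (ev P ε v w)⁻¹ := by
  rw [ev_inv, ra_inv_cancel]

end ev

/-- all the vertices met when reading the word `l` from `v` lie in `U` -/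
def InU (U : Set V) (v : V) (l : List (P.X × Bool)) : Prop :=
  ∀ k ≤ l.length, ra v (P.q (FreeGroup.mk (l.take k))) ∈ U

/-- `ε` is a cocycle on the full subcomplex on `U` -/
def IsCoc (U : Set V) (ε : V → P.X → Γ) : Prop :=
  ∀ v i, InU P U v (P.rel i) → ev P ε v (FreeGroup.mk (P.rel i)) = 1

/-- the edges -/
def edg (ε : V → P.X → Γ) (v : V) (g : Γ) (w : V) : Prop := ∃ x, w = ra v (P.gen x) ∧ g = ε v x

/-- the groupoid form of tameness -/
def TameC (V : Type u) [RAct G V] : Prop :=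
  ∀ (Γ : Type u) [Group Γ] (U : Set V), Uᶜ.Finite → ∀ ε : V → P.X → Γ, IsCoc P U ε →
    FGs U (Gen U (edg P ε))

theorem q_rel (i : P.ι) : P.q (FreeGroup.mk (P.rel i)) = 1 := by
  rw [← MonoidHom.mem_ker, P.ker]
  exact Subgroup.subset_normalClosure ⟨i, rfl⟩

/-- words representing `1` have trivial value when read far away from the complement of `U` -/
theorem sup_one (U : Set V) (ε : V → P.X → Γ) (hε : IsCoc P U ε) (w : FreeGroup P.X)
    (hw : P.q w = 1) : ∃ F : Set G, F.Finite ∧ ∀ v, (∀ p ∈ F, ra v p ∈ U) → ev P ε v w = 1 := by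
  have hw' : w ∈ Subgroup.normalClosure (Set.range fun i => FreeGroup.mk (P.rel i)) := by
    rw [← P.ker, MonoidHom.mem_ker]
    exact hw
  clear hw
  refine Subgroup.closure_induction (p := fun w _ => ∃ F : Set G, F.Finite ∧
    ∀ v, (∀ p ∈ F, ra v p ∈ U) → ev P ε v w = 1) ?_ ?_ ?_ ?_ hw'
  · intro x hx
    rw [Group.mem_conjugatesOfSet_iff] at hx
    obtain ⟨r, ⟨i, rfl⟩, hr⟩ := hx
    rw [isConj_iff] at hr
    obtain ⟨g, rfl⟩ := hr
    refine ⟨(fun k => P.q g * P.q (FreeGroup.mk ((P.rel i).take k))) ''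
      (Set.Iic (P.rel i).length), (Set.finite_Iic _).image _, fun v hv => ?_⟩
    have h1 : ev P ε (ra v (P.q g)) (FreeGroup.mk (P.rel i)) = 1 := by
      apply hε
      intro k hk
      rw [← RAct.ra_mul]
      exact hv _ ⟨k, hk, rfl⟩
    show ev P ε v (g * FreeGroup.mk (P.rel i) * g⁻¹) = 1
    rw [ev_mul, ev_mul, h1, mul_one, map_mul, q_rel, mul_one, ev_inv']
    group
  · exact ⟨∅, Set.finite_empty, fun v _ => ev_one P ε v⟩
  · rintro x y hx hy ⟨F, hF, h1⟩ ⟨F', hF', h2⟩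
    refine ⟨F ∪ (fun p => P.q x * p) '' F', hF.union (hF'.image _), fun v hv => ?_⟩
    rw [ev_mul, h1 v (fun p hp => hv p (Or.inl hp)), one_mul]
    apply h2
    intro p hp
    rw [← RAct.ra_mul]
    exact hv _ (Or.inr ⟨p, hp, rfl⟩)
  · rintro x _ ⟨F, hF, h1⟩
    refine ⟨(fun p => (P.q x)⁻¹ * p) '' F, hF.image _, fun v hv => ?_⟩
    rw [ev_inv, h1, inv_one]
    intro p hp
    rw [← RAct.ra_mul]
    exact hv _ ⟨p, hp, rfl⟩

/-- words with equal values -/
theorem sup_eq (U : Set V) (ε : V → P.X → Γ) (hε : IsCoc P U ε) (w w' : FreeGroup P.X)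
    (hw : P.q w = P.q w') :
    ∃ F : Set G, F.Finite ∧ ∀ v, (∀ p ∈ F, ra v p ∈ U) → ev P ε v w = ev P ε v w' := by
  obtain ⟨F, hF, h⟩ := sup_one P U ε hε (w * w'⁻¹) (by rw [map_mul, map_inv, hw, mul_inv_cancel])
  refine ⟨F, hF, fun v hv => ?_⟩
  have h1 := h v hv
  rw [ev_mul, hw, ev_inv'] at h1
  exact mul_inv_eq_one.1 h1

/-- arrows of long words -/
theorem sup_gen {Z : Type*} (γ : FreeGroup Z →* FreeGroup P.X) (ε : V → P.X → Γ)
    {A : V → Γ → V → Prop} {U U' : Set V} (hA : Gpd U' A) (hU : U ⊆ U')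
    (h : ∀ z, ∃ F : Set G, F.Finite ∧ ∀ v, (∀ p ∈ F, ra v p ∈ U) →
      A v (ev P ε v (γ (FreeGroup.of z))) (ra v (P.q (γ (FreeGroup.of z)))))
    (w : FreeGroup Z) : ∃ F : Set G, F.Finite ∧ ∀ v, (∀ p ∈ F, ra v p ∈ U) →
      A v (ev P ε v (γ w)) (ra v (P.q (γ w))) := by
  induction w using FreeGroup.induction_on with
  | C1 =>
    refine ⟨{1}, Set.finite_singleton _, fun v hv => ?_⟩
    rw [map_one, ev_one, map_one, RAct.ra_one]
    have h1 := hv 1 rfl
    rw [RAct.ra_one] at h1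
    exact hA.one (hU h1)
  | of z => exact h z
  | inv_of z _ =>
    obtain ⟨F, hF, h1⟩ := h z
    refine ⟨(fun p => (P.q (γ (FreeGroup.of z)))⁻¹ * p) '' F, hF.image _, fun v hv => ?_⟩
    have h2 := h1 (ra v (P.q (γ (FreeGroup.of z)))⁻¹) (by
      intro p hp
      rw [← RAct.ra_mul]
      exact hv _ ⟨p, hp, rfl⟩)
    rw [ra_cancel_inv] at h2
    rw [map_inv, ev_inv, map_inv]
    exact hA.inv h2
  | mul w w' hw hw' =>
    obtain ⟨F, hF, h1⟩ := hw
    obtain ⟨F', hF', h2⟩ := hw'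
    refine ⟨F ∪ (fun p => P.q (γ w) * p) '' F', hF.union (hF'.image _), fun v hv => ?_⟩
    rw [map_mul, ev_mul, map_mul, RAct.ra_mul]
    refine hA.mul (h1 v (fun p hp => hv p (Or.inl hp))) (h2 _ ?_)
    intro p hp
    rw [← RAct.ra_mul]
    exact hv _ (Or.inr ⟨p, hp, rfl⟩)

/-- one edge of the complex -/
theorem gen_of {U : Set V} {ε : V → P.X → Γ} {v : V} {x : P.X} (h : v ∈ U)
    (h' : ra v (P.gen x) ∈ U) : Gen U (edg P ε) v (ε v x) (ra v (P.gen x)) :=
  .of h h' ⟨x, rfl, rfl⟩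

theorem sup_edg (U : Set V) (ε : V → P.X → Γ) (w : FreeGroup P.X) :
    ∃ F : Set G, F.Finite ∧ ∀ v, (∀ p ∈ F, ra v p ∈ U) →
      Gen U (edg P ε) v (ev P ε v w) (ra v (P.q w)) := by
  refine sup_gen P (MonoidHom.id _) ε (gpd_gen U (edg P ε)) (le_refl U) ?_ w
  intro x
  refine ⟨{1, P.gen x}, by simp, fun v hv => ?_⟩
  have h1 := hv 1 (by simp)
  have h2 := hv (P.gen x) (by simp)
  rw [RAct.ra_one] at h1
  rw [MonoidHom.id_apply, ev_of, Pres.q, FreeGroup.lift_apply_of]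
  exact gen_of P h1 h2

end Pool.Agent.R645.TM
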