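import Pool.Agent.R645.TM.Lift

/-! Extensions: the pieces of the complement of a finite set have finitely generated groups. -/

set_option autoImplicit false

namespace Pool.Agent.R645.TM

universe u v w

open Cx

section core1

variable {G : Type u} [Group G] {Q : Type u} [Group Q] {f : G →* Q} (T : Setup f) {S : Subgroup G}
variable {Γ : Type u} [Group Γ] (ε : RC S → T.P.X → Γ) (U' : Set (RC S))

/-- the cocycle on a fibre -/
def epN (a : G) (m : RC (stb f S a)) (x : T.PN.X) : Γ :=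
  ev T.P ε (orb f S a m) (T.α (FreeGroup.of x))

theorem ps_orb (a : G) (m : RC (stb f S a)) (n : FreeGroup T.PN.X) :
    orb f S a (ra m (T.PN.q n)) = ps T (orb f S a m) (T.α n) := by
  rw [orb_ra, ps_alpha]

theorem ev_orb (a : G) (n : FreeGroup T.PN.X) : ∀ m : RC (stb f S a),
    ev T.PN (epN T ε a) m n = ev T.P ε (orb f S a m) (T.α n) := by
  induction n using FreeGroup.induction_on with
  | C1 =>
    intro m
    rw [ev_one, map_one, ev_one]
  | of x =>
    intro m
    rw [ev_of]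
    rfl
  | inv_of x _ =>
    intro m
    rw [ev_inv, ev_of, map_inv, ev_inv]
    show (ev T.P ε (orb f S a (ra m (T.PN.q (FreeGroup.of x))⁻¹)) (T.α (FreeGroup.of x)))⁻¹ = _
    rw [← map_inv, ps_orb, ← map_inv, map_inv T.α]
  | mul n n' h h' =>
    intro m
    rw [ev_mul, h, h', map_mul, ev_mul, ps_orb]

/-- the edges used for the pieces -/
def ES (u : RC S) (g : Γ) (w : RC S) : Prop :=
  (∃ x : T.PN.X, w = ps T u (T.α (FreeGroup.of x)) ∧ g = ev T.P ε u (T.α (FreeGroup.of x))) ∨
  (∃ y : T.PQ.X, prj f S u ∉ A0 U' ∧ prj f S w ∉ A0 U' ∧ w = ps T u (T.β (FreeGroup.of y)) ∧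
    g = ev T.P ε u (T.β (FreeGroup.of y)))

variable {T ε U'}

theorem isCoc_epN (hL : Loc T ε U') (a : G) :
    IsCoc T.PN (orb f S a ⁻¹' U') (epN T ε a) := by
  intro m i h
  rw [ev_orb]
  exact hL.relN _ h.start i

theorem orb_gen {a : G} {m m' : RC (stb f S a)} {g : Γ}
    (h : Gen (orb f S a ⁻¹' U') (edg T.PN (epN T ε a)) m g m') :
    Gen U' (ES T ε U') (orb f S a m) g (orb f S a m') := by
  induction h with
  | one h => exact .one h
  | inv _ ih => exact ih.inv
  | mul _ _ ih1 ih2 => exact ih1.mul ih2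
  | of hu hw h =>
    obtain ⟨x, rfl, rfl⟩ := h
    refine .of hu hw (Or.inl ⟨x, ?_, rfl⟩)
    rw [← ps_orb]
    show _ = orb f S a (ra _ (FreeGroup.lift T.PN.gen (FreeGroup.of x)))
    rw [FreeGroup.lift_apply_of]

/-- arrows starting in a bad fibre stay in the fibre -/
theorem gen_orb {a : G} (ha : prj f S (RC.mk S a) ∈ A0 (f := f) U') {u : RC S} {g : Γ} {w : RC S}
    (h : Gen U' (ES T ε U') u g w) (hu : prj f S u = prj f S (RC.mk S a)) :
    ∃ m m', orb f S a m = u ∧ orb f S a m' = w ∧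
      Gen (orb f S a ⁻¹' U') (edg T.PN (epN T ε a)) m g m' := by
  let R : RC S → Γ → RC S → Prop := fun u g w => u ∈ U' ∧ w ∈ U' ∧
    (prj f S u = prj f S (RC.mk S a) ↔ prj f S w = prj f S (RC.mk S a)) ∧
    (prj f S u = prj f S (RC.mk S a) → ∃ m m', orb f S a m = u ∧ orb f S a m' = w ∧
      Gen (orb f S a ⁻¹' U') (edg T.PN (epN T ε a)) m g m')
  have hR : Gpd U' R :=
    { mem := fun h => ⟨h.1, h.2.1⟩
      one := by
        intro u hu
        refine ⟨hu, hu, Iff.rfl, fun h => ?_⟩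
        obtain ⟨m, rfl⟩ := orb_surj f S h
        exact ⟨m, m, rfl, rfl, .one hu⟩
      inv := by
        rintro u g w ⟨h1, h2, h3, h4⟩
        refine ⟨h2, h1, h3.symm, fun h => ?_⟩
        obtain ⟨m, m', h5, h6, h7⟩ := h4 (h3.2 h)
        exact ⟨m', m, h6, h5, h7.inv⟩
      mul := by
        rintro u g v h w ⟨h1, h2, h3, h4⟩ ⟨h5, h6, h7, h8⟩
        refine ⟨h1, h6, h3.trans h7, fun h => ?_⟩
        obtain ⟨m, m', e1, e2, h9⟩ := h4 h
        obtain ⟨k, k', e3, e4, h10⟩ := h8 (h3.1 h)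
        have e5 : m' = k := orb_inj f S a (e2.trans e3.symm)
        subst e5
        exact ⟨m, k', e1, e4, h9.mul h10⟩ }
  have h2 : R u g w := by
    refine Gen.le hR (le_refl _) ?_ h
    rintro u g w hu hw (⟨x, rfl, rfl⟩ | ⟨y, h1, h2, rfl, rfl⟩)
    · refine ⟨hu, hw, ?_, fun h => ?_⟩
      · rw [prj_alpha]
      · obtain ⟨m, rfl⟩ := orb_surj f S h
        have e : ps T (orb f S a m) (T.α (FreeGroup.of x)) = orb f S a (ra m (T.PN.gen x)) := by
          rw [← ps_orb]
          show orb f S a (ra _ (FreeGroup.lift T.PN.gen (FreeGroup.of x))) = _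
          rw [FreeGroup.lift_apply_of]
        refine ⟨m, ra m (T.PN.gen x), rfl, e.symm, ?_⟩
        rw [e] at hw
        exact gen_of T.PN hu hw
    · refine ⟨hu, hw, ⟨fun h => ?_, fun h => ?_⟩, fun h => ?_⟩
      · exact absurd (h ▸ ha) h1
      · exact absurd (h ▸ ha) h2
      · exact absurd (h ▸ ha) h1
  exact h2.2.2.2 hu

/-- values of vertical loops -/
def Vg (T : Setup f) (ε : RC S → T.P.X → Γ) (u : RC S) : Set Γ :=
  {g | ∃ n : FreeGroup T.PN.X, g = ev T.P ε u (T.α n) ∧ ps T u (T.α n) = u}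

theorem Vg_fg (hL : Loc T ε U') (hN : ∀ a : G, TameC T.PN (RC (stb f S a)))
    {u : RC S} (hu : prj f S u ∉ A0 U') : (Subgroup.closure (Vg T ε u)).FG := by
  obtain ⟨a, rfl⟩ := u.exists_rep
  have hall : orb f S a ⁻¹' U' = Set.univ := by
    rw [Set.eq_univ_iff_forall]
    intro m
    apply mem_of_A0 (f := f)
    rw [prj_orb]
    exact hu
  have h1 := hN a Γ (orb f S a ⁻¹' U') (by rw [hall, Set.compl_univ]; exact Set.finite_empty)
    (epN T ε a) (isCoc_epN hL a)
  have h2 := h1.2 (RC.mk _ 1) (by rw [hall]; trivial)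
  have e1 : orb f S a (RC.mk _ 1) = RC.mk S a := by
    rw [orb_mk, Subgroup.coe_one, mul_one]
  have e : {g | Gen (orb f S a ⁻¹' U') (edg T.PN (epN T ε a)) (RC.mk _ 1) g (RC.mk _ 1)} =
      Vg T ε (RC.mk S a) := by
    ext g
    constructor
    · intro h
      have key : ∀ m g m', Gen (orb f S a ⁻¹' U') (edg T.PN (epN T ε a)) m g m' →
          ∃ n : FreeGroup T.PN.X, g = ev T.P ε (orb f S a m) (T.α n) ∧
            ps T (orb f S a m) (T.α n) = orb f S a m' := by
        intro m g m' h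
        induction h with
        | one _ => exact ⟨1, by rw [map_one, ev_one], by rw [map_one, ps_one]⟩
        | inv _ ih =>
          obtain ⟨n, rfl, h⟩ := ih
          refine ⟨n⁻¹, ?_, ?_⟩
          · rw [← h, map_inv, ev_inv']
          · rw [← h, ← ps_mul, map_inv, mul_inv_cancel, ps_one]
        | mul _ _ ih1 ih2 =>
          obtain ⟨n, rfl, h⟩ := ih1
          obtain ⟨n', rfl, h'⟩ := ih2
          refine ⟨n * n', ?_, ?_⟩
          · rw [map_mul, ev_mul, ← h]
          · rw [map_mul, ps_mul, h, h']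
        | of hu hw h =>
          obtain ⟨x, rfl, rfl⟩ := h
          refine ⟨FreeGroup.of x, rfl, ?_⟩
          rw [← ps_orb]
          show orb f S a (ra _ (FreeGroup.lift T.PN.gen (FreeGroup.of x))) = _
          rw [FreeGroup.lift_apply_of]
      have h3 := key _ _ _ h
      rw [e1] at h3
      exact h3
    · rintro ⟨n, rfl, h⟩
      obtain ⟨l, hl⟩ := Quot.exists_rep n
      have hl' : FreeGroup.mk l = n := hl
      have h3 := gen_word T.PN (epN T ε a) (U := orb f S a ⁻¹' U')
        (v := RC.mk (stb f S a) 1) (l := l) (fun k _ => by rw [hall]; trivial)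
      rw [hl', ev_orb, e1] at h3
      have e2 : ra (RC.mk (stb f S a) 1) (T.PN.q n) = RC.mk (stb f S a) 1 := by
        apply orb_inj f S a
        rw [ps_orb, e1]
        exact h
      rw [e2] at h3
      exact h3
  rw [e] at h2
  exact h2

theorem ev_inv2 (v : RC S) (w : FreeGroup T.P.X) :
    ev T.P ε v w⁻¹ = (ev T.P ε (ps T v w⁻¹) w)⁻¹ := by
  rw [ev_inv]
  show _ = (ev T.P ε (ra v (T.P.q w⁻¹)) w)⁻¹
  rw [map_inv]

theorem ps_inv_cancel (v : RC S) (w : FreeGroup T.P.X) : ps T (ps T v w⁻¹) w = v := by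
  rw [← ps_mul, inv_mul_cancel, ps_one]

theorem alpha_gen {v : RC S} (hv : prj f S v ∉ A0 U') (n : FreeGroup T.PN.X) :
    Gen U' (ES T ε U') v (ev T.P ε v (T.α n)) (ps T v (T.α n)) := by
  induction n using FreeGroup.induction_on generalizing v with
  | C1 =>
    rw [map_one, ev_one, ps_one]
    exact .one (mem_of_A0 hv)
  | of x =>
    exact .of (mem_of_A0 hv) (mem_of_A0 (f := f) (by rw [prj_alpha]; exact hv))
      (Or.inl ⟨x, rfl, rfl⟩)
  | inv_of x h =>
    have hv' : prj f S (ps T v (T.α (FreeGroup.of x)⁻¹)) ∉ A0 U' := by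
      rw [prj_alpha]; exact hv
    have h1 := (h hv').inv
    rw [map_inv] at h1 ⊢
    rw [ps_inv_cancel, ← ev_inv2] at h1
    exact h1
  | mul n n' h h' =>
    rw [map_mul, ev_mul, ps_mul]
    exact (h hv).mul (h' (by rw [prj_alpha]; exact hv))

theorem beta_gen {p : List ((RC (S.map f) × T.PQ.X) × Bool)}
    {v : RC S} {b' : RC (S.map f)}
    (hp : (cov T.PQ (RC (S.map f))).IsPath (A0 U')ᶜ (prj f S v) p b') :
    Gen U' (ES T ε U') v (ev T.P ε v (T.β (wd p))) (ps T v (T.β (wd p))) := by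
  induction p generalizing v with
  | nil =>
    rw [wd_nil, map_one, ev_one, ps_one]
    exact .one (mem_of_A0 hp.1)
  | cons z p ih =>
    obtain ⟨h1, h2, h3⟩ := hp
    rw [← prj_step h2] at h3
    rw [wd_cons, map_mul, ev_mul, ps_mul]
    refine Gen.mul ?_ (ih h3)
    have h4 := h3.left
    generalize z.1.2 = y at h4
    generalize z.2 = s at h4
    cases s with
    | true => exact .of (mem_of_A0 h1) (mem_of_A0 h4) (Or.inr ⟨y, h1, h4, rfl, rfl⟩)
    | false =>
      have e : FreeGroup.mk [(y, false)] = (FreeGroup.of y)⁻¹ := rfl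
      rw [e] at h4 ⊢
      have h5 : Gen U' (ES T ε U') (ps T v (T.β (FreeGroup.of y)⁻¹))
          (ev T.P ε (ps T v (T.β (FreeGroup.of y)⁻¹)) (T.β (FreeGroup.of y))) v := by
        have e2 : ps T (ps T v (T.β (FreeGroup.of y)⁻¹)) (T.β (FreeGroup.of y)) = v := by
          rw [map_inv, ps_inv_cancel]
        exact .of (mem_of_A0 h4) (mem_of_A0 h1) (Or.inr ⟨y, h4, h1, e2.symm, rfl⟩)
      have h6 := h5.inv
      rw [map_inv, ← ev_inv2] at h6
      rw [map_inv]
      exact h6

/-- the arrows starting at a vertex over the good part of the base -/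
theorem form (hL : Loc T ε U') {u : RC S} {g : Γ} {w : RC S}
    (h : Gen U' (ES T ε U') u g w) (hu : prj f S u ∉ A0 U') :
    ∃ (p : List ((RC (S.map f) × T.PQ.X) × Bool)) (n : FreeGroup T.PN.X),
      (cov T.PQ (RC (S.map f))).IsPath (A0 U')ᶜ (prj f S u) p (prj f S w) ∧
      g = ev T.P ε u (T.β (wd p) * T.α n) ∧ ps T u (T.β (wd p) * T.α n) = w := by
  let R : RC S → Γ → RC S → Prop := fun u g w => u ∈ U' ∧ w ∈ U' ∧
    (prj f S u ∉ A0 U' ↔ prj f S w ∉ A0 U') ∧ (prj f S u ∉ A0 U' →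
    ∃ (p : List ((RC (S.map f) × T.PQ.X) × Bool)) (n : FreeGroup T.PN.X),
      (cov T.PQ (RC (S.map f))).IsPath (A0 U')ᶜ (prj f S u) p (prj f S w) ∧
      g = ev T.P ε u (T.β (wd p) * T.α n) ∧ ps T u (T.β (wd p) * T.α n) = w)
  have hR : Gpd U' R :=
    { mem := fun h => ⟨h.1, h.2.1⟩
      one := by
        intro u hu
        refine ⟨hu, hu, Iff.rfl, fun h => ⟨[], 1, ⟨h, rfl⟩, ?_, ?_⟩⟩
        · rw [wd_nil, map_one, map_one, mul_one, ev_one]
        · rw [wd_nil, map_one, map_one, mul_one, ps_one]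
      inv := by
        rintro u g w ⟨h1, h2, h3, h4⟩
        refine ⟨h2, h1, h3.symm, fun h => ?_⟩
        obtain ⟨p, n, h5, rfl, h7⟩ := h4 (h3.2 h)
        have h8 := h5.rev
        obtain ⟨n', h9⟩ := push hL h8 n⁻¹
        refine ⟨_, n', h8, ?_, ?_⟩
        · rw [← h9.1, ← ev_inv', ← h7]
          show ev T.P ε (ps T u _) _ = _
          rw [mul_inv_rev, wd_rev, map_inv, map_inv]
        · show ra w (T.P.q _) = u
          rw [← h9.2]
          show ps T w _ = u
          rw [← h7, ← ps_mul, wd_rev, map_inv, map_inv]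
          have e : T.β (wd p) * T.α n * ((T.α n)⁻¹ * (T.β (wd p))⁻¹) = 1 := by group
          rw [e, ps_one]
      mul := by
        rintro u g v h w ⟨h1, h2, h3, h4⟩ ⟨h5, h6, h7, h8⟩
        refine ⟨h1, h6, h3.trans h7, fun h => ?_⟩
        obtain ⟨p, n, h9, rfl, h11⟩ := h4 h
        obtain ⟨p', n', h12, rfl, h14⟩ := h8 (h3.1 h)
        have h15 : (cov T.PQ (RC (S.map f))).IsPath (A0 U')ᶜ
            (prj f S (ps T u (T.β (wd p)))) p' (prj f S w) := by
          rw [prj_path h9]
          exact h12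
        obtain ⟨n'', h16⟩ := push hL h15 n
        have h17 := (h16.mul_right (T.α n')).mul_left
        refine ⟨_, n'' * n', h9.append h12, ?_, ?_⟩
        · have e1 : T.β (wd p) * (T.α n * T.β (wd p') * T.α n') =
              T.β (wd p) * T.α n * (T.β (wd p') * T.α n') := by group
          have h18 := h17.1
          rw [e1, ev_mul] at h18
          rw [← h11]
          show _ * ev T.P ε (ps T u _) _ = _
          rw [h18, wd_append, map_mul, map_mul]
          congr 1
          group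
        · have h18 := h17.2
          rw [wd_append, map_mul, map_mul]
          have e2 : T.β (wd p) * T.β (wd p') * (T.α n'' * T.α n') =
            T.β (wd p) * (T.β (wd p') * T.α n'' * T.α n') := by group
          rw [e2]
          show ra u (T.P.q _) = w
          rw [← h18]
          show ps T u _ = w
          have e1 : T.β (wd p) * (T.α n * T.β (wd p') * T.α n') =
              T.β (wd p) * T.α n * (T.β (wd p') * T.α n') := by group
          rw [e1, ps_mul, h11, h14] }
  have h2 : R u g w := by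
    refine Gen.le hR (le_refl _) ?_ h
    rintro u g w hu hw (⟨x, rfl, rfl⟩ | ⟨y, h1, h2, rfl, rfl⟩)
    · refine ⟨hu, hw, ?_, fun h => ⟨[], FreeGroup.of x, ?_, ?_, ?_⟩⟩
      · rw [prj_alpha]
      · rw [prj_alpha]; exact ⟨h, rfl⟩
      · rw [wd_nil, map_one, one_mul]
      · rw [wd_nil, map_one, one_mul]
    · refine ⟨hu, hw, ⟨fun _ => h2, fun _ => h1⟩, fun h =>
        ⟨[((prj f S u, y), true)], 1, ⟨h1, rfl, ?_⟩, ?_, ?_⟩⟩
      · have e : prj f S (ps T u (T.β (FreeGroup.of y))) = ra (prj f S u) (T.PQ.gen y) := by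
          rw [prj_beta]
          show ra _ (FreeGroup.lift T.PQ.gen (FreeGroup.of y)) = _
          rw [FreeGroup.lift_apply_of]
        rw [e] at h2 ⊢
        exact ⟨h2, rfl⟩
      · rw [wd_cons, wd_nil, mul_one, map_one, mul_one]
        rfl
      · rw [wd_cons, wd_nil, mul_one, map_one, mul_one]
        rfl
  exact h2.2.2.2 hu

end core1

end Pool.Agent.R645.TM
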