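import Pool.Agent.R645.TM.Core1

/-! Extensions: vertex groups over the good part of the base. -/

set_option autoImplicit false

namespace Pool.Agent.R645.TM

universe u v w

open Cx

/-- the covering complex of the base -/
abbrev BK {G : Type u} [Group G] {Q : Type u} [Group Q] {f : G →* Q} (T : Setup f) (S : Subgroup G) :
    Cx.{u} := cov T.PQ (RC (S.map f))

section core2

variable {G : Type u} [Group G] {Q : Type u} [Group Q] {f : G →* Q} {T : Setup f} {S : Subgroup G}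
variable {Γ : Type u} [Group Γ] {ε : RC S → T.P.X → Γ} {U' : Set (RC S)}

/-- values of lifted loops -/
theorem loop_claim (hL : Loc T ε U') {u : RC S} (hu : prj f S u ∉ A0 U')
    (M : Subgroup Γ) (hV : Vg T ε u ⊆ M)
    (Z : Set ((BK T S).Pi1 (A0 U')ᶜ ⟨prj f S u, hu⟩))
    (hZ : ∀ z ∈ Z, ∃ (l : (BK T S).Loop (A0 U')ᶜ (prj f S u))
      (n : FreeGroup T.PN.X),
      z = Pi1.mk (K := BK T S) (U := (A0 U')ᶜ) (v := ⟨prj f S u, hu⟩) l ∧
      ps T u (T.β (wd l.1) * T.α n) = u ∧ ev T.P ε u (T.β (wd l.1) * T.α n) ∈ M)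
    (c : (BK T S).Pi1 (A0 U')ᶜ ⟨prj f S u, hu⟩)
    (hc : c ∈ Subgroup.closure Z) :
    ∀ (l : (BK T S).Loop (A0 U')ᶜ (prj f S u))
      (n : FreeGroup T.PN.X),
      c = Pi1.mk (K := BK T S) (U := (A0 U')ᶜ) (v := ⟨prj f S u, hu⟩) l →
      ps T u (T.β (wd l.1) * T.α n) = u → ev T.P ε u (T.β (wd l.1) * T.α n) ∈ M := by
  have base : ∀ (w w' : FreeGroup T.P.X) (n n' : FreeGroup T.PN.X), LE T ε u w w' →
      ps T u (w * T.α n) = u → ev T.P ε u (w * T.α n) ∈ M →
      ps T u (w' * T.α n') = u → ev T.P ε u (w' * T.α n') ∈ M := by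
    rintro w w' n n' ⟨m, hm⟩ h1 h2 h3
    have hm1 : EQ T ε u (w * T.α m * T.α n') (w' * T.α n') := EQ.mul_right hm _
    have e : w * T.α m * T.α n' = w * T.α n * T.α (n⁻¹ * m * n') := by
      rw [map_mul, map_mul, map_inv]; group
    rw [← hm1.1, e, ev_mul]
    refine M.mul_mem h2 (hV ⟨n⁻¹ * m * n', ?_, ?_⟩)
    · show ev T.P ε (ps T u (w * T.α n)) _ = _
      rw [h1]
    · have h4 : ps T u (w * T.α m * T.α n') = u := by
        show ra u (T.P.q _) = u
        rw [hm1.2]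
        exact h3
      rw [e, ps_mul, h1] at h4
      exact h4
  induction hc using Subgroup.closure_induction with
  | mem z hz =>
    intro l n hl h
    obtain ⟨l0, n0, rfl, h1, h2⟩ := hZ z hz
    rw [Pi1.mk_eq] at hl
    exact base _ _ n0 n (htp_lift hL hl u rfl) h1 h2 h
  | one =>
    intro l n hl h
    rw [Pi1.one_def, Pi1.mk_eq] at hl
    refine base _ _ 1 n (htp_lift hL hl u rfl) ?_ ?_ h
    · show ps T u (T.β (wd []) * T.α 1) = u
      rw [wd_nil, map_one, map_one, mul_one, ps_one]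
    · show ev T.P ε u (T.β (wd []) * T.α 1) ∈ M
      rw [wd_nil, map_one, map_one, mul_one, ev_one]
      exact M.one_mem
  | mul c c' _ _ hc hc' =>
    intro l n hl h
    obtain ⟨l1, rfl⟩ := c.exists_rep
    obtain ⟨l2, rfl⟩ := c'.exists_rep
    rw [Pi1.mk_mul, Pi1.mk_eq] at hl
    obtain ⟨n1, hn1⟩ := fib T (v := ps T u (T.β (wd l1.1))) (v' := u) (prj_path l1.2)
    have h1 : ps T u (T.β (wd l1.1) * T.α n1) = u := by rw [ps_mul]; exact hn1.symm
    have k1 := hc l1 n1 rfl h1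
    obtain ⟨n2, hn2⟩ := fib T (v := ps T u (T.β (wd l2.1))) (v' := u) (prj_path l2.2)
    have h2 : ps T u (T.β (wd l2.1) * T.α n2) = u := by rw [ps_mul]; exact hn2.symm
    have k2 := hc' l2 n2 rfl h2
    obtain ⟨n3, hn3⟩ := push hL l2.2 n1⁻¹
    have hn4 := hn3.mul_right (T.α (n3⁻¹ * n2))
    have hn5 : EQ T ε u (T.β (wd l1.1) * T.α n1 * (T.α n1⁻¹ * T.β (wd l2.1) * T.α (n3⁻¹ * n2)))
        (T.β (wd l1.1) * T.α n1 * (T.β (wd l2.1) * T.α n3 * T.α (n3⁻¹ * n2))) := by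
      apply EQ.mul_left
      rw [h1]
      exact hn4
    have e1 : T.β (wd l1.1) * T.α n1 * (T.α n1⁻¹ * T.β (wd l2.1) * T.α (n3⁻¹ * n2)) =
        T.β (wd (l1.1 ++ l2.1)) * T.α (n3⁻¹ * n2) := by
      rw [wd_append, map_mul T.β, map_inv]; group
    have e2 : T.β (wd l1.1) * T.α n1 * (T.β (wd l2.1) * T.α n3 * T.α (n3⁻¹ * n2)) =
        T.β (wd l1.1) * T.α n1 * (T.β (wd l2.1) * T.α n2) := by
      rw [map_mul, map_inv]; group
    rw [e1, e2] at hn5
    refine base _ _ (n3⁻¹ * n2) n (htp_lift hL hl u rfl) ?_ ?_ h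
    · show ra u (T.P.q (T.β (wd (l1.1 ++ l2.1)) * T.α (n3⁻¹ * n2))) = u
      rw [hn5.2]
      show ps T u _ = u
      rw [ps_mul, h1, h2]
    · show ev T.P ε u (T.β (wd (l1.1 ++ l2.1)) * T.α (n3⁻¹ * n2)) ∈ M
      rw [hn5.1, ev_mul]
      refine M.mul_mem k1 ?_
      show ev T.P ε (ps T u _) _ ∈ M
      rw [h1]
      exact k2
  | inv c _ hc =>
    intro l n hl h
    obtain ⟨l1, rfl⟩ := c.exists_rep
    rw [Pi1.mk_inv, Pi1.mk_eq] at hl
    obtain ⟨n1, hn1⟩ := fib T (v := ps T u (T.β (wd l1.1))) (v' := u) (prj_path l1.2)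
    have h1 : ps T u (T.β (wd l1.1) * T.α n1) = u := by rw [ps_mul]; exact hn1.symm
    have k1 := hc l1 n1 rfl h1
    obtain ⟨n3, hn3⟩ := push hL l1.2.rev n1⁻¹
    have e1 : T.α n1⁻¹ * T.β (wd (Cx.rv (K := BK T S) l1.1)) =
        (T.β (wd l1.1) * T.α n1)⁻¹ := by
      rw [wd_rev, map_inv, map_inv, mul_inv_rev]
    have hn4 : EQ T ε u (T.β (wd l1.1) * T.α n1)⁻¹
      (T.β (wd (Cx.rv (K := BK T S) l1.1)) * T.α n3) := by
      rw [← e1]; exact hn3
    have e2 : ev T.P ε u (T.β (wd l1.1) * T.α n1)⁻¹ =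
        (ev T.P ε u (T.β (wd l1.1) * T.α n1))⁻¹ := by
      have := ev_inv' T.P ε u (T.β (wd l1.1) * T.α n1)
      rw [show ra u (T.P.q (T.β (wd l1.1) * T.α n1)) = u from h1] at this
      exact this
    have e3 : ps T u (T.β (wd l1.1) * T.α n1)⁻¹ = u := by
      have := ps_mul T u (T.β (wd l1.1) * T.α n1) (T.β (wd l1.1) * T.α n1)⁻¹
      rw [mul_inv_cancel, ps_one, h1] at this
      exact this.symm
    refine base _ _ n3 n (htp_lift hL hl u rfl) ?_ ?_ h
    · show ra u (T.P.q (T.β (wd (Cx.rv (K := BK T S) l1.1)) * T.α n3)) = u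
      rw [← hn4.2]
      exact e3
    · show ev T.P ε u (T.β (wd (Cx.rv (K := BK T S) l1.1)) * T.α n3) ∈ M
      rw [← hn4.1, e2]
      exact M.inv_mem k1

/-- vertex groups over the good part of the base are finitely generated -/
theorem good_fg (hL : Loc T ε U') (hU' : U'ᶜ.Finite)
    (hN : ∀ a : G, TameC T.PN (RC (stb f S a)))
    (hQ : TameC T.PQ (RC (S.map f))) {u : RC S}
    (hu : prj f S u ∉ A0 U') : (Subgroup.closure {g | Gen U' (ES T ε U') u g u}).FG := by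
  have hfin : (A0 (f := f) U')ᶜᶜ.Finite := by
    rw [compl_compl]
    exact hU'.image _
  have h1 : Group.FG ((BK T S).Pi1 (A0 U')ᶜ ⟨prj f S u, hu⟩) := base_fg T.PQ _ hQ hfin _
  obtain ⟨Z, hZ⟩ := (Group.fg_def.1 h1)
  obtain ⟨s, hs⟩ := Vg_fg hL hN hu
  -- representatives
  have hrep : ∀ z : (BK T S).Pi1 (A0 U')ᶜ ⟨prj f S u, hu⟩,
      ∃ ln : (BK T S).Loop (A0 U')ᶜ (prj f S u) × FreeGroup T.PN.X,
      z = Pi1.mk (K := BK T S) (U := (A0 U')ᶜ) (v := ⟨prj f S u, hu⟩) ln.1 ∧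
      ps T u (T.β (wd ln.1.1) * T.α ln.2) = u := by
    intro z
    obtain ⟨l, rfl⟩ := z.exists_rep
    obtain ⟨n, hn⟩ := fib T (v := ps T u (T.β (wd l.1))) (v' := u) (prj_path l.2)
    exact ⟨(l, n), rfl, by rw [ps_mul]; exact hn.symm⟩
  choose ln hln1 hln2 using hrep
  let val : (BK T S).Pi1 (A0 U')ᶜ ⟨prj f S u, hu⟩ → Γ := fun z =>
    ev T.P ε u (T.β (wd (ln z).1.1) * T.α (ln z).2)
  let M : Subgroup Γ := Subgroup.closure ((s : Set Γ) ∪ val '' (Z : Set _))
  have hMfg : M.FG := by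
    have hf : ((s : Set Γ) ∪ val '' (Z : Set _)).Finite :=
      s.finite_toSet.union (Z.finite_toSet.image _)
    exact ⟨hf.toFinset, by rw [Set.Finite.coe_toFinset]⟩
  have hV : Vg T ε u ⊆ M := by
    have h2 : Subgroup.closure (s : Set Γ) ≤ M := Subgroup.closure_mono Set.subset_union_left
    rw [hs] at h2
    exact Set.Subset.trans Subgroup.subset_closure h2
  have hclaim := loop_claim hL hu M hV Z (fun z hz => ⟨(ln z).1, (ln z).2, hln1 z, hln2 z,
    Subgroup.subset_closure (Or.inr ⟨z, hz, rfl⟩)⟩)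
  have e : Subgroup.closure {g | Gen U' (ES T ε U') u g u} = M := by
    apply le_antisymm
    · rw [Subgroup.closure_le]
      intro g hg
      obtain ⟨p, n, h2, rfl, h4⟩ := form hL hg hu
      exact hclaim (Pi1.mk (K := BK T S) (U := (A0 U')ᶜ) (v := ⟨prj f S u, hu⟩) ⟨p, h2⟩)
        (by rw [hZ]; trivial) ⟨p, h2⟩ n rfl h4
    · rw [Subgroup.closure_le]
      rintro g (hg | ⟨z, _, rfl⟩)
      · have h2 : g ∈ Subgroup.closure (Vg T ε u) := by
          rw [← hs]; exact Subgroup.subset_closure hg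
        refine Subgroup.closure_mono ?_ h2
        rintro g ⟨n, rfl, h3⟩
        have h4 := alpha_gen (ε := ε) hu n
        rw [h3] at h4
        exact h4
      · apply Subgroup.subset_closure
        show Gen U' (ES T ε U') u (ev T.P ε u (T.β (wd (ln z).1.1) * T.α (ln z).2)) u
        rw [ev_mul]
        have h3 := hln2 z
        rw [ps_mul] at h3
        have h4 := beta_gen (ε := ε) (ln z).1.2
        have h5 := alpha_gen (ε := ε) (v := ps T u (T.β (wd (ln z).1.1)))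
          (by rw [prj_path (ln z).1.2]; exact hu) (ln z).2
        rw [h3] at h5
        exact h4.mul h5
  rw [e]
  exact hMfg

end core2

end Pool.Agent.R645.TM
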