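import Pool.Agent.R645.TM.Core2

/-! Extensions: tameness of the extension. -/

set_option autoImplicit false

namespace Pool.Agent.R645.TM

universe u v w

open Cx

/-- connectivity of cofinite parts of the base -/
theorem base_conn {G : Type u} [Group G] (P : Pres G) {V : Type u} [RAct G V] (U : Set V)
    (hT : TameC P V) (hU : Uᶜ.Finite) : ∃ V1 : Set V, V1.Finite ∧ ∀ b ∈ U, ∃ b' ∈ V1,
      ∃ p, (cov P V).IsPath U b p b' := by
  have h := hT ((cov P V).Gam U) U hU (eps0 P U) (isCoc_eps0 P U)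
  have e : edg P (eps0 P U) = kE (K := cov P V) U := by
    funext u g w
    apply propext
    constructor
    · rintro ⟨x, rfl, rfl⟩
      exact ⟨(u, x), rfl, rfl, rfl⟩
    · rintro ⟨⟨v, x⟩, rfl, rfl, rfl⟩
      exact ⟨x, rfl, rfl⟩
  rw [e] at h
  obtain ⟨⟨V1, hV1, h1⟩, _⟩ := h
  refine ⟨V1, hV1, fun b hb => ?_⟩
  obtain ⟨b', hb', g, hg⟩ := h1 b hb
  obtain ⟨l, hl, _⟩ := gen_path (K := cov P V) hg
  exact ⟨b', hb', l, hl⟩

section core3

variable {G : Type u} [Group G] {Q : Type u} [Group Q] {f : G →* Q} {T : Setup f} {S : Subgroup G}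
variable {Γ : Type u} [Group Γ] {ε : RC S → T.P.X → Γ} {U' : Set (RC S)}

/-- the pieces together form a groupoid with f.g. vertex groups and finitely many components -/
theorem pieces_fgs (hL : Loc T ε U') (hU' : U'ᶜ.Finite)
    (hN : ∀ a : G, TameC T.PN (RC (stb f S a)))
    (hQ : TameC T.PQ (RC (S.map f))) :
    FGs U' (Gen U' (ES T ε U')) := by
  have hA0 : (A0 (f := f) U').Finite := hU'.image _
  have hfib : ∀ a : G, FGs (orb f S a ⁻¹' U')
      (Gen (orb f S a ⁻¹' U') (edg T.PN (epN T ε a))) := by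
    intro a
    refine hN a Γ _ ?_ _ (isCoc_epN hL a)
    rw [← Set.preimage_compl]
    exact hU'.preimage (orb_inj f S a).injOn
  constructor
  · have hrep : ∀ b : RC (S.map f), ∃ a : G, prj f S (RC.mk S a) = b := by
      intro b
      obtain ⟨v, hv⟩ := prj_surj f S T.surj b
      obtain ⟨a, rfl⟩ := v.exists_rep
      exact ⟨a, hv⟩
    choose a ha using hrep
    have hV : ∀ b : RC (S.map f), ∃ V1 : Set (RC (stb f S (a b))),
        V1.Finite ∧ ∀ u ∈ orb f S (a b) ⁻¹' U', ∃ w ∈ V1, ∃ g,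
          Gen (orb f S (a b) ⁻¹' U') (edg T.PN (epN T ε (a b))) u g w :=
      fun b => (hfib (a b)).1
    choose V1 hV1 hV2 using hV
    obtain ⟨W, hW, hW2⟩ := base_conn T.PQ (A0 (f := f) U')ᶜ hQ (by rw [compl_compl]; exact hA0)
    refine ⟨(⋃ b ∈ A0 (f := f) U', orb f S (a b) '' V1 b) ∪ (fun b => RC.mk S (a b)) '' W,
      (hA0.biUnion fun b _ => (hV1 b).image _).union (hW.image _), ?_⟩
    intro u hu
    by_cases h : prj f S u ∈ A0 U'
    · obtain ⟨m, hm⟩ := orb_surj f S (a := a (prj f S u)) (v := u) (ha _).symm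
      obtain ⟨w, hw, g, hg⟩ := hV2 (prj f S u) m (by show orb f S _ m ∈ U'; rw [hm]; exact hu)
      refine ⟨orb f S (a (prj f S u)) w, Or.inl ?_, g, ?_⟩
      · rw [Set.mem_iUnion₂]
        exact ⟨_, h, w, hw, rfl⟩
      · have h1 := orb_gen hg
        rw [hm] at h1
        exact h1
    · obtain ⟨b', hb', p, hp⟩ := hW2 _ h
      have h1 := beta_gen (ε := ε) hp
      have h2 := prj_path hp
      obtain ⟨n, hn⟩ := fib T (v := ps T u (T.β (wd p))) (v' := RC.mk S (a b')) (by
        rw [h2, ha])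
      have h3 := alpha_gen (ε := ε) (v := ps T u (T.β (wd p))) (by rw [h2]; exact hp.right) n
      rw [← hn] at h3
      exact ⟨RC.mk S (a b'), Or.inr ⟨b', hb', rfl⟩, _, h1.mul h3⟩
  · intro u hu
    by_cases h : prj f S u ∈ A0 U'
    · obtain ⟨a, rfl⟩ := u.exists_rep
      have e1 : orb f S a (RC.mk _ 1) = RC.mk S a := by
        rw [orb_mk, Subgroup.coe_one, mul_one]
      have h1 := (hfib a).2 (RC.mk _ 1) (by
        show orb f S a (RC.mk _ 1) ∈ U'
        rw [e1]; exact hu)
      have e : {g | Gen U' (ES T ε U') (RC.mk S a) g (RC.mk S a)} =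
          {g | Gen (orb f S a ⁻¹' U') (edg T.PN (epN T ε a)) (RC.mk _ 1) g (RC.mk _ 1)} := by
        ext g
        constructor
        · intro hg
          obtain ⟨m, m', h2, h3, h4⟩ := gen_orb h hg rfl
          have e2 : m = RC.mk _ 1 := orb_inj f S a (h2.trans e1.symm)
          have e3 : m' = RC.mk _ 1 := orb_inj f S a (h3.trans e1.symm)
          subst e2
          subst e3
          exact h4
        · intro hg
          have h2 := orb_gen hg
          rw [e1] at h2
          exact h2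
      rw [e]
      exact h1
    · exact good_fg hL hU' hN hQ h

/-- vertical words read far from the complement of `U'` -/
theorem alpha_far {A : RC S → Γ → RC S → Prop} (hA : Gpd U' A)
    (hE : ∀ u g w, Gen U' (ES T ε U') u g w → A u g w) (n : FreeGroup T.PN.X) :
    ∃ F : Set G, F.Finite ∧ ∀ v : RC S, (∀ p ∈ F, ra v p ∈ U') →
      A v (ev T.P ε v (T.α n)) (ra v (T.P.q (T.α n))) := by
  refine sup_gen T.P T.α ε hA (le_refl _) ?_ n
  intro x
  refine ⟨{1, T.P.q (T.α (FreeGroup.of x))}, by simp, fun v hv => ?_⟩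
  have h1 := hv 1 (by simp)
  have h2 := hv _ (Set.mem_insert_of_mem _ rfl)
  rw [RAct.ra_one] at h1
  exact hE _ _ _ (.of h1 h2 (Or.inl ⟨x, rfl, rfl⟩))

end core3

end Pool.Agent.R645.TM
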