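import Pool.Agent.R645.TM.Core3

/-! Extensions: tameness of the extension. -/

set_option autoImplicit false

namespace Pool.Agent.R645.TM

universe u v w

open Cx

section core4

variable {G : Type u} [Group G] {Q : Type u} [Group Q] {f : G →* Q} {T : Setup f} {S : Subgroup G}
variable {Γ : Type u} [Group Γ] {ε : RC S → T.P.X → Γ}

/-- an element of the kernel as a word -/
theorem word_of_mem (T : Setup f) {g : G} (hg : g ∈ f.ker) :
    ∃ n : FreeGroup T.PN.X, T.P.q (T.α n) = g := by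
  obtain ⟨n, hn⟩ := T.PN.surj ⟨g, hg⟩
  refine ⟨n, ?_⟩
  rw [T.hα]
  show ((FreeGroup.lift T.PN.gen n : f.ker) : G) = g
  rw [hn]

/-- the local relations hold far from the complement of `U` -/
theorem exists_loc (T : Setup f) {U : Set (RC S)} (ε : RC S → T.P.X → Γ)
    (hε : IsCoc T.P U ε) :
    ∃ F : Set G, F.Finite ∧ 1 ∈ F ∧ Loc T ε (farS F U) ∧
      (∀ v ∈ farS F U, ∀ x : T.PN.X, Gen U (edg T.P ε) v (ev T.P ε v (T.α (FreeGroup.of x)))
        (ps T v (T.α (FreeGroup.of x)))) ∧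
      (∀ v ∈ farS F U, ∀ y : T.PQ.X, Gen U (edg T.P ε) v (ev T.P ε v (T.β (FreeGroup.of y)))
        (ps T v (T.β (FreeGroup.of y)))) := by
  have hNX := T.PN.finX
  have hNι := T.PN.finι
  have hQX := T.PQ.finX
  have hQι := T.PQ.finι
  obtain ⟨F1, hF1, h1⟩ := fam (ι := T.PN.ι) (U := U)
    (Q := fun i v => ev T.P ε v (T.α (FreeGroup.mk (T.PN.rel i))) = 1) (by
    intro i
    apply sup_one T.P U ε hε
    rw [T.hα, q_rel, Subgroup.coe_one])
  have hn2 : ∀ i : T.PQ.ι, ∃ n : FreeGroup T.PN.X,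
      T.P.q (T.α n) = T.P.q (T.β (FreeGroup.mk (T.PQ.rel i))) := by
    intro i
    apply word_of_mem T
    rw [MonoidHom.mem_ker, T.hβ, q_rel]
  choose n2 hn2 using hn2
  obtain ⟨F2, hF2, h2⟩ := fam (ι := T.PQ.ι) (U := U)
    (Q := fun i v => ev T.P ε v (T.β (FreeGroup.mk (T.PQ.rel i))) = ev T.P ε v (T.α (n2 i))) (by
    intro i
    exact sup_eq T.P U ε hε _ _ (hn2 i).symm)
  have hn3 : ∀ xz : T.PN.X × (T.PQ.X × Bool), ∃ n : FreeGroup T.PN.X,
      T.P.q (T.α n) = T.P.q ((T.β (FreeGroup.mk [xz.2]))⁻¹ * T.α (FreeGroup.of xz.1) *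
        (T.β (FreeGroup.mk [xz.2]))⁻¹⁻¹) := by
    intro xz
    apply word_of_mem T
    rw [map_mul, map_mul, map_inv]
    have h := (T.PN.q (FreeGroup.of xz.1)).2
    rw [← T.hα] at h
    rw [map_inv (T.P.q) (T.β (FreeGroup.mk [xz.2]))⁻¹, map_inv]
    exact Subgroup.Normal.conj_mem inferInstance _ h _
  choose n3 hn3 using hn3
  have hn3' : ∀ xz : T.PN.X × (T.PQ.X × Bool),
      T.P.q (T.α (FreeGroup.of xz.1) * T.β (FreeGroup.mk [xz.2])) =
      T.P.q (T.β (FreeGroup.mk [xz.2]) * T.α (n3 xz)) := by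
    intro xz
    rw [map_mul T.P.q (T.β (FreeGroup.mk [xz.2])), hn3, ← map_mul]
    congr 1
    group
  obtain ⟨F3, hF3, h3⟩ := fam (ι := T.PN.X × (T.PQ.X × Bool)) (U := U)
    (Q := fun xz v => ev T.P ε v (T.α (FreeGroup.of xz.1) * T.β (FreeGroup.mk [xz.2])) =
      ev T.P ε v (T.β (FreeGroup.mk [xz.2]) * T.α (n3 xz))) (by
    intro xz
    exact sup_eq T.P U ε hε _ _ (hn3' xz))
  obtain ⟨F4, hF4, h4⟩ := fam (ι := T.PN.X) (U := U)
    (Q := fun x v => Gen U (edg T.P ε) v (ev T.P ε v (T.α (FreeGroup.of x)))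
        (ps T v (T.α (FreeGroup.of x)))) (by
    intro x
    exact sup_edg T.P U ε _)
  obtain ⟨F5, hF5, h5⟩ := fam (ι := T.PQ.X) (U := U)
    (Q := fun y v => Gen U (edg T.P ε) v (ev T.P ε v (T.β (FreeGroup.of y)))
        (ps T v (T.β (FreeGroup.of y)))) (by
    intro y
    exact sup_edg T.P U ε _)
  refine ⟨{1} ∪ (F1 ∪ (F2 ∪ (F3 ∪ (F4 ∪ F5)))), ?_, Or.inl rfl, ⟨?_, ?_, ?_⟩, ?_, ?_⟩
  · exact (Set.finite_singleton _).union (hF1.union (hF2.union (hF3.union (hF4.union hF5))))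
  · intro v hv
    exact h1 v (fun p hp => hv p (Or.inr (Or.inl hp)))
  · intro i
    refine ⟨n2 i, fun v hv => ⟨?_, (hn2 i).symm⟩⟩
    exact h2 v (fun p hp => hv p (Or.inr (Or.inr (Or.inl hp)))) i
  · intro x z
    refine ⟨n3 (x, z), fun v hv => ⟨?_, hn3' (x, z)⟩⟩
    exact h3 v (fun p hp => hv p (Or.inr (Or.inr (Or.inr (Or.inl hp))))) (x, z)
  · intro v hv
    exact h4 v (fun p hp => hv p (Or.inr (Or.inr (Or.inr (Or.inr (Or.inl hp))))))
  · intro v hv
    exact h5 v (fun p hp => hv p (Or.inr (Or.inr (Or.inr (Or.inr (Or.inr hp))))))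

/-- The main theorem in groupoid form. -/
theorem tameC_ext (T : Setup f) (S : Subgroup G)
    (hN : ∀ a : G, TameC T.PN (RC (stb f S a)))
    (hQ : TameC T.PQ (RC (S.map f))) : TameC T.P (RC S) := by
  intro Γ _ U hU ε hε
  have hPX := T.P.finX
  have hNX := T.PN.finX
  have hQX := T.PQ.finX
  obtain ⟨F, hF, hF1, hL, hαe, hβe⟩ := exists_loc T ε hε
  obtain ⟨U', hU'def⟩ : ∃ U', U' = farS F U := ⟨_, rfl⟩
  rw [← hU'def] at hL hαe hβe
  have hU' : U'ᶜ.Finite := by rw [hU'def]; exact farS_fin hF hU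
  have hUU : U' ⊆ U := by
    intro v hv
    rw [hU'def] at hv
    have := hv 1 hF1
    rwa [RAct.ra_one] at this
  have hFG := pieces_fgs hL hU' hN hQ
  have hA0 : (A0 (f := f) U').Finite := hU'.image _
  -- commutation words for positive letters
  have hcomm : ∀ xy : T.PN.X × T.PQ.X, ∃ n : FreeGroup T.PN.X, ∀ v ∈ U',
      EQ T ε v (T.α (FreeGroup.of xy.1) * T.β (FreeGroup.of xy.2))
        (T.β (FreeGroup.of xy.2) * T.α n) := fun xy => hL.comm xy.1 (xy.2, true)
  choose nc hnc using hcomm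
  -- the second far set
  have hF2 : ∀ xy : T.PN.X × T.PQ.X, ∃ F2 : Set G, F2.Finite ∧ ∀ v : RC S,
      (∀ p ∈ F2, ra v p ∈ U') → (v ∈ U' ∧ ps T v (T.β (FreeGroup.of xy.2)) ∈ U' ∧
        Gen U' (ES T ε U') (ps T v (T.β (FreeGroup.of xy.2)))
          (ev T.P ε (ps T v (T.β (FreeGroup.of xy.2))) (T.α (nc xy)))
          (ps T (ps T v (T.β (FreeGroup.of xy.2))) (T.α (nc xy)))) := by
    intro xy
    obtain ⟨F2, hF2, h2⟩ := alpha_far (ε := ε) (gpd_gen U' (ES T ε U')) (fun _ _ _ h => h) (nc xy)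
    refine ⟨{1} ∪ ({T.P.q (T.β (FreeGroup.of xy.2))} ∪
      (fun p => T.P.q (T.β (FreeGroup.of xy.2)) * p) '' F2), ?_, fun v hv => ⟨?_, ?_, ?_⟩⟩
    · exact (Set.finite_singleton _).union ((Set.finite_singleton _).union (hF2.image _))
    · have := hv 1 (Or.inl rfl)
      rwa [RAct.ra_one] at this
    · exact hv _ (Or.inr (Or.inl rfl))
    · apply h2
      intro p hp
      rw [← RAct.ra_mul]
      exact hv _ (Or.inr (Or.inr ⟨p, hp, rfl⟩))
  obtain ⟨F2, hF2f, hF2⟩ := fam hF2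
  obtain ⟨F2', hF2f', hF2'⟩ := fam (ι := T.PQ.X) (U := U')
    (Q := fun y (v : RC S) => ps T v (T.β (FreeGroup.of y)) ∈ U') (by
    intro y
    exact ⟨{T.P.q (T.β (FreeGroup.of y))}, Set.finite_singleton _, fun v hv => hv _ rfl⟩)
  obtain ⟨far, hfardef⟩ : ∃ far : Set (RC S), far = farS ({1} ∪ (F2 ∪ F2')) U' := ⟨_, rfl⟩
  have hfar : farᶜ.Finite := by
    rw [hfardef]
    exact farS_fin ((Set.finite_singleton _).union (hF2f.union hF2f')) hU'
  have hfar1 : ∀ v ∈ far, v ∈ U' := by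
    intro v hv
    rw [hfardef] at hv
    have := hv 1 (Or.inl rfl)
    rwa [RAct.ra_one] at this
  have hfar2 : ∀ v ∈ far, ∀ y, ps T v (T.β (FreeGroup.of y)) ∈ U' := by
    intro v hv
    rw [hfardef] at hv
    exact hF2' v (fun p hp => hv p (Or.inr (Or.inr hp)))
  have hfar3 : ∀ v ∈ far, ∀ xy : T.PN.X × T.PQ.X,
        Gen U' (ES T ε U') (ps T v (T.β (FreeGroup.of xy.2)))
          (ev T.P ε (ps T v (T.β (FreeGroup.of xy.2))) (T.α (nc xy)))
          (ps T (ps T v (T.β (FreeGroup.of xy.2))) (T.α (nc xy))) := by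
    intro v hv xy
    rw [hfardef] at hv
    exact (hF2 v (fun p hp => hv p (Or.inr (Or.inl hp))) xy).2.2
  -- base vertices with a horizontal edge touching the bad set
  let A1 : Set (RC (S.map f)) := A0 U' ∪
    ⋃ y : T.PQ.X, (fun b => ra b (T.PQ.gen y)⁻¹) '' A0 U'
  have hA1 : A1.Finite := hA0.union (Set.finite_iUnion fun y => hA0.image _)
  have hrep : ∀ b : RC (S.map f), ∃ a : G, prj f S (RC.mk S a) = b := by
    intro b
    obtain ⟨v, hv⟩ := prj_surj f S T.surj b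
    obtain ⟨a, rfl⟩ := v.exists_rep
    exact ⟨a, hv⟩
  choose a ha using hrep
  have hcomp : ∀ b : RC (S.map f), ∃ R : Set (RC (stb f S (a b))),
      R.Finite ∧ R ⊆ (orb f S (a b) ⁻¹' farᶜ)ᶜ ∧ ∀ Q : RC (stb f S (a b)) → Prop,
      (∀ w ∈ R, Q w) → (∀ v x, v ∉ orb f S (a b) ⁻¹' farᶜ →
        ra v (T.PN.gen x) ∉ orb f S (a b) ⁻¹' farᶜ → (Q v ↔ Q (ra v (T.PN.gen x)))) →
      ∀ v, v ∉ orb f S (a b) ⁻¹' farᶜ → Q v := by
    intro b
    refine comp_fin T.PN (RC.mk _ 1) ?_ _ (hfar.preimage (orb_inj f S (a b)).injOn)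
    intro v
    obtain ⟨n, rfl⟩ := v.exists_rep
    exact ⟨n⁻¹, by rw [RC.ra_mk, mul_inv_cancel]⟩
  choose R hR hRsub hRind using hcomp
  let R2 : Set (RC S) := (⋃ b ∈ A1, orb f S (a b) '' R b) ∪ farᶜ
  have hR2 : R2.Finite := (hA1.biUnion fun b _ => (hR b).image _).union hfar
  let Z2 : Set (RC S × Γ × RC S) := (fun z : RC S × T.PQ.X =>
    (z.1, ev T.P ε z.1 (T.β (FreeGroup.of z.2)), ps T z.1 (T.β (FreeGroup.of z.2)))) ''
      (R2 ×ˢ Set.univ)
  have hZ2 : Z2.Finite := (hR2.prod Set.finite_univ).image _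
  let E2 : RC S → Γ → RC S → Prop := fun u g w => ES T ε U' u g w ∨ (u, g, w) ∈ Z2
  have hES2 : ∀ u g w, Gen U' (ES T ε U') u g w → Gen U' E2 u g w := fun u g w h =>
    Gen.le (gpd_gen U' E2) (le_refl _) (fun u g w hu hw h => .of hu hw (Or.inl h)) h
  have hFG2 : FGs U' (Gen U' E2) := by
    refine fgs_add (gpd_gen U' (ES T ε U')) hFG (le_refl _) ?_ hES2 Z2 hZ2 ?_
    · rw [Set.sdiff_self]; exact Set.finite_empty
    · rintro u g w hu hw (h | h)
      · exact Or.inr (.of hu hw h)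
      · exact Or.inl h
  -- horizontal edges
  have hH : ∀ (v : RC S) (y : T.PQ.X), v ∈ U' → ps T v (T.β (FreeGroup.of y)) ∈ U' →
      Gen U' E2 v (ev T.P ε v (T.β (FreeGroup.of y))) (ps T v (T.β (FreeGroup.of y))) := by
    intro v y hv hv'
    by_cases h : prj f S v ∉ A0 U' ∧ prj f S (ps T v (T.β (FreeGroup.of y))) ∉ A0 U'
    · exact .of hv hv' (Or.inl (Or.inr ⟨y, h.1, h.2, rfl, rfl⟩))
    · have hb : prj f S v ∈ A1 := by
        by_cases h1 : prj f S v ∈ A0 U'
        · exact Or.inl h1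
        · have h2 : prj f S (ps T v (T.β (FreeGroup.of y))) ∈ A0 U' := by
            by_contra h2
            exact h ⟨h1, h2⟩
          right
          rw [Set.mem_iUnion]
          refine ⟨y, _, h2, ?_⟩
          show ra (prj f S (ps T v (T.β (FreeGroup.of y)))) (T.PQ.gen y)⁻¹ = prj f S v
          rw [prj_beta]
          show ra (ra (prj f S v) (FreeGroup.lift T.PQ.gen (FreeGroup.of y))) (T.PQ.gen y)⁻¹ = _
          rw [FreeGroup.lift_apply_of, ra_inv_cancel]
      obtain ⟨b, hbdef⟩ : ∃ b, b = prj f S v := ⟨_, rfl⟩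
      rw [← hbdef] at hb
      obtain ⟨m, rfl⟩ := orb_surj f S (a := a b) (v := v) (by rw [ha, hbdef])
      by_cases hvf : orb f S (a b) m ∈ far
      · have hm : m ∉ orb f S (a b) ⁻¹' farᶜ := fun h' => h' hvf
        refine hRind b (fun m => Gen U' E2 (orb f S (a b) m)
          (ev T.P ε (orb f S (a b) m) (T.β (FreeGroup.of y)))
          (ps T (orb f S (a b) m) (T.β (FreeGroup.of y)))) ?_ ?_ m hm
        · intro w hw
          have hwf : orb f S (a b) w ∈ far := by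
            by_contra hcon
            exact hRsub b hw hcon
          refine .of (hfar1 _ hwf) (hfar2 _ hwf y) (Or.inr ⟨(orb f S (a b) w, y), ⟨?_, trivial⟩, rfl⟩)
          left
          rw [Set.mem_iUnion₂]
          exact ⟨b, hb, w, hw, rfl⟩
        · intro k x hk hk'
          have hkf : orb f S (a b) k ∈ far := by
            by_contra hcon
            exact hk hcon
          have hkf' : orb f S (a b) (ra k (T.PN.gen x)) ∈ far := by
            by_contra hcon
            exact hk' hcon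
          have e : orb f S (a b) (ra k (T.PN.gen x)) =
              ps T (orb f S (a b) k) (T.α (FreeGroup.of x)) := by
            rw [← ps_orb]
            show _ = orb f S (a b) (ra _ (FreeGroup.lift T.PN.gen (FreeGroup.of x)))
            rw [FreeGroup.lift_apply_of]
          have hA : Gen U' E2 (orb f S (a b) k)
              (ev T.P ε (orb f S (a b) k) (T.α (FreeGroup.of x)))
              (ps T (orb f S (a b) k) (T.α (FreeGroup.of x))) := by
            rw [e] at hkf'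
            exact .of (hfar1 _ hkf) (hfar1 _ hkf') (Or.inl (Or.inl ⟨x, rfl, rfl⟩))
          have hB := hES2 _ _ _ (hfar3 _ hkf (x, y))
          have hC := hnc (x, y) _ (hfar1 _ hkf)
          dsimp only at hB hC
          have hC1 := hC.1
          rw [ev_mul, ev_mul] at hC1
          have hC2 : ps T (ps T (orb f S (a b) k) (T.α (FreeGroup.of x))) (T.β (FreeGroup.of y)) =
              ps T (ps T (orb f S (a b) k) (T.β (FreeGroup.of y))) (T.α (nc (x, y))) := by
            rw [← ps_mul, ← ps_mul]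
            show ra _ (T.P.q _) = ra _ (T.P.q _)
            rw [hC.2]
          rw [e]
          constructor
          · intro hq
            have h1 := (hA.inv.mul hq).mul hB
            rw [← hC2] at h1
            have e2 : (ev T.P ε (orb f S (a b) k) (T.α (FreeGroup.of x)))⁻¹ *
                ev T.P ε (orb f S (a b) k) (T.β (FreeGroup.of y)) *
                ev T.P ε (ps T (orb f S (a b) k) (T.β (FreeGroup.of y))) (T.α (nc (x, y))) =
                ev T.P ε (ps T (orb f S (a b) k) (T.α (FreeGroup.of x))) (T.β (FreeGroup.of y)) := by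
              rw [mul_assoc, inv_mul_eq_iff_eq_mul]
              exact hC1.symm
            rw [e2] at h1
            exact h1
          · intro hq
            rw [hC2] at hq
            have h1 := (hA.mul hq).mul hB.inv
            have e2 : ev T.P ε (orb f S (a b) k) (T.α (FreeGroup.of x)) *
                ev T.P ε (ps T (orb f S (a b) k) (T.α (FreeGroup.of x))) (T.β (FreeGroup.of y)) *
                (ev T.P ε (ps T (orb f S (a b) k) (T.β (FreeGroup.of y))) (T.α (nc (x, y))))⁻¹ =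
                ev T.P ε (orb f S (a b) k) (T.β (FreeGroup.of y)) := by
              rw [mul_inv_eq_iff_eq_mul]
              exact hC1
            rw [e2] at h1
            exact h1
      · refine .of hv hv' (Or.inr ⟨(orb f S (a b) m, y), ⟨Or.inr hvf, trivial⟩, rfl⟩)
  -- words in the generators of `G`
  have hg : ∀ c : T.P.X, ∃ yn : FreeGroup T.PQ.X × FreeGroup T.PN.X,
      T.P.q (FreeGroup.of c) = T.P.q (T.β yn.1 * T.α yn.2) := by
    intro c
    obtain ⟨y, hy⟩ := T.PQ.surj (f (T.P.q (FreeGroup.of c)))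
    have hy' : T.PQ.q y = f (T.P.q (FreeGroup.of c)) := hy
    have h1 : (T.P.q (T.β y))⁻¹ * T.P.q (FreeGroup.of c) ∈ f.ker := by
      rw [MonoidHom.mem_ker, map_mul, map_inv, T.hβ, hy', inv_mul_cancel]
    obtain ⟨n, hn⟩ := word_of_mem T h1
    refine ⟨(y, n), ?_⟩
    rw [map_mul, hn, mul_inv_cancel_left]
  choose yn hyn using hg
  have hfin : ∀ c : T.P.X, ∃ F3 : Set G, F3.Finite ∧ ∀ v : RC S,
      (∀ p ∈ F3, ra v p ∈ U') → Gen U' E2 v (ε v c) (ra v (T.P.gen c)) := by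
    intro c
    obtain ⟨F3, hF3, h3⟩ := sup_gen T.P T.β ε (gpd_gen U' E2) (le_refl _) (by
      intro y
      refine ⟨{1, T.P.q (T.β (FreeGroup.of y))}, by simp, fun v hv => ?_⟩
      have h1 := hv 1 (by simp)
      have h2 := hv _ (Set.mem_insert_of_mem _ rfl)
      rw [RAct.ra_one] at h1
      exact hH v y h1 h2) (yn c).1
    obtain ⟨F4, hF4, h4⟩ := alpha_far (ε := ε) (gpd_gen U' E2) hES2 (yn c).2
    obtain ⟨F5, hF5, h5⟩ := sup_eq T.P U ε hε _ _ (hyn c)
    refine ⟨F3 ∪ (((fun p => T.P.q (T.β (yn c).1) * p) '' F4) ∪ F5),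
      hF3.union ((hF4.image _).union hF5), fun v hv => ?_⟩
    have k1 := h3 v (fun p hp => hv p (Or.inl hp))
    have k2 := h4 (ra v (T.P.q (T.β (yn c).1))) (by
      intro p hp
      rw [← RAct.ra_mul]
      exact hv _ (Or.inr (Or.inl ⟨p, hp, rfl⟩)))
    have k3 := h5 v (fun p hp => hUU (hv p (Or.inr (Or.inr hp))))
    have k4 := k1.mul k2
    rw [← ev_mul, ← k3, ← RAct.ra_mul, ← map_mul, ← hyn, ev_of] at k4
    have e : T.P.q (FreeGroup.of c) = T.P.gen c := FreeGroup.lift_apply_of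
    rw [e] at k4
    exact k4
  obtain ⟨F3, hF3, h3⟩ := fam hfin
  refine fgs_add (gpd_gen U' E2) hFG2 hUU (hU'.subset (fun v hv => hv.2)) ?_
    ((fun z : RC S × T.P.X => (z.1, ε z.1 z.2, ra z.1 (T.P.gen z.2))) ''
      ((farS F3 U')ᶜ ×ˢ Set.univ)) (((farS_fin hF3 hU').prod Set.finite_univ).image _) ?_
  · intro u g w h
    refine Gen.le (gpd_gen U (edg T.P ε)) hUU ?_ h
    rintro u g w hu hw ((⟨x, rfl, rfl⟩ | ⟨y, _, _, rfl, rfl⟩) | ⟨⟨v, y⟩, _, h2⟩)
    · exact hαe u hu x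
    · exact hβe u hu y
    · obtain ⟨rfl, h3⟩ := Prod.mk.inj h2
      obtain ⟨rfl, rfl⟩ := Prod.mk.inj h3
      exact hβe v hu y
  · rintro u g w hu hw ⟨c, rfl, rfl⟩
    by_cases hf : u ∈ farS F3 U'
    · exact Or.inr (h3 u hf c)
    · exact Or.inl ⟨(u, c), ⟨hf, trivial⟩, rfl⟩

end core4

end Pool.Agent.R645.TM
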