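import Mathlib

/-! Combinatorial 2-complexes, edge paths, homotopy, fundamental groups. -/

set_option autoImplicit false

namespace Pool.Agent.R645.TM

universe u

/-- A combinatorial 2-complex: vertices `V`, edges `E` (each with a source and a target) and
2-cells `F`, the 2-cell `f` being attached along the edge path `bd f`.  The signed edge
`(e, true)` is `e` traversed from `src e` to `tgt e`, and `(e, false)` is `e` traversed from
`tgt e` to `src e`. -/
structure Cx where
  V : Type u
  E : Type u
  F : Type u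
  src : E → V
  tgt : E → V
  bd : F → List (E × Bool)

namespace Cx

variable (K : Cx.{u})

/-- the initial vertex of a signed edge -/
def s (z : K.E × Bool) : K.V := if z.2 then K.src z.1 else K.tgt z.1

/-- the final vertex of a signed edge -/
def t (z : K.E × Bool) : K.V := if z.2 then K.tgt z.1 else K.src z.1

/-- `K.IsPath U u l v`: the list `l` of signed edges is an edge path from `u` to `v` all of whose
vertices lie in `U`, that is an edge path of the full subcomplex of `K` on the vertex set `U`. -/
def IsPath (U : Set K.V) : K.V → List (K.E × Bool) → K.V → Prop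
  | u, [], v => u ∈ U ∧ u = v
  | u, z :: l, v => u ∈ U ∧ K.s z = u ∧ IsPath U (K.t z) l v

/-- Elementary homotopies: deleting a backtracking `e e⁻¹`, deleting the boundary path of a
2-cell. -/
inductive Move : List (K.E × Bool) → List (K.E × Bool) → Prop
  | back (a b : List (K.E × Bool)) (z : K.E × Bool) :
      Move (a ++ z :: (z.1, !z.2) :: b) (a ++ b)
  | face (a b : List (K.E × Bool)) (f : K.F) : Move (a ++ K.bd f ++ b) (a ++ b)

/-- Homotopy (relative to the endpoints) of edge paths from `u` to `v` in the full subcomplex of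
`K` on `U`: the equivalence relation generated by the elementary homotopies between edge paths of
this subcomplex. -/
inductive Htp (U : Set K.V) (u v : K.V) : List (K.E × Bool) → List (K.E × Bool) → Prop
  | refl {l} : K.IsPath U u l v → Htp U u v l l
  | symm {l l'} : Htp U u v l l' → Htp U u v l' l
  | trans {l l' l''} : Htp U u v l l' → Htp U u v l' l'' → Htp U u v l l''
  | move {l l'} : K.IsPath U u l v → K.IsPath U u l' v → K.Move l l' → Htp U u v l l'

variable {K} {U : Set K.V}

theorem nil_path {v : K.V} (h : v ∈ U) : K.IsPath U v [] v := ⟨h, rfl⟩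

theorem IsPath.left {u v : K.V} {l : List (K.E × Bool)} (h : K.IsPath U u l v) : u ∈ U := by
  cases l with
  | nil => exact h.1
  | cons z l => exact h.1

theorem IsPath.right {u v : K.V} {l : List (K.E × Bool)} (h : K.IsPath U u l v) : v ∈ U := by
  induction l generalizing u with
  | nil => rw [← h.2]; exact h.1
  | cons z l ih => exact ih h.2.2

theorem IsPath.append {u v w : K.V} {l l' : List (K.E × Bool)} (h : K.IsPath U u l v)
    (h' : K.IsPath U v l' w) : K.IsPath U u (l ++ l') w := by
  induction l generalizing u with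
  | nil => rw [List.nil_append, h.2]; exact h'
  | cons z l ih => exact ⟨h.1, h.2.1, ih h.2.2⟩

theorem IsPath.split {u w : K.V} {l l' : List (K.E × Bool)} (h : K.IsPath U u (l ++ l') w) :
    ∃ v, K.IsPath U u l v ∧ K.IsPath U v l' w := by
  induction l generalizing u with
  | nil => exact ⟨u, ⟨h.left, rfl⟩, h⟩
  | cons z l ih =>
    obtain ⟨v, h1, h2⟩ := ih h.2.2
    exact ⟨v, ⟨h.1, h.2.1, h1⟩, h2⟩

theorem IsPath.end_unique {u v v' : K.V} {l : List (K.E × Bool)} (h : K.IsPath U u l v)
    (h' : K.IsPath U u l v') : v = v' := by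
  induction l generalizing u with
  | nil => rw [← h.2, h'.2]
  | cons z l ih => exact ih h.2.2 h'.2.2

theorem IsPath.start_unique {u u' v : K.V} {l : List (K.E × Bool)} (h : K.IsPath U u l v)
    (h' : K.IsPath U u' l v) : u = u' := by
  cases l with
  | nil => rw [h.2, h'.2]
  | cons z l => rw [← h.2.1, h'.2.1]

@[simp] theorem s_inv (z : K.E × Bool) : K.s (z.1, !z.2) = K.t z := by
  unfold s t; cases z.2 <;> simp

@[simp] theorem t_inv (z : K.E × Bool) : K.t (z.1, !z.2) = K.s z := by
  unfold s t; cases z.2 <;> simp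

theorem IsPath.single {z : K.E × Bool} (h1 : K.s z ∈ U) (h2 : K.t z ∈ U) :
    K.IsPath U (K.s z) [z] (K.t z) := ⟨h1, rfl, h2, rfl⟩

/-- the reversed path -/
abbrev rv (l : List (K.E × Bool)) : List (K.E × Bool) := FreeGroup.invRev l

theorem rv_cons (z : K.E × Bool) (l : List (K.E × Bool)) : rv (z :: l) = rv l ++ [(z.1, !z.2)] := by
  simp [rv, FreeGroup.invRev]

theorem IsPath.rev {u v : K.V} {l : List (K.E × Bool)} (h : K.IsPath U u l v) :
    K.IsPath U v (rv l) u := by
  induction l generalizing u with
  | nil => exact ⟨h.2 ▸ h.1, h.2.symm⟩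
  | cons z l ih =>
    rw [rv_cons]
    refine (ih h.2.2).append ?_
    refine ⟨h.2.2.left, s_inv z, ?_⟩
    rw [t_inv, h.2.1]
    exact ⟨h.1, rfl⟩

theorem Htp.paths {u v : K.V} {l l' : List (K.E × Bool)} (h : K.Htp U u v l l') :
    K.IsPath U u l v ∧ K.IsPath U u l' v := by
  induction h with
  | refl h => exact ⟨h, h⟩
  | symm _ ih => exact ⟨ih.2, ih.1⟩
  | trans _ _ ih1 ih2 => exact ⟨ih1.1, ih2.2⟩
  | move h h' _ => exact ⟨h, h'⟩

theorem Move.append_left {l l' : List (K.E × Bool)} (h : K.Move l l') (a : List (K.E × Bool)) :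
    K.Move (a ++ l) (a ++ l') := by
  cases h with
  | back c d z =>
    have := Move.back (K := K) (a ++ c) d z
    simpa [List.append_assoc] using this
  | face c d f =>
    have := Move.face (K := K) (a ++ c) d f
    simpa [List.append_assoc] using this

theorem Move.append_right {l l' : List (K.E × Bool)} (h : K.Move l l') (a : List (K.E × Bool)) :
    K.Move (l ++ a) (l' ++ a) := by
  cases h with
  | back c d z =>
    have := Move.back (K := K) c (d ++ a) z
    simpa [List.append_assoc] using this
  | face c d f =>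
    have := Move.face (K := K) c (d ++ a) f
    simpa [List.append_assoc] using this

theorem Htp.append_left {u v w : K.V} {l l' : List (K.E × Bool)} (h : K.Htp U u v l l')
    {a : List (K.E × Bool)} (ha : K.IsPath U w a u) : K.Htp U w v (a ++ l) (a ++ l') := by
  induction h with
  | refl h => exact .refl (ha.append h)
  | symm _ ih => exact ih.symm
  | trans _ _ ih1 ih2 => exact ih1.trans ih2
  | move h h' hm => exact .move (ha.append h) (ha.append h') (hm.append_left a)

theorem Htp.append_right {u v w : K.V} {l l' : List (K.E × Bool)} (h : K.Htp U u v l l')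
    {a : List (K.E × Bool)} (ha : K.IsPath U v a w) : K.Htp U u w (l ++ a) (l' ++ a) := by
  induction h with
  | refl h => exact .refl (h.append ha)
  | symm _ ih => exact ih.symm
  | trans _ _ ih1 ih2 => exact ih1.trans ih2
  | move h h' hm => exact .move (h.append ha) (h'.append ha) (hm.append_right a)

theorem Htp.append {u v w : K.V} {l l' m m' : List (K.E × Bool)} (h : K.Htp U u v l l')
    (h' : K.Htp U v w m m') : K.Htp U u w (l ++ m) (l' ++ m') :=
  (h.append_right h'.paths.1).trans (h'.append_left h.paths.2)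

theorem Htp.mul_rev {u v : K.V} {l : List (K.E × Bool)} (h : K.IsPath U u l v) :
    K.Htp U u u (l ++ rv l) [] := by
  induction l generalizing u with
  | nil => exact .refl ⟨h.left, rfl⟩
  | cons z l ih =>
    have h1 := ih h.2.2
    have h2 : K.IsPath U u [z] (K.t z) := ⟨h.1, h.2.1, h.2.2.left, rfl⟩
    have h3 := h1.append_left h2
    have h4 : K.IsPath U (K.t z) [(z.1, !z.2)] u := by
      refine ⟨h.2.2.left, s_inv z, ?_⟩
      rw [t_inv, h.2.1]
      exact ⟨h.1, rfl⟩
    have h5 := h3.append_right h4
    rw [rv_cons]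
    have e : z :: l ++ (rv l ++ [(z.1, !z.2)]) = [z] ++ (l ++ rv l) ++ [(z.1, !z.2)] := by simp
    rw [e]
    refine h5.trans ?_
    refine .move h5.paths.2 ⟨h.left, rfl⟩ ?_
    exact Move.back [] [] z

theorem rv_rv (l : List (K.E × Bool)) : rv (rv l) = l := FreeGroup.invRev_invRev

theorem Htp.rev_mul {u v : K.V} {l : List (K.E × Bool)} (h : K.IsPath U u l v) :
    K.Htp U v v (rv l ++ l) [] := by
  have := Htp.mul_rev h.rev
  rwa [rv_rv] at this

theorem Htp.rev {u v : K.V} {l l' : List (K.E × Bool)} (h : K.Htp U u v l l') :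
    K.Htp U v u (rv l) (rv l') := by
  have hl := h.paths.1
  have hl' := h.paths.2
  -- rv l ~ rv l ++ l' ++ rv l' ~ rv l ++ l ++ rv l' ~ rv l'
  have h1 : K.Htp U v u (rv l ++ (l' ++ rv l')) (rv l) := by
    have := (Htp.mul_rev hl').append_left hl.rev
    rwa [List.append_nil] at this
  have h2 : K.Htp U v u (rv l ++ l ++ rv l') (rv l') := by
    have := (Htp.rev_mul hl).append_right hl'.rev
    rwa [List.nil_append] at this
  have h3 : K.Htp U v u (rv l ++ (l' ++ rv l')) (rv l ++ l ++ rv l') := by
    have := (h.symm.append_right hl'.rev).append_left hl.rev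
    rwa [← List.append_assoc (rv l) l (rv l')] at this
  exact h1.symm.trans (h3.trans h2)

variable (K)

/-- The type of closed edge paths at `v` in the full subcomplex on `U`. -/
abbrev Loop (U : Set K.V) (v : K.V) : Type u := {l : List (K.E × Bool) // K.IsPath U v l v}

/-- Homotopy of closed edge paths at `v`. -/
instance loopSetoid (U : Set K.V) (v : U) : Setoid (K.Loop U v) where
  r l l' := K.Htp U v v l.1 l'.1
  iseqv := ⟨fun l => .refl l.2, fun h => h.symm, fun h h' => h.trans h'⟩

/-- The fundamental group at `v` of the full subcomplex of `K` on the vertex set `U`: the group of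
homotopy classes of closed edge paths at `v` in this subcomplex. -/
def Pi1 (U : Set K.V) (v : U) : Type u := Quotient (K.loopSetoid U v)

variable {K}

/-- the class of a closed path -/
def Pi1.mk {v : U} (l : K.Loop U v) : K.Pi1 U v := Quotient.mk _ l

/-- the product is given by concatenation -/
instance Pi1.instMul (v : U) : Mul (K.Pi1 U v) :=
  ⟨Quotient.map₂ (fun l l' => ⟨l.1 ++ l'.1, l.2.append l'.2⟩) (fun _ _ h _ _ h' => h.append h')⟩

/-- the identity is the class of the constant path -/
instance Pi1.instOne (v : U) : One (K.Pi1 U v) := ⟨Quotient.mk _ ⟨[], nil_path v.2⟩⟩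

/-- the inverse is given by the reversed path -/
instance Pi1.instInv (v : U) : Inv (K.Pi1 U v) :=
  ⟨Quotient.map (fun l => ⟨rv l.1, l.2.rev⟩) (fun _ _ h => h.rev)⟩

theorem Pi1.assoc' {v : U} (x y z : K.Pi1 U v) : x * y * z = x * (y * z) := by
  obtain ⟨a⟩ := x
  obtain ⟨b⟩ := y
  obtain ⟨c⟩ := z
  apply Quotient.sound
  show K.Htp U v v (a.1 ++ b.1 ++ c.1) (a.1 ++ (b.1 ++ c.1))
  rw [List.append_assoc]
  exact .refl (a.2.append (b.2.append c.2))

theorem Pi1.one_mul' {v : U} (x : K.Pi1 U v) : 1 * x = x := by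
  obtain ⟨a⟩ := x
  exact Quotient.sound (.refl a.2)

theorem Pi1.inv_mul' {v : U} (x : K.Pi1 U v) : x⁻¹ * x = 1 := by
  obtain ⟨a⟩ := x
  exact Quotient.sound (Htp.rev_mul a.2)

instance Pi1.instGroup (v : U) : Group (K.Pi1 U v) :=
  Group.ofLeftAxioms Pi1.assoc' Pi1.one_mul' Pi1.inv_mul'

theorem Pi1.mk_mul {v : U} (l l' : K.Loop U v) :
    Pi1.mk l * Pi1.mk l' = Pi1.mk ⟨l.1 ++ l'.1, l.2.append l'.2⟩ := rfl

theorem Pi1.mk_inv {v : U} (l : K.Loop U v) : (Pi1.mk l)⁻¹ = Pi1.mk ⟨rv l.1, l.2.rev⟩ := rfl

theorem Pi1.one_def {v : U} : (1 : K.Pi1 U v) = Pi1.mk ⟨[], nil_path v.2⟩ := rfl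

theorem Pi1.mk_eq {v : U} {l l' : K.Loop U v} : Pi1.mk l = Pi1.mk l' ↔ K.Htp U v v l.1 l'.1 :=
  Quotient.eq

theorem Pi1.exists_rep {v : U} (g : K.Pi1 U v) : ∃ l, g = Pi1.mk l := by
  obtain ⟨l⟩ := g
  exact ⟨l, rfl⟩

end Cx

end Pool.Agent.R645.TM
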