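import Pool.Agent.R645.TM.Dir2

/-! The groupoid form of tameness implies tameness. -/

set_option autoImplicit false

namespace Pool.Agent.R645.TM

universe u v w

open Cx

theorem cls_three {K : Cx.{u}} (U : Set K.V) (z z' : K.E × Bool) (e : K.E) :
    cls U [z, z', (e, false)] = cls U [z] * cls U [z'] * (cls U [(e, true)])⁻¹ := by
  rw [← cls_false, ← cls_append, ← cls_append]
  rfl

section dir1

variable {G : Type u} [Group G] (P : Pres G) {V : Type u} [RAct G V]
variable {C : Set (Cell (cov P V))}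

/-- half edges in the group of the complement -/
def et (C : Set (Cell (cov P V))) (z : V × P.X) (b : Bool) : (Sd (cov P V)).Gam Cᶜ :=
  cls (K := Sd (cov P V)) Cᶜ [(SdE.half z b, true)]

/-- sides -/
def sg (C : Set (Cell (cov P V))) (z : V × P.ι) (j : Fin (walk P z.1 (P.rel z.2)).length) :
    (Sd (cov P V)).Gam Cᶜ :=
  cls (K := Sd (cov P V)) Cᶜ [(SdE.side z j, true)]

/-- corners -/
def kp (C : Set (Cell (cov P V))) (z : V × P.ι) (j : Fin (walk P z.1 (P.rel z.2)).length) :
    (Sd (cov P V)).Gam Cᶜ :=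
  cls (K := Sd (cov P V)) Cᶜ [(SdE.corner z j, true)]

/-- the cocycle of the complement of `C` -/
def epC (C : Set (Cell (cov P V))) (v : V) (x : P.X) : (Sd (cov P V)).Gam Cᶜ :=
  (et P C (v, x) false)⁻¹ * et P C (v, x) true

/-- the vertices outside `C` -/
def UC (C : Set (Cell (cov P V))) : Set V := {v | Cell.v (K := cov P V) v ∉ C}

theorem UC_fin (hC : IsFinSub (cov P V) C) : (UC P C)ᶜ.Finite := by
  have h : (UC P C)ᶜ = (Cell.v (K := cov P V)) ⁻¹' C := by
    ext v
    simp [UC]
  rw [h]
  apply hC.fin.preimage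
  intro a _ b _ hab
  exact Cell.v.inj hab

theorem e_notMem (hC : IsFinSub (cov P V) C) {z : V × P.X}
    (h : z.1 ∈ UC P C ∨ ra z.1 (P.gen z.2) ∈ UC P C) : Cell.e (K := cov P V) z ∉ C := by
  intro h'
  obtain ⟨h1, h2⟩ := hC.edge z h'
  rcases h with h | h
  · exact h h1
  · exact h h2

/-- vertices of the `j`-th edge of a boundary path -/
theorem get_ends (v : V) (i : P.ι) (j : Fin (walk P v (P.rel i)).length) :
    ((cov P V).s ((walk P v (P.rel i)).get j) = ra v (P.q (FreeGroup.mk ((P.rel i).take j.1)))) ∧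
    ((cov P V).t ((walk P v (P.rel i)).get j) =
      ra v (P.q (FreeGroup.mk ((P.rel i).take (j.1 + 1))))) := by
  have hlen : (walk P v (P.rel i)).length = (P.rel i).length := length_walk P v _
  have hj : j.1 < (P.rel i).length := hlen ▸ j.2
  rw [get_walk P v i j hj, ra_take_succ P v (P.rel i) j.1 hj, s_se, t_se]
  exact ⟨rfl, rfl⟩

theorem mem_iff_ends (W : Set V) (z : (V × P.X) × Bool) :
    ((cov P V).s z ∈ W ∧ (cov P V).t z ∈ W) ↔ (z.1.1 ∈ W ∧ ra z.1.1 (P.gen z.1.2) ∈ W) := by
  obtain ⟨z, b⟩ := z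
  cases b with
  | true => exact Iff.rfl
  | false => exact And.comm

theorem f_notMem (hC : IsFinSub (cov P V) C) {v : V} {i : P.ι} {k : ℕ} (hk : k ≤ (P.rel i).length)
    (h : ra v (P.q (FreeGroup.mk ((P.rel i).take k))) ∈ UC P C) :
    Cell.f (K := cov P V) (v, i) ∉ C := by
  intro h'
  have hlen : (walk P v (P.rel i)).length = (P.rel i).length := length_walk P v _
  have hpos : 0 < (P.rel i).length := List.length_pos_of_ne_nil (P.rel_ne i)
  -- find an edge with this corner
  obtain ⟨j, hj⟩ : ∃ j : Fin (walk P v (P.rel i)).length,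
      (cov P V).s ((walk P v (P.rel i)).get j) = ra v (P.q (FreeGroup.mk ((P.rel i).take k))) ∨
      (cov P V).t ((walk P v (P.rel i)).get j) = ra v (P.q (FreeGroup.mk ((P.rel i).take k))) := by
    by_cases hk' : k < (P.rel i).length
    · exact ⟨⟨k, by rw [hlen]; exact hk'⟩, Or.inl (get_ends P v i _).1⟩
    · have e : k = ((P.rel i).length - 1) + 1 := by omega
      refine ⟨⟨(P.rel i).length - 1, by rw [hlen]; omega⟩, Or.inr ?_⟩
      rw [(get_ends P v i _).2]
      dsimp only
      rw [← e]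
  have h1 := hC.face (v, i) h' ((walk P v (P.rel i)).get j) (List.get_mem _ _)
  apply e_notMem P hC (z := ((walk P v (P.rel i)).get j).1) ?_ h1
  have hm : (cov P V).s ((walk P v (P.rel i)).get j) ∈ UC P C ∨
      (cov P V).t ((walk P v (P.rel i)).get j) ∈ UC P C := by
    rcases hj with hj | hj
    · left; rw [hj]; exact h
    · right; rw [hj]; exact h
  generalize (walk P v (P.rel i)).get j = z at hm
  obtain ⟨z, b⟩ := z
  cases b with
  | true => exact hm
  | false => exact hm.symm

/-- the triangle relations -/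
theorem tri (hC : IsFinSub (cov P V) C) {v : V} {i : P.ι} (j : Fin (walk P v (P.rel i)).length)
    (hs : (cov P V).s ((walk P v (P.rel i)).get j) ∈ UC P C)
    (ht : (cov P V).t ((walk P v (P.rel i)).get j) ∈ UC P C) (b : Bool) :
    sg P C (v, i) j * et P C ((walk P v (P.rel i)).get j).1
      (if b then ((walk P v (P.rel i)).get j).2 else !((walk P v (P.rel i)).get j).2) =
    kp P C (v, i) (if b then nxt j else j) := by
  have hlen : (walk P v (P.rel i)).length = (P.rel i).length := length_walk P v _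
  have hj : j.1 < (P.rel i).length := hlen ▸ j.2
  have hf : Cell.f (K := cov P V) (v, i) ∈ Cᶜ := by
    apply f_notMem P hC hj.le
    rw [← (get_ends P v i j).1]
    exact hs
  have he : Cell.e (K := cov P V) ((walk P v (P.rel i)).get j).1 ∈ Cᶜ := by
    apply e_notMem P hC
    left
    exact ((mem_iff_ends P (UC P C) _).1 ⟨hs, ht⟩).1
  -- the end of the half edge
  have hend : (if (if b then ((walk P v (P.rel i)).get j).2 else !((walk P v (P.rel i)).get j).2)
      then (cov P V).tgt ((walk P v (P.rel i)).get j).1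
      else (cov P V).src ((walk P v (P.rel i)).get j).1) =
      (if b then (cov P V).t ((walk P v (P.rel i)).get j)
        else (cov P V).s ((walk P v (P.rel i)).get j)) := by
    generalize (walk P v (P.rel i)).get j = z
    obtain ⟨z, c⟩ := z
    cases b <;> cases c <;> rfl
  have hcor : (cov P V).s ((walk P v (P.rel i)).get (if b then nxt j else j)) =
      (if b then (cov P V).t ((walk P v (P.rel i)).get j)
        else (cov P V).s ((walk P v (P.rel i)).get j)) := by
    cases b with
    | false => rfl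
    | true =>
      show (cov P V).s ((walk P v (P.rel i)).get (nxt j)) = (cov P V).t ((walk P v (P.rel i)).get j)
      rw [(get_ends P v i (nxt j)).1, (get_ends P v i j).2]
      obtain ⟨j, hj'⟩ := j
      show ra v (P.q (FreeGroup.mk ((P.rel i).take ((j + 1) % (walk P v (P.rel i)).length)))) =
        ra v (P.q (FreeGroup.mk ((P.rel i).take (j + 1))))
      rw [hlen] at hj' ⊢
      by_cases h : j + 1 < (P.rel i).length
      · rw [Nat.mod_eq_of_lt h]
      · have e : j + 1 = (P.rel i).length := by omega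
        rw [e, Nat.mod_self, List.take_zero, List.take_length, ra_nil, q_rel, RAct.ra_one]
  have hv : Cell.v (K := cov P V) (if b then (cov P V).t ((walk P v (P.rel i)).get j)
        else (cov P V).s ((walk P v (P.rel i)).get j)) ∈ Cᶜ := by
    cases b with
    | true => exact ht
    | false => exact hs
  have hpath : (Sd (cov P V)).IsPath Cᶜ (Cell.f (v, i)) ((Sd (cov P V)).bd ⟨(v, i), j, b⟩)
      (Cell.f (v, i)) := by
    refine ⟨hf, rfl, he, rfl, ?_, ?_, hf, rfl⟩
    · show Cell.v (if (if b then ((walk P v (P.rel i)).get j).2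
        else !((walk P v (P.rel i)).get j).2)
        then (cov P V).tgt ((walk P v (P.rel i)).get j).1
        else (cov P V).src ((walk P v (P.rel i)).get j).1) ∈ Cᶜ
      rw [hend]
      exact hv
    · show Cell.v ((cov P V).s ((walk P v (P.rel i)).get (if b then nxt j else j))) =
        Cell.v (if (if b then ((walk P v (P.rel i)).get j).2
        else !((walk P v (P.rel i)).get j).2)
        then (cov P V).tgt ((walk P v (P.rel i)).get j).1
        else (cov P V).src ((walk P v (P.rel i)).get j).1)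
      rw [hend, hcor]
  have h1 : cls (K := Sd (cov P V)) Cᶜ ((Sd (cov P V)).bd ⟨(v, i), j, b⟩) = 1 :=
    PresentedGroup.one_of_mem ⟨_, _, hpath, rfl⟩
  have e1 : (Sd (cov P V)).bd ⟨(v, i), j, b⟩ =
      (SdE.side (v, i) j, true) :: (SdE.half ((walk P v (P.rel i)).get j).1
        (if b then ((walk P v (P.rel i)).get j).2 else !((walk P v (P.rel i)).get j).2), true) ::
        [(SdE.corner (v, i) (if b then nxt j else j), false)] := rfl
  rw [e1, cls_three, mul_inv_eq_one] at h1
  exact h1

/-- the position of the first corner -/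
def fin0 (v : V) (i : P.ι) : Fin (walk P v (P.rel i)).length :=
  ⟨0, by rw [length_walk]; exact List.length_pos_of_ne_nil (P.rel_ne i)⟩

/-- the values of the cocycle along a boundary path -/
theorem ev_epC (hC : IsFinSub (cov P V) C) {v : V} {i : P.ι} (hU : InU P (UC P C) v (P.rel i))
    (k : ℕ) (hk : k ≤ (P.rel i).length) :
    ev P (epC P C) v (FreeGroup.mk ((P.rel i).take k)) = (kp P C (v, i) (fin0 P v i))⁻¹ *
      kp P C (v, i) ⟨k % (walk P v (P.rel i)).length, Nat.mod_lt _ (fin0 P v i).2⟩ := by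
  have hlen : (walk P v (P.rel i)).length = (P.rel i).length := length_walk P v _
  induction k with
  | zero =>
    rw [List.take_zero, ev_nil]
    have e : (⟨0 % (walk P v (P.rel i)).length, Nat.mod_lt _ (fin0 P v i).2⟩ :
      Fin (walk P v (P.rel i)).length) = fin0 P v i := Fin.ext (Nat.zero_mod _)
    rw [e, inv_mul_cancel]
  | succ k ih =>
    have hk' : k < (P.rel i).length := hk
    have hk'' : k < (walk P v (P.rel i)).length := by rw [hlen]; exact hk'
    have e0 : (⟨k % (walk P v (P.rel i)).length, Nat.mod_lt _ (fin0 P v i).2⟩ :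
      Fin (walk P v (P.rel i)).length) = ⟨k, hk''⟩ := Fin.ext (Nat.mod_eq_of_lt hk'')
    have e1 : (⟨(k + 1) % (walk P v (P.rel i)).length, Nat.mod_lt _ (fin0 P v i).2⟩ :
      Fin (walk P v (P.rel i)).length) = nxt ⟨k, hk''⟩ := rfl
    rw [ev_take_succ P _ v (P.rel i) k hk', ih hk'.le, e0, e1, mul_assoc]
    congr 1
    obtain ⟨g1, g2⟩ := get_ends P v i ⟨k, hk''⟩
    have hs : (cov P V).s ((walk P v (P.rel i)).get ⟨k, hk''⟩) ∈ UC P C := by
      rw [g1]; exact hU k hk'.le
    have ht : (cov P V).t ((walk P v (P.rel i)).get ⟨k, hk''⟩) ∈ UC P C := by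
      rw [g2]; exact hU (k + 1) hk
    have t1 := tri P hC ⟨k, hk''⟩ hs ht false
    have t2 := tri P hC ⟨k, hk''⟩ hs ht true
    simp only [Bool.false_eq_true, if_false, if_true] at t1 t2
    rw [← t1, ← t2, get_walk P v i ⟨k, hk''⟩ hk']
    dsimp only
    generalize ra v (P.q (FreeGroup.mk ((P.rel i).take k))) = vj
    generalize (P.rel i)[k] = zj
    obtain ⟨x, c⟩ := zj
    cases c with
    | true =>
      show _ * et P C (vj, x) false * ((et P C (vj, x) false)⁻¹ * et P C (vj, x) true) =
        _ * et P C (vj, x) true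
      group
    | false =>
      show _ * et P C (ra vj (P.gen x)⁻¹, x) true * ((et P C (ra vj (P.gen x)⁻¹, x) false)⁻¹ *
        et P C (ra vj (P.gen x)⁻¹, x) true)⁻¹ = _ * et P C (ra vj (P.gen x)⁻¹, x) false
      group

theorem isCoc_epC (hC : IsFinSub (cov P V) C) : IsCoc P (UC P C) (epC P C) := by
  intro v i hU
  have h := ev_epC P hC hU (P.rel i).length le_rfl
  rw [List.take_length] at h
  rw [h]
  have hlen : (walk P v (P.rel i)).length = (P.rel i).length := length_walk P v _
  have e : (⟨(P.rel i).length % (walk P v (P.rel i)).length, Nat.mod_lt _ (fin0 P v i).2⟩ :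
      Fin (walk P v (P.rel i)).length) = fin0 P v i := Fin.ext (by
    show (P.rel i).length % (walk P v (P.rel i)).length = 0
    rw [hlen, Nat.mod_self])
  rw [e, inv_mul_cancel]

/-- the cells all of whose vertices are outside `C` -/
def good (C : Set (Cell (cov P V))) : Cell (cov P V) → Prop
  | .v p => p ∈ UC P C
  | .e z => z.1 ∈ UC P C ∧ ra z.1 (P.gen z.2) ∈ UC P C
  | .f z => InU P (UC P C) z.1 (P.rel z.2)

theorem good_bv {c : Cell (cov P V)} (h : good P C c) : bv P c ∈ UC P C := by
  cases c with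
  | v p => exact h
  | e z => exact h.1
  | f z => exact h.start

theorem good_mem (hC : IsFinSub (cov P V) C) {c : Cell (cov P V)} (h : good P C c) : c ∈ Cᶜ := by
  cases c with
  | v p => exact h
  | e z => exact e_notMem P hC (Or.inl h.1)
  | f z =>
    obtain ⟨v, i⟩ := z
    exact f_notMem P hC (Nat.zero_le _) (h 0 (Nat.zero_le _))

/-- connecting arrows -/
def kap (C : Set (Cell (cov P V))) : Cell (cov P V) → (Sd (cov P V)).Gam Cᶜ
  | .v _ => 1
  | .e z => et P C z false
  | .f z => kp P C z (fin0 P z.1 z.2)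

theorem kap_gen (hC : IsFinSub (cov P V) C) {c : Cell (cov P V)} (h : good P C c) :
    Gen Cᶜ (kE (K := Sd (cov P V)) Cᶜ) c (kap P C c) (Cell.v (bv P c)) := by
  have hc := good_mem P hC h
  have hb := good_bv P h
  cases c with
  | v p => exact .one hc
  | e z => exact .of hc hb ⟨SdE.half z false, rfl, rfl, rfl⟩
  | f z =>
    obtain ⟨v, i⟩ := z
    refine .of hc hb ⟨SdE.corner (v, i) (fin0 P v i), rfl, ?_, rfl⟩
    show Cell.v v = Cell.v ((cov P V).s ((walk P v (P.rel i)).get (fin0 P v i)))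
    rw [(get_ends P v i (fin0 P v i)).1]
    show Cell.v (K := cov P V) v = Cell.v (K := cov P V) (ra v (P.q (FreeGroup.mk ((P.rel i).take 0))))
    rw [List.take_zero, ra_nil]

theorem gen_lift (hC : IsFinSub (cov P V) C) {u : V} {g : (Sd (cov P V)).Gam Cᶜ} {w : V}
    (h : Gen (UC P C) (edg P (epC P C)) u g w) :
    Gen Cᶜ (kE (K := Sd (cov P V)) Cᶜ) (Cell.v u) g (Cell.v w) := by
  induction h with
  | one h => exact .one h
  | inv _ ih => exact ih.inv
  | mul _ _ ih1 ih2 => exact ih1.mul ih2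
  | @of u g w hu hw h =>
    obtain ⟨x, rfl, rfl⟩ := h
    have he : Cell.e (K := cov P V) (u, x) ∈ Cᶜ := e_notMem P hC (Or.inl hu)
    have h3 : Gen Cᶜ (kE (K := Sd (cov P V)) Cᶜ) (Cell.e (u, x)) (et P C (u, x) false)
      (Cell.v u) := .of he hu ⟨SdE.half (u, x) false, rfl, rfl, rfl⟩
    have h4 : Gen Cᶜ (kE (K := Sd (cov P V)) Cᶜ) (Cell.e (u, x)) (et P C (u, x) true)
        (Cell.v (ra u (P.gen x))) :=
      .of he hw ⟨SdE.half (u, x) true, rfl, rfl, rfl⟩
    exact h3.inv.mul h4

/-- the extended groupoid on the good cells -/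
def SC (C : Set (Cell (cov P V))) (c : Cell (cov P V)) (g : (Sd (cov P V)).Gam Cᶜ)
    (c' : Cell (cov P V)) : Prop :=
  good P C c ∧ good P C c' ∧
    Gen (UC P C) (edg P (epC P C)) (bv P c) ((kap P C c)⁻¹ * g * kap P C c') (bv P c')

theorem SC_gpd : Gpd {c | good P C c} (SC P C) where
  mem h := ⟨h.1, h.2.1⟩
  one {u} h := by
    refine ⟨h, h, ?_⟩
    rw [mul_one, inv_mul_cancel]
    exact .one (good_bv P h)
  inv := by
    rintro u g w ⟨h1, h2, h3⟩
    refine ⟨h2, h1, ?_⟩
    have e : (kap P C w)⁻¹ * g⁻¹ * kap P C u = ((kap P C u)⁻¹ * g * kap P C w)⁻¹ := by group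
    rw [e]
    exact h3.inv
  mul := by
    rintro u g v h w ⟨h1, h2, h3⟩ ⟨h4, h5, h6⟩
    refine ⟨h1, h5, ?_⟩
    have e : (kap P C u)⁻¹ * (g * h) * kap P C w =
      ((kap P C u)⁻¹ * g * kap P C v) * ((kap P C v)⁻¹ * h * kap P C w) := by group
    rw [e]
    exact h3.mul h6

theorem SC_gen (hC : IsFinSub (cov P V) C) {c c' : Cell (cov P V)} {g : (Sd (cov P V)).Gam Cᶜ}
    (h : SC P C c g c') : Gen Cᶜ (kE (K := Sd (cov P V)) Cᶜ) c g c' := by
  obtain ⟨h1, h2, h3⟩ := h
  have h4 := ((kap_gen P hC h1).mul (gen_lift P hC h3)).mul (kap_gen P hC h2).inv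
  have e : kap P C c * ((kap P C c)⁻¹ * g * kap P C c') * (kap P C c')⁻¹ = g := by group
  rwa [e] at h4

theorem SC_fgs (hT : TameC P V) (hC : IsFinSub (cov P V) C) : FGs {c | good P C c} (SC P C) := by
  obtain ⟨⟨V1, hV1, h1⟩, h2⟩ := hT _ (UC P C) (UC_fin P hC) (epC P C) (isCoc_epC P hC)
  constructor
  · refine ⟨Cell.v '' V1, hV1.image _, fun c hc => ?_⟩
    obtain ⟨w, hw, g, hg⟩ := h1 _ (good_bv P hc)
    refine ⟨Cell.v w, ⟨w, hw, rfl⟩, kap P C c * g, hc, hg.mem.2, ?_⟩
    show Gen (UC P C) (edg P (epC P C)) (bv P c) ((kap P C c)⁻¹ * (kap P C c * g) * 1) w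
    have e : (kap P C c)⁻¹ * (kap P C c * g) * 1 = g := by group
    rw [e]
    exact hg
  · intro c hc
    refine fg_map_closure (MulAut.conj (kap P C c)).toMonoidHom _ _ ?_ (h2 _ (good_bv P hc))
    ext g
    constructor
    · rintro ⟨_, _, h3⟩
      refine ⟨_, h3, ?_⟩
      show kap P C c * ((kap P C c)⁻¹ * g * kap P C c) * (kap P C c)⁻¹ = g
      group
    · rintro ⟨h, h3, rfl⟩
      refine ⟨hc, hc, ?_⟩
      show Gen (UC P C) (edg P (epC P C)) (bv P c)
        ((kap P C c)⁻¹ * (kap P C c * h * (kap P C c)⁻¹) * kap P C c) (bv P c)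
      have e : (kap P C c)⁻¹ * (kap P C c * h * (kap P C c)⁻¹) * kap P C c = h := by group
      rw [e]
      exact h3

/-- edges of the subdivision with good initial cell -/
theorem SC_edge (hC : IsFinSub (cov P V) C) (a : SdE (cov P V))
    (hs : good P C ((Sd (cov P V)).src a)) (ht : (Sd (cov P V)).tgt a ∈ Cᶜ) :
    SC P C ((Sd (cov P V)).src a) (cls (K := Sd (cov P V)) Cᶜ [(a, true)])
      ((Sd (cov P V)).tgt a) := by
  cases a with
  | half z b =>
    cases b with
    | false =>
      refine ⟨hs, hs.1, ?_⟩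
      show Gen (UC P C) (edg P (epC P C)) z.1 ((et P C z false)⁻¹ * et P C z false * 1) z.1
      rw [inv_mul_cancel, one_mul]
      exact .one hs.1
    | true =>
      refine ⟨hs, hs.2, ?_⟩
      show Gen (UC P C) (edg P (epC P C)) z.1 ((et P C z false)⁻¹ * et P C z true * 1)
        (ra z.1 (P.gen z.2))
      rw [mul_one]
      exact gen_of P hs.1 hs.2
  | corner z j =>
    obtain ⟨v, i⟩ := z
    have hU : InU P (UC P C) v (P.rel i) := hs
    have hlen : (walk P v (P.rel i)).length = (P.rel i).length := length_walk P v _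
    have hj : j.1 < (P.rel i).length := hlen ▸ j.2
    refine ⟨hs, ht, ?_⟩
    show Gen (UC P C) (edg P (epC P C)) v ((kp P C (v, i) (fin0 P v i))⁻¹ * kp P C (v, i) j * 1)
      ((cov P V).s ((walk P v (P.rel i)).get j))
    rw [(get_ends P v i j).1, mul_one]
    have h := ev_epC P hC hU j.1 hj.le
    have e : (⟨j.1 % (walk P v (P.rel i)).length, Nat.mod_lt _ (fin0 P v i).2⟩ :
      Fin (walk P v (P.rel i)).length) = j := Fin.ext (Nat.mod_eq_of_lt j.2)
    rw [e] at h
    rw [← h]
    exact gen_take P (epC P C) hU j.1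
  | side z j =>
    obtain ⟨v, i⟩ := z
    have hU : InU P (UC P C) v (P.rel i) := hs
    have hlen : (walk P v (P.rel i)).length = (P.rel i).length := length_walk P v _
    have hj : j.1 < (P.rel i).length := hlen ▸ j.2
    obtain ⟨g1, g2⟩ := get_ends P v i j
    have hs' : (cov P V).s ((walk P v (P.rel i)).get j) ∈ UC P C := by
      rw [g1]; exact hU j.1 hj.le
    have ht' : (cov P V).t ((walk P v (P.rel i)).get j) ∈ UC P C := by
      rw [g2]; exact hU (j.1 + 1) hj
    refine ⟨hs, (mem_iff_ends P (UC P C) _).1 ⟨hs', ht'⟩, ?_⟩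
    show Gen (UC P C) (edg P (epC P C)) v ((kp P C (v, i) (fin0 P v i))⁻¹ * sg P C (v, i) j *
      et P C ((walk P v (P.rel i)).get j).1 false) ((walk P v (P.rel i)).get j).1.1
    rw [mul_assoc]
    have t1 := tri P hC j hs' ht' false
    have t2 := tri P hC j hs' ht' true
    simp only [Bool.false_eq_true, if_false, if_true] at t1 t2
    have h := ev_epC P hC hU j.1 hj.le
    have e : (⟨j.1 % (walk P v (P.rel i)).length, Nat.mod_lt _ (fin0 P v i).2⟩ :
      Fin (walk P v (P.rel i)).length) = j := Fin.ext (Nat.mod_eq_of_lt j.2)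
    rw [e] at h
    have h' := ev_epC P hC hU (j.1 + 1) hj
    have e' : (⟨(j.1 + 1) % (walk P v (P.rel i)).length, Nat.mod_lt _ (fin0 P v i).2⟩ :
      Fin (walk P v (P.rel i)).length) = nxt j := rfl
    rw [e'] at h'
    have k1 := gen_take P (epC P C) hU j.1
    have k2 := gen_take P (epC P C) hU (j.1 + 1)
    rw [h, ← t1, ← g1] at k1
    rw [h', ← t2, ← g2] at k2
    generalize (walk P v (P.rel i)).get j = z at k1 k2
    obtain ⟨z, c⟩ := z
    cases c with
    | true => exact k1
    | false => exact k2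

theorem src_fin (B : Set (Cell (cov P V))) (hB : B.Finite) :
    {a : SdE (cov P V) | (Sd (cov P V)).src a ∈ B}.Finite := by
  have h : {a : SdE (cov P V) | (Sd (cov P V)).src a ∈ B} ⊆ ⋃ c ∈ B,
      {a : SdE (cov P V) | (Sd (cov P V)).src a = c} := by
    intro a ha
    rw [Set.mem_iUnion₂]
    exact ⟨_, ha, rfl⟩
  refine Set.Finite.subset (hB.biUnion ?_) h
  intro c _
  cases c with
  | v p =>
    apply Set.Finite.subset Set.finite_empty
    intro a ha
    cases a <;> exact absurd ha (by simp [SdE.src])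
  | e z =>
    apply Set.Finite.subset (Set.finite_range (fun b => SdE.half (K := cov P V) z b))
    intro a ha
    cases a with
    | half z' b =>
      have e : z' = z := Cell.e.inj ha
      rw [e]
      exact ⟨b, rfl⟩
    | side z' j => exact absurd ha (by simp [SdE.src])
    | corner z' j => exact absurd ha (by simp [SdE.src])
  | f z =>
    apply Set.Finite.subset ((Set.finite_range (fun j => SdE.side (K := cov P V) z j)).union
      (Set.finite_range (fun j => SdE.corner (K := cov P V) z j)))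
    intro a ha
    cases a with
    | half z' b => exact absurd ha (by simp [SdE.src])
    | side z' j =>
      have e : z' = z := Cell.f.inj ha
      subst e
      exact Or.inl ⟨j, rfl⟩
    | corner z' j =>
      have e : z' = z := Cell.f.inj ha
      subst e
      exact Or.inr ⟨j, rfl⟩

theorem bad_fin (hC : IsFinSub (cov P V) C) : (Cᶜ \ {c | good P C c}).Finite := by
  have hX := P.finX
  have hι := P.finι
  have hD := UC_fin P hC
  have h : (Cᶜ \ {c | good P C c}) ⊆
      (Cell.e '' (((UC P C)ᶜ ×ˢ Set.univ) ∪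
        ((fun z : V × P.X => (ra z.1 (P.gen z.2)⁻¹, z.2)) '' ((UC P C)ᶜ ×ˢ Set.univ)))) ∪
      (Cell.f '' (⋃ i : P.ι, (fun z : V × ℕ => (ra z.1 (pv P i z.2)⁻¹, i)) ''
        ((UC P C)ᶜ ×ˢ Set.Iic (P.rel i).length))) := by
    rintro c ⟨hc, hg⟩
    cases c with
    | v p => exact absurd hc hg
    | e z =>
      left
      refine ⟨z, ?_, rfl⟩
      by_cases h1 : z.1 ∈ UC P C
      · right
        have h2 : ra z.1 (P.gen z.2) ∉ UC P C := fun h2 => hg ⟨h1, h2⟩
        refine ⟨(ra z.1 (P.gen z.2), z.2), ⟨h2, trivial⟩, ?_⟩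
        show (ra (ra z.1 (P.gen z.2)) (P.gen z.2)⁻¹, z.2) = z
        rw [ra_inv_cancel]
      · exact Or.inl ⟨h1, trivial⟩
    | f z =>
      right
      refine ⟨z, ?_, rfl⟩
      obtain ⟨v, i⟩ := z
      rw [Set.mem_iUnion]
      have h1 : ∃ k ≤ (P.rel i).length, ra v (pv P i k) ∉ UC P C := by
        by_contra hcon
        apply hg
        intro k hk
        by_contra h2
        exact hcon ⟨k, hk, h2⟩
      obtain ⟨k, hk, h2⟩ := h1
      refine ⟨i, (ra v (pv P i k), k), ⟨h2, hk⟩, ?_⟩
      show (ra (ra v (pv P i k)) (pv P i k)⁻¹, i) = (v, i)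
      rw [ra_inv_cancel]
  refine Set.Finite.subset ?_ h
  have h2 : ((UC P C)ᶜ ×ˢ (Set.univ : Set P.X)).Finite := hD.prod Set.finite_univ
  apply Set.Finite.union
  · exact (h2.union (h2.image _)).image _
  · apply Set.Finite.image
    apply Set.finite_iUnion
    intro i
    exact (hD.prod (Set.finite_Iic _)).image _

/-- The groupoid form implies tameness. -/
theorem tameV_of_tameC (hT : TameC P V) : TameV P V := by
  intro C hC c
  apply pi1_fg_of_fgs
  have hbad := bad_fin P hC
  refine fgs_add (SC_gpd P) (SC_fgs P hT hC) (fun c hc => good_mem P hC hc) hbad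
    (fun u g w h => SC_gen P hC h)
    ((fun a : SdE (cov P V) => ((Sd (cov P V)).src a, cls (K := Sd (cov P V)) Cᶜ [(a, true)],
      (Sd (cov P V)).tgt a)) '' {a | (Sd (cov P V)).src a ∈ Cᶜ \ {c | good P C c}})
    ((src_fin P _ hbad).image _) ?_
  rintro u g w hu hw ⟨a, rfl, rfl, rfl⟩
  by_cases h : good P C ((Sd (cov P V)).src a)
  · right
    exact SC_edge P hC a h hw
  · left
    exact ⟨a, ⟨hu, h⟩, rfl⟩

end dir1

end Pool.Agent.R645.TM
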