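import Pool.Agent.R645.TM.KGen

/-! Tameness implies its groupoid form. -/

set_option autoImplicit false

namespace Pool.Agent.R645.TM

universe u v w

open Cx

section dir2

variable {G : Type u} [Group G] (P : Pres G) {V : Type u} [RAct G V]

/-- tameness of the covering complex with vertex set `V` -/
def TameV (V : Type u) [RAct G V] : Prop :=
  ∀ C : Set (Cell (cov P V)), IsFinSub (cov P V) C →
    ∀ c : (Cᶜ : Set (Cell (cov P V))), Group.FG ((Sd (cov P V)).Pi1 Cᶜ c)

/-- the prefix value of a relator -/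
def pv (i : P.ι) (k : ℕ) : G := P.q (FreeGroup.mk ((P.rel i).take k))

/-- the full finite subcomplex on `D` -/
def fullC (D : Set V) : Set (Cell (cov P V)) :=
  {c | match c with
    | .v p => p ∈ D
    | .e z => z.1 ∈ D ∧ ra z.1 (P.gen z.2) ∈ D
    | .f z => ∀ k ≤ (P.rel z.2).length, ra z.1 (pv P z.2 k) ∈ D}

theorem fullC_sub (D : Set V) (hD : D.Finite) : IsFinSub (cov P V) (fullC P D) where
  fin := by
    have hX := P.finX
    have hι := P.finι
    have h1 : (fullC P D) ⊆ (Cell.v (K := cov P V) '' D) ∪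
        ((Cell.e (K := cov P V) '' (D ×ˢ Set.univ)) ∪ (Cell.f (K := cov P V) '' (D ×ˢ Set.univ))) := by
      intro c hc
      cases c with
      | v p => exact Or.inl ⟨p, hc, rfl⟩
      | e z => exact Or.inr (Or.inl ⟨z, ⟨hc.1, trivial⟩, rfl⟩)
      | f z =>
        refine Or.inr (Or.inr ⟨z, ⟨?_, trivial⟩, rfl⟩)
        have := hc 0 (Nat.zero_le _)
        unfold pv at this
        rw [List.take_zero, ra_nil] at this
        exact this
    refine Set.Finite.subset ?_ h1
    have h2 : (D ×ˢ (Set.univ : Set P.X)).Finite := hD.prod Set.finite_univ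
    have h3 : (D ×ˢ (Set.univ : Set P.ι)).Finite := hD.prod Set.finite_univ
    exact (hD.image _).union ((h2.image _).union (h3.image _))
  edge := fun z hz => ⟨hz.1, hz.2⟩
  face := by
    rintro ⟨v, i⟩ hr z hz
    obtain ⟨j, hj, rfl⟩ := List.mem_iff_getElem.1 hz
    have hj' : j < (P.rel i).length := by
      rw [length_walk] at hj
      exact hj
    have e := getElem_walk P v (P.rel i) j hj hj'
    have h1 := hr j hj'.le
    have h2 := hr (j + 1) hj'
    unfold pv at h1 h2
    rw [ra_take_succ P v (P.rel i) j hj'] at h2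
    show Cell.e ((walk P v (P.rel i))[j]).1 ∈ fullC P D
    rw [e]
    dsimp only at h1 h2
    generalize ra v (P.q (FreeGroup.mk ((P.rel i).take j))) = vj at h1 h2
    generalize (P.rel i)[j] = zj at h2
    obtain ⟨x, b⟩ := zj
    cases b with
    | true => exact ⟨h1, h2⟩
    | false =>
      refine ⟨h2, ?_⟩
      show ra (ra vj (P.gen x)⁻¹) (P.gen x) ∈ D
      rw [ra_cancel_inv]
      exact h1

variable {Γ : Type u} [Group Γ] (ε : V → P.X → Γ)

/-- the value of an edge of the barycentric subdivision -/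
def psi : SdE (cov P V) → Γ
  | .half z b => if b then ε z.1 z.2 else 1
  | .side z j => ev P ε z.1 (FreeGroup.mk ((P.rel z.2).take
      (if ((walk P z.1 (P.rel z.2)).get j).2 then j.1 else j.1 + 1)))
  | .corner z j => ev P ε z.1 (FreeGroup.mk ((P.rel z.2).take j.1))

/-- the base vertex of a cell -/
def bv : Cell (cov P V) → V
  | .v p => p
  | .e z => z.1
  | .f z => z.1

theorem get_walk (v : V) (i : P.ι) (j : Fin (walk P v (P.rel i)).length)
    (h : j.1 < (P.rel i).length) : (walk P v (P.rel i)).get j =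
      se P (ra v (P.q (FreeGroup.mk ((P.rel i).take j.1)))) (P.rel i)[j.1] :=
  getElem_walk P v (P.rel i) j.1 j.2 h

/-- the value at the next corner -/
theorem psi_nxt {U : Set V} (hε : IsCoc P U ε) {v : V} {i : P.ι} (hU : InU P U v (P.rel i))
    (j : Fin (walk P v (P.rel i)).length) :
    ev P ε v (FreeGroup.mk ((P.rel i).take (nxt j).1)) =
      ev P ε v (FreeGroup.mk ((P.rel i).take (j.1 + 1))) := by
  have hlen : (walk P v (P.rel i)).length = (P.rel i).length := length_walk P v _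
  obtain ⟨j, hj⟩ := j
  show ev P ε v (FreeGroup.mk ((P.rel i).take ((j + 1) % (walk P v (P.rel i)).length))) =
      ev P ε v (FreeGroup.mk ((P.rel i).take (j + 1)))
  rw [hlen] at hj ⊢
  by_cases h : j + 1 < (P.rel i).length
  · rw [Nat.mod_eq_of_lt h]
  · have e : j + 1 = (P.rel i).length := by omega
    rw [e, Nat.mod_self, List.take_zero, List.take_length, hε v i hU]
    exact ev_nil P ε v

theorem psi_triangle {U : Set V} (hε : IsCoc P U ε) {v : V} {i : P.ι} (hU : InU P U v (P.rel i))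
    (j : Fin (walk P v (P.rel i)).length) (b : Bool) :
    psi P ε (.side (v, i) j) * psi P ε (.half ((walk P v (P.rel i)).get j).1
      (if b then ((walk P v (P.rel i)).get j).2 else !((walk P v (P.rel i)).get j).2)) =
    psi P ε (.corner (v, i) (if b then nxt j else j)) := by
  have hlen : (walk P v (P.rel i)).length = (P.rel i).length := length_walk P v _
  have hj : j.1 < (P.rel i).length := hlen ▸ j.2
  have e := get_walk P v i j hj
  have h2 := ev_take_succ P ε v (P.rel i) j.1 hj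
  have h3 := psi_nxt P ε hε hU j
  unfold psi
  dsimp only
  rw [e]
  generalize hvj : ra v (P.q (FreeGroup.mk ((P.rel i).take j.1))) = vj at h2
  generalize hzj : (P.rel i)[j.1] = zj at h2
  obtain ⟨x, c⟩ := zj
  cases b with
  | false =>
    cases c with
    | true =>
      show ev P ε v (FreeGroup.mk ((P.rel i).take j.1)) * 1 = _
      rw [mul_one]
      rfl
    | false =>
      show ev P ε v (FreeGroup.mk ((P.rel i).take (j.1 + 1))) * ε (ra vj (P.gen x)⁻¹) x = _
      rw [h2]
      show _ * (ε (ra vj (P.gen x)⁻¹) x)⁻¹ * ε (ra vj (P.gen x)⁻¹) x = _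
      rw [inv_mul_cancel_right]
      rfl
  | true =>
    cases c with
    | true =>
      show ev P ε v (FreeGroup.mk ((P.rel i).take j.1)) * ε vj x =
        ev P ε v (FreeGroup.mk ((P.rel i).take (nxt j).1))
      rw [h3, h2]
      rfl
    | false =>
      show ev P ε v (FreeGroup.mk ((P.rel i).take (j.1 + 1))) * 1 =
        ev P ε v (FreeGroup.mk ((P.rel i).take (nxt j).1))
      rw [h3, mul_one]

section far

variable {U D : Set V}
  (hDe : ∀ v x, (v ∉ U ∨ ra v (P.gen x) ∉ U) → v ∈ D ∧ ra v (P.gen x) ∈ D)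
  (hDf : ∀ v i, (∃ k ≤ (P.rel i).length, ra v (pv P i k) ∉ U) →
    ∀ k ≤ (P.rel i).length, ra v (pv P i k) ∈ D)

include hDe in
theorem far_e {z : V × P.X} (h : Cell.e (K := cov P V) z ∉ fullC P D) :
    z.1 ∈ U ∧ ra z.1 (P.gen z.2) ∈ U := by
  by_contra hcon
  apply h
  apply hDe
  by_contra h2
  rw [not_or, not_not, not_not] at h2
  exact hcon h2

include hDf in
theorem far_f {z : V × P.ι} (h : Cell.f (K := cov P V) z ∉ fullC P D) :
    InU P U z.1 (P.rel z.2) := by
  intro k hk
  by_contra hcon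
  exact h (hDf _ _ ⟨k, hk, hcon⟩)

variable (hε : IsCoc P U ε)

include hDf hε in
theorem psi_rels : ∀ r ∈ (Sd (cov P V)).rels (fullC P D)ᶜ, FreeGroup.lift (psi P ε) r = 1 := by
  rintro r ⟨⟨⟨v, i⟩, j, b⟩, u, hu, rfl⟩
  have hf : Cell.f (K := cov P V) (v, i) ∉ fullC P D := by
    have h1 := hu.2.1
    have h2 := hu.1
    rw [← h1] at h2
    exact h2
  have h := psi_triangle P ε hε (far_f P hDf hf) j b
  rw [FreeGroup.lift_mk]
  have e0 : (Sd (cov P V)).bd ⟨(v, i), j, b⟩ = [(SdE.side (v, i) j, true),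
    (Tri.mid ⟨(v, i), j, b⟩, true), (SdE.corner (v, i) (if b then nxt j else j), false)] := rfl
  rw [e0]
  simp only [List.map_cons, List.map_nil, List.prod_cons, List.prod_nil, mul_one, cond_true,
    cond_false]
  rw [← mul_assoc]
  show psi P ε (.side (v, i) j) * psi P ε (.half ((walk P v (P.rel i)).get j).1
      (if b then ((walk P v (P.rel i)).get j).2 else !((walk P v (P.rel i)).get j).2)) *
    (psi P ε (.corner (v, i) (if b then nxt j else j)))⁻¹ = 1
  rw [h, mul_inv_cancel]

/-- the homomorphism induced by the cocycle -/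
noncomputable def Psi : (Sd (cov P V)).Gam (fullC P D)ᶜ →* Γ :=
  PresentedGroup.toGroup (psi_rels P ε hDf hε)

theorem Psi_single (a : SdE (cov P V)) :
    Psi P ε hDf hε (cls (K := Sd (cov P V)) (fullC P D)ᶜ [(a, true)]) = psi P ε a := by
  have h : (cls (K := Sd (cov P V)) (fullC P D)ᶜ [(a, true)]) = PresentedGroup.of a := rfl
  unfold Psi
  rw [h, PresentedGroup.toGroup.of]

theorem gen_take {v : V} {i : P.ι} (h : InU P U v (P.rel i)) (k : ℕ) :
    Gen U (edg P ε) v (ev P ε v (FreeGroup.mk ((P.rel i).take k)))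
      (ra v (P.q (FreeGroup.mk ((P.rel i).take k)))) :=
  gen_word P ε (h.take P k)

include hDe in
/-- the image of an arrow -/
theorem Psi_gen {c c' : Cell (cov P V)} {g : (Sd (cov P V)).Gam (fullC P D)ᶜ}
    (h : Gen (fullC P D)ᶜ (kE (K := Sd (cov P V)) (fullC P D)ᶜ) c g c')
    (hDv : Uᶜ ⊆ D) : Gen U (edg P ε) (bv P c) (Psi P ε hDf hε g) (bv P c') := by
  have hcell : ∀ c : Cell (cov P V), c ∉ fullC P D → bv P c ∈ U := by
    intro c hc
    cases c with
    | v p =>
      by_contra h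
      exact hc (hDv h)
    | e z => exact (far_e P hDe hc).1
    | f z =>
      exact (far_f P hDf hc).start
  induction h with
  | @one u h =>
    rw [map_one]
    exact .one (hcell _ h)
  | inv _ ih =>
    rw [map_inv]
    exact ih.inv
  | mul _ _ ih1 ih2 =>
    rw [map_mul]
    exact ih1.mul ih2
  | @of u g w hu hw h =>
    obtain ⟨a, rfl, rfl, rfl⟩ := h
    rw [Psi_single]
    cases a with
    | half z b =>
      have h1 := far_e P hDe hu
      cases b with
      | true => exact gen_of P h1.1 h1.2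
      | false => exact .one h1.1
    | side z j =>
      obtain ⟨v, i⟩ := z
      have h1 := far_f P hDf hu
      have hlen : (walk P v (P.rel i)).length = (P.rel i).length := length_walk P v _
      have hj : j.1 < (P.rel i).length := hlen ▸ j.2
      have e := get_walk P v i j hj
      have e2 := ra_take_succ P v (P.rel i) j.1 hj
      have h3 := gen_take P ε h1 j.1
      have h4 := gen_take P ε h1 (j.1 + 1)
      show Gen U (edg P ε) v (psi P ε (.side (v, i) j)) ((walk P v (P.rel i)).get j).1.1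
      unfold psi
      dsimp only
      rw [e]
      rw [e2] at h4
      generalize ra v (P.q (FreeGroup.mk ((P.rel i).take j.1))) = vj at h3 h4
      generalize (P.rel i)[j.1] = zj at h4
      obtain ⟨x, c⟩ := zj
      cases c with
      | true => exact h3
      | false => exact h4
    | corner z j =>
      obtain ⟨v, i⟩ := z
      have h1 := far_f P hDf hu
      have hlen : (walk P v (P.rel i)).length = (P.rel i).length := length_walk P v _
      have hj : j.1 < (P.rel i).length := hlen ▸ j.2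
      have e := get_walk P v i j hj
      have h3 := gen_take P ε h1 j.1
      show Gen U (edg P ε) v (psi P ε (.corner (v, i) j))
        ((cov P V).s ((walk P v (P.rel i)).get j))
      rw [e, s_se]
      exact h3

end far

/-- Tameness implies its groupoid form. -/
theorem tameC_of_tameV (hT : TameV P V) (v0 : V) (htr : ∀ v : V, ∃ g : G, v0 = ra v g) :
    TameC P V := by
  intro Γ _ U hU ε hε
  have hX := P.finX
  have hι := P.finι
  let B : Set G := (Set.range P.gen ∪ Set.range (fun x => (P.gen x)⁻¹)) ∪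
    ⋃ i : P.ι, (fun z : ℕ × ℕ => (pv P i z.1)⁻¹ * pv P i z.2) ''
      (Set.Iic (P.rel i).length ×ˢ Set.Iic (P.rel i).length)
  have hB : B.Finite := by
    apply Set.Finite.union
    · exact (Set.finite_range _).union (Set.finite_range _)
    · apply Set.finite_iUnion
      intro i
      exact ((Set.finite_Iic _).prod (Set.finite_Iic _)).image _
  let D : Set V := Uᶜ ∪ (fun z : V × G => ra z.1 z.2) '' (Uᶜ ×ˢ B)
  have hD : D.Finite := hU.union ((hU.prod hB).image _)
  have hDB : ∀ v ∉ U, ∀ b ∈ B, ra v b ∈ D := fun v hv b hb => Or.inr ⟨(v, b), ⟨hv, hb⟩, rfl⟩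
  have hDv : Uᶜ ⊆ D := fun v hv => Or.inl hv
  have hDe : ∀ v x, (v ∉ U ∨ ra v (P.gen x) ∉ U) → v ∈ D ∧ ra v (P.gen x) ∈ D := by
    rintro v x (h | h)
    · exact ⟨hDv h, hDB v h _ (Or.inl (Or.inl ⟨x, rfl⟩))⟩
    · refine ⟨?_, hDv h⟩
      have := hDB _ h (P.gen x)⁻¹ (Or.inl (Or.inr ⟨x, rfl⟩))
      rwa [ra_inv_cancel] at this
  have hDf : ∀ v i, (∃ k ≤ (P.rel i).length, ra v (pv P i k) ∉ U) →
      ∀ k ≤ (P.rel i).length, ra v (pv P i k) ∈ D := by
    rintro v i ⟨k, hk, h⟩ k' hk'
    have := hDB _ h ((pv P i k)⁻¹ * pv P i k') (by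
      right
      rw [Set.mem_iUnion]
      exact ⟨i, (k, k'), ⟨hk, hk'⟩, rfl⟩)
    rwa [RAct.ra_mul, ra_inv_cancel] at this
  have hC := fullC_sub P D hD
  obtain ⟨R, hR, hRD, hcomp⟩ := comp_fin P v0 htr D hD
  let S : V → Γ → V → Prop := fun u g w => u ∉ D ∧ w ∉ D ∧
    ∃ h, Gen (fullC P D)ᶜ (kE (K := Sd (cov P V)) (fullC P D)ᶜ) (Cell.v u) h (Cell.v w) ∧
      g = Psi P ε hDf hε h
  have hS : Gpd Dᶜ S :=
    { mem := fun h => ⟨h.1, h.2.1⟩
      one := fun {u} h => ⟨h, h, 1, .one h, (map_one _).symm⟩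
      inv := by
        rintro u g w ⟨h1, h2, h, h3, rfl⟩
        exact ⟨h2, h1, _, h3.inv, (map_inv _ _).symm⟩
      mul := by
        rintro u g v h w ⟨h1, h2, k, h3, rfl⟩ ⟨h4, h5, k', h6, rfl⟩
        exact ⟨h1, h5, _, h3.mul h6, (map_mul _ _ _).symm⟩ }
  have hedge : ∀ u x, u ∉ D → ra u (P.gen x) ∉ D → S u (ε u x) (ra u (P.gen x)) := by
    intro u x h1 h2
    have he : Cell.e (K := cov P V) (u, x) ∈ (fullC P D)ᶜ := fun h => h1 h.1
    have h3 : Gen (fullC P D)ᶜ (kE (K := Sd (cov P V)) (fullC P D)ᶜ) (Cell.e (u, x)) _ (Cell.v u) :=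
      .of he h1 ⟨SdE.half (u, x) false, rfl, rfl, rfl⟩
    have h4 : Gen (fullC P D)ᶜ (kE (K := Sd (cov P V)) (fullC P D)ᶜ) (Cell.e (u, x)) _
        (Cell.v (ra u (P.gen x))) :=
      .of he h2 ⟨SdE.half (u, x) true, rfl, rfl, rfl⟩
    refine ⟨h1, h2, _, h3.inv.mul h4, ?_⟩
    rw [map_mul, map_inv, Psi_single, Psi_single]
    show ε u x = 1⁻¹ * ε u x
    rw [inv_one, one_mul]
  have hF : FGs Dᶜ S := by
    refine ⟨⟨R, hR, ?_⟩, ?_⟩
    · intro u hu
      refine hcomp (fun v => ∃ w ∈ R, ∃ g, S v g w) ?_ ?_ u hu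
      · intro w hw
        exact ⟨w, hw, 1, hS.one (hRD hw)⟩
      · intro v x h1 h2
        have h3 := hedge v x h1 h2
        constructor
        · rintro ⟨w, hw, g, hg⟩
          exact ⟨w, hw, _, hS.mul (hS.inv h3) hg⟩
        · rintro ⟨w, hw, g, hg⟩
          exact ⟨w, hw, _, hS.mul h3 hg⟩
    · intro u hu
      have h1 := hT (fullC P D) hC ⟨Cell.v u, hu⟩
      rw [pi1_fg_iff, range_eq] at h1
      refine fg_map_closure (Psi P ε hDf hε) _ _ ?_ h1
      ext g
      constructor
      · rintro ⟨_, _, h, h2, rfl⟩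
        exact ⟨h, h2, rfl⟩
      · rintro ⟨h, h2, rfl⟩
        exact ⟨hu, hu, h, h2, rfl⟩
  have hDU : Dᶜ ⊆ U := by
    intro v hv
    by_contra h
    exact hv (hDv h)
  refine fgs_add hS hF hDU (hD.subset ?_) ?_
    ((fun z : V × P.X => (z.1, ε z.1 z.2, ra z.1 (P.gen z.2))) ''
      ((D ×ˢ Set.univ) ∪ ((fun z : V × P.X => (ra z.1 (P.gen z.2)⁻¹, z.2)) '' (D ×ˢ Set.univ)))) ?_ ?_
  · rintro v ⟨_, hv⟩
    by_contra h
    exact hv h
  · rintro u g w ⟨_, _, h, h3, rfl⟩
    exact Psi_gen P ε hDe hDf hε h3 hDv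
  · apply Set.Finite.image
    have h2 : (D ×ˢ (Set.univ : Set P.X)).Finite := hD.prod Set.finite_univ
    exact h2.union (h2.image _)
  · rintro u g w hu hw ⟨x, rfl, rfl⟩
    by_cases h1 : u ∈ D
    · left
      exact ⟨(u, x), Or.inl ⟨h1, trivial⟩, rfl⟩
    · by_cases h2 : ra u (P.gen x) ∈ D
      · left
        refine ⟨(u, x), Or.inr ⟨(ra u (P.gen x), x), ⟨h2, trivial⟩, ?_⟩, rfl⟩
        show (ra (ra u (P.gen x)) (P.gen x)⁻¹, x) = (u, x)
        rw [ra_inv_cancel]
      · right
        exact hedge u x h1 h2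

end dir2

end Pool.Agent.R645.TM
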