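import Pool.Agent.R645.TM.Core4

/-! Local tameness of extensions. -/

set_option autoImplicit false

namespace Pool.Agent.R645.TM

universe u v w

open Cx

theorem fg_of_map_inj {G H : Type*} [Group G] [Group H] (f : G →* H)
    (hf : Function.Injective f) (K : Subgroup G) (h : (K.map f).FG) : K.FG := by
  rw [← Group.fg_iff_subgroup_fg] at h ⊢
  exact Group.fg_of_surjective (f := (K.equivMapOfInjective f hf).symm.toMonoidHom)
    (K.equivMapOfInjective f hf).symm.surjective

theorem fg_map {G H : Type*} [Group G] [Group H] (f : G →* H) (K : Subgroup G) (h : K.FG) :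
    (K.map f).FG := by
  obtain ⟨s, rfl⟩ := h
  classical
  refine ⟨s.image f, ?_⟩
  rw [Finset.coe_image, ← MonoidHom.map_closure]

section

variable {G : Type u} [Group G] {Q : Type u} [Group Q] {f : G →* Q}

/-- compatible presentations exist -/
noncomputable def mkSetup (hf : Function.Surjective f) (P : Pres G) (PN : Pres f.ker)
    (PQ : Pres Q) : Setup f where
  P := P
  PN := PN
  PQ := PQ
  surj := hf
  α := FreeGroup.lift fun x => (P.surj (PN.gen x : G)).choose
  β := FreeGroup.lift fun y => (P.surj (hf (PQ.gen y)).choose).choose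
  hα := by
    intro n
    have h : P.q.comp (FreeGroup.lift fun x => (P.surj (PN.gen x : G)).choose) =
        f.ker.subtype.comp PN.q := by
      apply FreeGroup.ext_hom
      intro x
      rw [MonoidHom.comp_apply, MonoidHom.comp_apply, FreeGroup.lift_apply_of,
        FreeGroup.lift_apply_of]
      exact (P.surj (PN.gen x : G)).choose_spec
    exact DFunLike.congr_fun h n
  hβ := by
    intro y
    have h : (f.comp P.q).comp (FreeGroup.lift fun y => (P.surj (hf (PQ.gen y)).choose).choose) =
        PQ.q := by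
      apply FreeGroup.ext_hom
      intro x
      rw [MonoidHom.comp_apply, MonoidHom.comp_apply, FreeGroup.lift_apply_of,
        FreeGroup.lift_apply_of]
      have h1 : P.q (P.surj (hf (PQ.gen x)).choose).choose = (hf (PQ.gen x)).choose :=
        (P.surj (hf (PQ.gen x)).choose).choose_spec
      rw [h1]
      exact (hf (PQ.gen x)).choose_spec
    exact DFunLike.congr_fun h y

theorem stb_fg (hfgip : ∀ S : Subgroup G, S.FG → (f.ker ⊓ S).FG) {S : Subgroup G} (hS : S.FG)
    (a : G) : (stb f S a).FG := by
  have h1 : S.comap (MulAut.conj a).toMonoidHom = S.map (MulAut.conj a⁻¹).toMonoidHom := by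
    ext g
    constructor
    · intro hg
      refine ⟨a * g * a⁻¹, hg, ?_⟩
      show a⁻¹ * (a * g * a⁻¹) * a⁻¹⁻¹ = g
      group
    · rintro ⟨s, hs, rfl⟩
      show a * (a⁻¹ * s * a⁻¹⁻¹) * a⁻¹ ∈ S
      have e : a * (a⁻¹ * s * a⁻¹⁻¹) * a⁻¹ = s := by group
      rw [e]
      exact hs
  have h2 : (S.comap (MulAut.conj a).toMonoidHom).FG := by
    rw [h1]
    exact fg_map _ _ hS
  have h3 := hfgip _ h2
  apply fg_of_map_inj f.ker.subtype f.ker.subtype_injective
  unfold stb
  rw [Subgroup.subgroupOf_map_subtype, inf_comm]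
  exact h3

theorem ext_tame (hf : Function.Surjective f) (P : Pres G) (PN : Pres f.ker) (PQ : Pres Q)
    (hN : ∀ K : Subgroup f.ker, K.FG → TameC PN (RC K))
    (hQ : ∀ K : Subgroup Q, K.FG → TameC PQ (RC K))
    (hfgip : ∀ S : Subgroup G, S.FG → (f.ker ⊓ S).FG) (S : Subgroup G) (hS : S.FG) :
    Tame P S := by
  have h := tameC_ext (mkSetup hf P PN PQ) S (fun a => hN _ (stb_fg hfgip hS a))
    (hQ _ (fg_map f S hS))
  exact tameV_of_tameC P h

end

end Pool.Agent.R645.TM
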