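import Mathlib

/-! Groupoids of typed group elements: finite generation of vertex groups. -/

set_option autoImplicit false

namespace Pool.Agent.R645.TM

universe u v w

variable {Ω : Type u} {Γ : Type v} [Group Γ]

/-- the groupoid on the vertex set `U` generated by the arrows `E` between vertices of `U` -/
inductive Gen (U : Set Ω) (E : Ω → Γ → Ω → Prop) : Ω → Γ → Ω → Prop
  | one {u : Ω} : u ∈ U → Gen U E u 1 u
  | of {u : Ω} {g : Γ} {w : Ω} : u ∈ U → w ∈ U → E u g w → Gen U E u g w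
  | inv {u : Ω} {g : Γ} {w : Ω} : Gen U E u g w → Gen U E w g⁻¹ u
  | mul {u : Ω} {g : Γ} {v : Ω} {h : Γ} {w : Ω} : Gen U E u g v → Gen U E v h w →
      Gen U E u (g * h) w

/-- a relation which is a groupoid on the vertex set `U` -/
structure Gpd (U : Set Ω) (A : Ω → Γ → Ω → Prop) : Prop where
  mem : ∀ {u g w}, A u g w → u ∈ U ∧ w ∈ U
  one : ∀ {u}, u ∈ U → A u 1 u
  inv : ∀ {u g w}, A u g w → A w g⁻¹ u
  mul : ∀ {u g v h w}, A u g v → A v h w → A u (g * h) w

theorem Gen.mem {U : Set Ω} {E : Ω → Γ → Ω → Prop} {u : Ω} {g : Γ} {w : Ω} (h : Gen U E u g w) :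
    u ∈ U ∧ w ∈ U := by
  induction h with
  | one h => exact ⟨h, h⟩
  | of h h' _ => exact ⟨h, h'⟩
  | inv _ ih => exact ⟨ih.2, ih.1⟩
  | mul _ _ ih1 ih2 => exact ⟨ih1.1, ih2.2⟩

theorem gpd_gen (U : Set Ω) (E : Ω → Γ → Ω → Prop) : Gpd U (Gen U E) :=
  ⟨Gen.mem, Gen.one, Gen.inv, Gen.mul⟩

theorem Gen.le {U U' : Set Ω} {E A : Ω → Γ → Ω → Prop} (hA : Gpd U' A) (hU : U ⊆ U')
    (hE : ∀ u g w, u ∈ U → w ∈ U → E u g w → A u g w) {u : Ω} {g : Γ} {w : Ω}
    (h : Gen U E u g w) : A u g w := by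
  induction h with
  | one h => exact hA.one (hU h)
  | of h h' h'' => exact hE _ _ _ h h' h''
  | inv _ ih => exact hA.inv ih
  | mul _ _ ih1 ih2 => exact hA.mul ih1 ih2

/-- finitely many components and finitely generated vertex groups -/
def FGs (U : Set Ω) (A : Ω → Γ → Ω → Prop) : Prop :=
  (∃ V1 : Set Ω, V1.Finite ∧ ∀ u ∈ U, ∃ w ∈ V1, ∃ g, A u g w) ∧
  ∀ u ∈ U, (Subgroup.closure {g | A u g u}).FG

theorem Gpd.mem_closure {U : Set Ω} {A : Ω → Γ → Ω → Prop} (hA : Gpd U A) {u : Ω} (hu : u ∈ U)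
    {g : Γ} (h : g ∈ Subgroup.closure {g | A u g u}) : A u g u := by
  induction h using Subgroup.closure_induction with
  | mem x hx => exact hx
  | one => exact hA.one hu
  | mul x y _ _ hx hy => exact hA.mul hx hy
  | inv x _ hx => exact hA.inv hx

theorem bot_fg : (⊥ : Subgroup Γ).FG := ⟨∅, by simp⟩

open Classical in
/-- The main generation lemma. -/
theorem fgs_of_data {U : Set Ω} {E : Ω → Γ → Ω → Prop} {J : Type w} [Finite J] (r : J → Ω)
    (H : J → Subgroup Γ) (hH : ∀ j, (H j).FG) (ρ : Ω → J) (τ : Ω → Γ)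
    (hHA : ∀ u ∈ U, ∀ g ∈ H (ρ u), Gen U E (r (ρ u)) g (r (ρ u)))
    (hτ : ∀ u ∈ U, Gen U E u (τ u) (r (ρ u)))
    (Z : Set (Ω × Γ × Ω)) (hZ : Z.Finite)
    (hE : ∀ u g w, u ∈ U → w ∈ U → E u g w →
      (u, g, w) ∈ Z ∨ (ρ u = ρ w ∧ (τ u)⁻¹ * g * τ w ∈ H (ρ u))) :
    FGs U (Gen U E) := by
  refine ⟨⟨Set.range r, Set.finite_range r, fun u hu => ⟨r (ρ u), ⟨_, rfl⟩, τ u, hτ u hu⟩⟩, ?_⟩
  intro a ha
  let con : Ω → Prop := fun u => ∃ g, Gen U E u g a
  -- connecting elements of the representatives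
  let c : J → Γ := fun j => if h : con (r j) then h.choose else 1
  have hc : ∀ j, con (r j) → Gen U E (r j) (c j) a := by
    intro j h
    show Gen U E (r j) (if h : con (r j) then h.choose else 1) a
    rw [dif_pos h]
    exact h.choose_spec
  let T : Ω → Γ := fun u => τ u * c (ρ u)
  have hcon : ∀ u ∈ U, con u → con (r (ρ u)) := by
    rintro u hu ⟨g, hg⟩
    exact ⟨_, (hτ u hu).inv.mul hg⟩
  have hT : ∀ u ∈ U, con u → Gen U E u (T u) a := fun u hu h => (hτ u hu).mul (hc _ (hcon u hu h))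
  choose s hs using hH
  let J' : Set J := {j | ∃ u ∈ U, ρ u = j ∧ con u}
  let S : Set Γ := (⋃ j ∈ J', (fun h => (c j)⁻¹ * h * c j) '' (s j : Set Γ)) ∪
    ((fun z : Ω × Γ × Ω => (T z.1)⁻¹ * z.2.1 * T z.2.2) '' {z ∈ Z | con z.1 ∧ Gen U E z.1 z.2.1 z.2.2})
    ∪ {T a}
  have hSfin : S.Finite := by
    apply Set.Finite.union
    · apply Set.Finite.union
      · apply Set.Finite.biUnion (Set.toFinite _)
        intro j _
        exact Set.Finite.image _ (Finset.finite_toSet _)
      · exact Set.Finite.image _ (hZ.subset (fun z hz => hz.1))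
    · exact Set.finite_singleton _
  have hcona : con a := ⟨1, .one ha⟩
  have key : Subgroup.closure {g | Gen U E a g a} = Subgroup.closure S := by
    apply le_antisymm
    · rw [Subgroup.closure_le]
      intro g hg
      have claim : ∀ u g w, Gen U E u g w → con u → (T u)⁻¹ * g * T w ∈ Subgroup.closure S := by
        intro u g w h
        induction h with
        | one h => intro _; simp
        | @of u g w hu hw h =>
          intro hu'
          rcases hE u g w hu hw h with hz | ⟨h1, h2⟩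
          · apply Subgroup.subset_closure
            refine Or.inl (Or.inr ⟨(u, g, w), ⟨hz, hu', .of hu hw h⟩, rfl⟩)
          · have h3 : ∀ h ∈ H (ρ u), (c (ρ u))⁻¹ * h * c (ρ u) ∈ Subgroup.closure S := by
              intro h hh
              rw [← hs (ρ u)] at hh
              induction hh using Subgroup.closure_induction with
              | mem x hx =>
                apply Subgroup.subset_closure
                refine Or.inl (Or.inl ?_)
                rw [Set.mem_iUnion₂]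
                exact ⟨ρ u, ⟨u, hu, rfl, hu'⟩, ⟨x, hx, rfl⟩⟩
              | one => simp
              | mul x y _ _ hx hy =>
                have e : (c (ρ u))⁻¹ * (x * y) * c (ρ u) =
                  ((c (ρ u))⁻¹ * x * c (ρ u)) * ((c (ρ u))⁻¹ * y * c (ρ u)) := by group
                rw [e]
                exact Subgroup.mul_mem _ hx hy
              | inv x _ hx =>
                have e : (c (ρ u))⁻¹ * x⁻¹ * c (ρ u) = ((c (ρ u))⁻¹ * x * c (ρ u))⁻¹ := by group
                rw [e]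
                exact Subgroup.inv_mem _ hx
            have h4 := h3 _ h2
            have e : (T u)⁻¹ * g * T w = (c (ρ u))⁻¹ * ((τ u)⁻¹ * g * τ w) * c (ρ u) := by
              show (τ u * c (ρ u))⁻¹ * g * (τ w * c (ρ w)) = _
              rw [← h1]
              group
            rw [e]
            exact h4
        | @inv u g w h ih =>
          intro hw
          have hu : con u := by
            obtain ⟨k, hk⟩ := hw
            exact ⟨_, h.mul hk⟩
          have h1 := Subgroup.inv_mem _ (ih hu)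
          have e : (T w)⁻¹ * g⁻¹ * T u = ((T u)⁻¹ * g * T w)⁻¹ := by group
          rw [e]
          exact h1
        | @mul u g v h w h1 h2 ih1 ih2 =>
          intro hu
          have hv : con v := by
            obtain ⟨k, hk⟩ := hu
            exact ⟨_, h1.inv.mul hk⟩
          have h3 := Subgroup.mul_mem _ (ih1 hu) (ih2 hv)
          have e : (T u)⁻¹ * (g * h) * T w = ((T u)⁻¹ * g * T v) * ((T v)⁻¹ * h * T w) := by group
          rw [e]
          exact h3
      have h1 := claim a g a hg hcona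
      have hTa : T a ∈ Subgroup.closure S := Subgroup.subset_closure (Or.inr rfl)
      have e : g = T a * ((T a)⁻¹ * g * T a) * (T a)⁻¹ := by group
      rw [e]
      exact Subgroup.mul_mem _ (Subgroup.mul_mem _ hTa h1) (Subgroup.inv_mem _ hTa)
    · rw [Subgroup.closure_le]
      rintro g ((hg | ⟨⟨u, g, w⟩, ⟨hz, hu, hg⟩, rfl⟩) | rfl)
      · rw [Set.mem_iUnion₂] at hg
        obtain ⟨j, ⟨u, hu, rfl, hu'⟩, x, hx, rfl⟩ := hg
        apply Subgroup.subset_closure
        have hx' : x ∈ H (ρ u) := by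
          rw [← hs (ρ u)]
          exact Subgroup.subset_closure hx
        have h1 := hc (ρ u) (hcon u hu hu')
        exact (h1.inv.mul (hHA u hu x hx')).mul h1
      · apply Subgroup.subset_closure
        have h1 : con w := by
          obtain ⟨k, hk⟩ := hu
          exact ⟨_, hg.inv.mul hk⟩
        exact ((hT u hg.mem.1 hu).inv.mul hg).mul (hT w hg.mem.2 h1)
      · exact Subgroup.subset_closure (hT a ha hcona)
  rw [key]
  exact ⟨hSfin.toFinset, by rw [Set.Finite.coe_toFinset]⟩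

open Classical in
/-- data describing a groupoid with finitely many components and f.g. vertex groups -/
theorem exists_data {U : Set Ω} {A : Ω → Γ → Ω → Prop} (hA : Gpd U A) (hF : FGs U A) [Inhabited Ω] :
    ∃ (J : Type u) (_ : Finite J) (_ : Inhabited J) (r : J → Ω) (ρ : Ω → J) (τ : Ω → Γ),
      (∀ j, (Subgroup.closure {g | A (r j) g (r j)}).FG) ∧ (∀ u ∈ U, r (ρ u) ∈ U) ∧
      (∀ u ∈ U, A u (τ u) (r (ρ u))) ∧
      (∀ u g w, A u g w → ρ u = ρ w ∧ (τ u)⁻¹ * g * τ w ∈ Subgroup.closure {g | A (r (ρ u)) g (r (ρ u))}) := by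
  obtain ⟨⟨V1, hV1, hcov⟩, hfg⟩ := hF
  let con : Ω → Ω → Prop := fun u w => ∃ g, A u g w
  have hV1' : Finite V1 := hV1
  let r : Set V1 → Ω := fun s => if h : ∃ x : V1, x ∈ s then h.choose.1 else default
  let ρ : Ω → Set V1 := fun u => {w : V1 | con u w.1}
  have hρ : ∀ u ∈ U, con u (r (ρ u)) := by
    intro u hu
    obtain ⟨w, hw, g, hg⟩ := hcov u hu
    have h : ∃ x : V1, x ∈ ρ u := ⟨⟨w, hw⟩, g, hg⟩
    show con u (if h : ∃ x : V1, x ∈ ρ u then h.choose.1 else default)
    rw [dif_pos h]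
    exact h.choose_spec
  let τ : Ω → Γ := fun u => if h : con u (r (ρ u)) then h.choose else 1
  have hτ : ∀ u ∈ U, A u (τ u) (r (ρ u)) := by
    intro u hu
    show A u (if h : con u (r (ρ u)) then h.choose else 1) (r (ρ u))
    rw [dif_pos (hρ u hu)]
    exact (hρ u hu).choose_spec
  refine ⟨Set V1, inferInstance, inferInstance, r, ρ, τ, ?_, ?_, hτ, ?_⟩
  · intro j
    by_cases hj : r j ∈ U
    · exact hfg _ hj
    · have : {g | A (r j) g (r j)} = ∅ := by
        rw [Set.eq_empty_iff_forall_notMem]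
        intro g hg
        exact hj (hA.mem hg).1
      rw [this, Subgroup.closure_empty]
      exact bot_fg
  · intro u hu
    exact (hA.mem (hτ u hu)).2
  · intro u g w h
    have hu := (hA.mem h).1
    have hw := (hA.mem h).2
    have e : ρ u = ρ w := by
      ext x
      constructor
      · rintro ⟨k, hk⟩
        exact ⟨_, hA.mul (hA.inv h) hk⟩
      · rintro ⟨k, hk⟩
        exact ⟨_, hA.mul h hk⟩
    refine ⟨e, Subgroup.subset_closure ?_⟩
    have h1 := hτ w hw
    rw [← e] at h1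
    exact hA.mul (hA.mul (hA.inv (hτ u hu)) h) h1

open Classical in
/-- adding finitely many vertices and arrows -/
theorem fgs_add {U US : Set Ω} {E S : Ω → Γ → Ω → Prop} (hS : Gpd US S) (hF : FGs US S)
    (hU : US ⊆ U) (hfin : (U \ US).Finite) (hSE : ∀ u g w, S u g w → Gen U E u g w)
    (Z : Set (Ω × Γ × Ω)) (hZ : Z.Finite)
    (hE : ∀ u g w, u ∈ U → w ∈ U → E u g w → (u, g, w) ∈ Z ∨ S u g w) : FGs U (Gen U E) := by
  by_cases hne : Nonempty Ω
  swap
  · refine ⟨⟨∅, Set.finite_empty, fun u => (hne ⟨u⟩).elim⟩, fun u => (hne ⟨u⟩).elim⟩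
  let _ : Inhabited Ω := ⟨hne.some⟩
  obtain ⟨J, _, _, r, ρ, τ, h1, h2, h3, h4⟩ := exists_data hS hF
  have hfin' : Finite ↥(U \ US) := hfin
  let r' : J ⊕ ↥(U \ US) → Ω := Sum.elim r Subtype.val
  let H' : J ⊕ ↥(U \ US) → Subgroup Γ :=
    Sum.elim (fun j => Subgroup.closure {g | S (r j) g (r j)}) (fun _ => ⊥)
  let ρ' : Ω → J ⊕ ↥(U \ US) := fun u =>
    if u ∈ US then Sum.inl (ρ u) else if h : u ∈ U \ US then Sum.inr ⟨u, h⟩ else Sum.inl (ρ u)
  let τ' : Ω → Γ := fun u => if u ∈ US then τ u else 1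
  have hρ1 : ∀ u ∈ US, ρ' u = Sum.inl (ρ u) := fun u hu => if_pos hu
  have hρ2 : ∀ u (h : u ∈ U \ US), ρ' u = Sum.inr ⟨u, h⟩ := by
    intro u h
    show (if u ∈ US then _ else if h : u ∈ U \ US then _ else _) = _
    rw [if_neg h.2, dif_pos h]
  have hτ1 : ∀ u ∈ US, τ' u = τ u := fun u hu => if_pos hu
  have hτ2 : ∀ u ∉ US, τ' u = 1 := fun u hu => if_neg hu
  refine fgs_of_data r' H' ?_ ρ' τ' ?_ ?_ Z hZ ?_
  · rintro (j | d)
    · exact h1 j
    · exact bot_fg
  · intro u hu g hg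
    by_cases h : u ∈ US
    · rw [hρ1 u h] at hg ⊢
      exact hSE _ _ _ (hS.mem_closure (h2 u h) hg)
    · rw [hρ2 u ⟨hu, h⟩] at hg ⊢
      have hg' : g = 1 := Subgroup.mem_bot.1 hg
      rw [hg']
      exact .one hu
  · intro u hu
    by_cases h : u ∈ US
    · rw [hρ1 u h, hτ1 u h]
      exact hSE _ _ _ (h3 u h)
    · rw [hρ2 u ⟨hu, h⟩, hτ2 u h]
      exact .one hu
  · intro u g w hu hw h
    rcases hE u g w hu hw h with hz | hs
    · exact Or.inl hz
    · right
      have hu' := (hS.mem hs).1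
      have hw' := (hS.mem hs).2
      obtain ⟨e, h5⟩ := h4 u g w hs
      rw [hρ1 u hu', hρ1 w hw', hτ1 u hu', hτ1 w hw']
      exact ⟨congrArg _ e, h5⟩

end Pool.Agent.R645.TM
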