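import Pool.Agent.R645.TM.Walk

/-! The edge groupoid of a 2-complex. -/

set_option autoImplicit false

namespace Pool.Agent.R645.TM

universe u v w

open Cx

section kg

variable {K : Cx.{u}} (U : Set K.V)

/-- the edges of a complex as arrows -/
def kE (u : K.V) (g : K.Gam U) (w : K.V) : Prop :=
  ∃ e, u = K.src e ∧ w = K.tgt e ∧ g = cls U [(e, true)]

theorem cls_cons (z : K.E × Bool) (l : List (K.E × Bool)) :
    cls U (z :: l) = cls U [z] * cls U l := by
  rw [← cls_append]; rfl

theorem cls_false (e : K.E) : cls U [(e, false)] = (cls U [(e, true)])⁻¹ := by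
  have := cls_rv U [(e, true)]
  exact this

variable {U}

theorem path_gen {u w : K.V} {l : List (K.E × Bool)} (h : K.IsPath U u l w) :
    Gen U (kE U) u (cls U l) w := by
  induction l generalizing u with
  | nil =>
    obtain ⟨h1, rfl⟩ := h
    rw [cls_nil]
    exact .one h1
  | cons z l ih =>
    obtain ⟨h1, rfl, h3⟩ := h
    rw [cls_cons]
    refine Gen.mul ?_ (ih h3)
    have h4 := h3.left
    obtain ⟨e, b⟩ := z
    cases b with
    | true => exact .of h1 h4 ⟨e, rfl, rfl, rfl⟩
    | false =>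
      rw [cls_false]
      exact Gen.inv (.of h4 h1 ⟨e, rfl, rfl, rfl⟩)

theorem gen_path {u w : K.V} {g : K.Gam U} (h : Gen U (kE U) u g w) :
    ∃ l, K.IsPath U u l w ∧ g = cls U l := by
  induction h with
  | one h => exact ⟨[], nil_path h, rfl⟩
  | @of u g w hu hw h =>
    obtain ⟨e, rfl, rfl, rfl⟩ := h
    exact ⟨[(e, true)], IsPath.single (z := (e, true)) hu hw, rfl⟩
  | inv _ ih =>
    obtain ⟨l, h1, rfl⟩ := ih
    exact ⟨_, h1.rev, (cls_rv U l).symm⟩
  | mul _ _ ih1 ih2 =>
    obtain ⟨l, h1, rfl⟩ := ih1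
    obtain ⟨m, h2, rfl⟩ := ih2
    exact ⟨_, h1.append h2, (cls_append U l m).symm⟩

theorem range_eq (b : U) : (toGam (K := K) b).range = Subgroup.closure {g | Gen U (kE U) b.1 g b.1} := by
  apply le_antisymm
  · intro g hg
    rw [mem_range_toGam] at hg
    obtain ⟨l, hl, rfl⟩ := hg
    exact Subgroup.subset_closure (path_gen hl)
  · rw [Subgroup.closure_le]
    intro g hg
    rw [SetLike.mem_coe, mem_range_toGam]
    exact gen_path hg

theorem pi1_fg_of_fgs (h : FGs U (Gen U (kE U))) (b : U) : Group.FG (K.Pi1 U b) := by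
  rw [pi1_fg_iff, range_eq]
  exact h.2 b.1 b.2

end kg

/-- images under a homomorphism of groups -/
theorem fg_map_closure {Γ : Type*} {Γ' : Type*} [Group Γ] [Group Γ'] (f : Γ →* Γ') (S : Set Γ)
    (S' : Set Γ') (h : S' = f '' S) (hS : (Subgroup.closure S).FG) : (Subgroup.closure S').FG := by
  rw [h, ← MonoidHom.map_closure]
  obtain ⟨s, hs⟩ := hS
  classical
  refine ⟨s.image f, ?_⟩
  rw [Finset.coe_image, ← MonoidHom.map_closure, hs]

section base

variable {G : Type u} [Group G] (P : Pres G) {V : Type u} [RAct G V] (U : Set V)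

/-- the tautological cocycle -/
def eps0 (v : V) (x : P.X) : (cov P V).Gam U := cls (K := cov P V) U [((v, x), true)]

theorem ev_eps0 (v : V) (l : List (P.X × Bool)) :
    ev P (eps0 P U) v (FreeGroup.mk l) = cls (K := cov P V) U (walk P v l) := by
  induction l generalizing v with
  | nil => rw [ev_nil]; rfl
  | cons z l ih =>
    rw [ev_cons, walk_cons, cls_cons (K := cov P V) U (se P v z) _, ih]
    congr 1
    obtain ⟨x, b⟩ := z
    cases b with
    | true => rfl
    | false =>
      exact (cls_false (K := cov P V) U (ra v (P.gen x)⁻¹, x)).symm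

theorem isCoc_eps0 : IsCoc P U (eps0 P U) := by
  intro v i h
  rw [ev_eps0]
  have h1 := walk_path P h
  have e : ra v (P.q (FreeGroup.mk (P.rel i))) = v := by rw [q_rel, RAct.ra_one]
  rw [e] at h1
  exact PresentedGroup.one_of_mem ⟨(v, i), v, h1, rfl⟩

theorem base_fg (hT : TameC P V) (hU : Uᶜ.Finite) (b : U) :
    Group.FG ((cov P V).Pi1 U b) := by
  apply pi1_fg_of_fgs
  have h := hT ((cov P V).Gam U) U hU (eps0 P U) (isCoc_eps0 P U)
  have e : edg P (eps0 P U) = kE (K := cov P V) U := by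
    funext u g w
    apply propext
    constructor
    · rintro ⟨x, rfl, rfl⟩
      exact ⟨(u, x), rfl, rfl, rfl⟩
    · rintro ⟨⟨v, x⟩, rfl, rfl, rfl⟩
      exact ⟨x, rfl, rfl⟩
  rw [e] at h
  exact h

end base

end Pool.Agent.R645.TM
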