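import Pool.Agent.R645.TM.Setup

/-! Extensions: pushing vertical arrows, homotopies in the base. -/

set_option autoImplicit false

namespace Pool.Agent.R645.TM

universe u v w

open Cx

section eq

variable {G : Type u} [Group G] {Q : Type u} [Group Q] {f : G →* Q} (T : Setup f) {S : Subgroup G}
variable {Γ : Type u} [Group Γ] (ε : RC S → T.P.X → Γ)

/-- the words `w`, `w'` have the same value and the same end point when read from `v` -/
def EQ (v : RC S) (w w' : FreeGroup T.P.X) : Prop :=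
  ev T.P ε v w = ev T.P ε v w' ∧ T.P.q w = T.P.q w'

variable {T ε}

theorem EQ.refl (v : RC S) (w : FreeGroup T.P.X) : EQ T ε v w w := ⟨rfl, rfl⟩

theorem EQ.symm {v : RC S} {w w' : FreeGroup T.P.X} (h : EQ T ε v w w') : EQ T ε v w' w :=
  ⟨h.1.symm, h.2.symm⟩

theorem EQ.trans {v : RC S} {w w' w'' : FreeGroup T.P.X} (h : EQ T ε v w w')
    (h' : EQ T ε v w' w'') : EQ T ε v w w'' := ⟨h.1.trans h'.1, h.2.trans h'.2⟩

theorem EQ.mul_right {v : RC S} {w w' : FreeGroup T.P.X} (h : EQ T ε v w w')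
    (c : FreeGroup T.P.X) : EQ T ε v (w * c) (w' * c) := by
  constructor
  · rw [ev_mul, ev_mul, h.1, h.2]
  · rw [map_mul, map_mul, h.2]

theorem EQ.mul_left {v : RC S} {w w' : FreeGroup T.P.X} (c : FreeGroup T.P.X)
    (h : EQ T ε (ps T v c) w w') : EQ T ε v (c * w) (c * w') := by
  constructor
  · rw [ev_mul, ev_mul, h.1]
  · rw [map_mul, map_mul, h.2]

theorem LE.of_eq {v : RC S} {w w' : FreeGroup T.P.X} (h : EQ T ε v w w') : LE T ε v w w' :=
  ⟨1, by rw [map_one, mul_one]; exact h.1, by rw [map_one, mul_one]; exact h.2⟩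

theorem LE.of_mul {v : RC S} (w : FreeGroup T.P.X) (n : FreeGroup T.PN.X) :
    LE T ε v w (w * T.α n) := ⟨n, rfl, rfl⟩

end eq

theorem htp_induct {K : Cx.{u}} {U : Set K.V} {u v : K.V}
    (R : List (K.E × Bool) → List (K.E × Bool) → Prop)
    (hrefl : ∀ l, K.IsPath U u l v → R l l) (hsymm : ∀ l l', R l l' → R l' l)
    (htrans : ∀ l l' l'', R l l' → R l' l'' → R l l'')
    (hback : ∀ a b z, R (a ++ z :: (z.1, !z.2) :: b) (a ++ b))
    (hface : ∀ a b f, K.IsPath U u (a ++ K.bd f ++ b) v → R (a ++ K.bd f ++ b) (a ++ b))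
    {l l' : List (K.E × Bool)} (h : K.Htp U u v l l') : R l l' := by
  induction h with
  | refl h => exact hrefl _ h
  | symm _ ih => exact hsymm _ _ ih
  | trans _ _ ih1 ih2 => exact htrans _ _ _ ih1 ih2
  | move h h' hm =>
    cases hm with
    | back a c z => exact hback a c z
    | face a c f => exact hface a c f h

/-- the word read by a path of a covering complex -/
def wd {G : Type u} [Group G] {P : Pres G} {V : Type u} [RAct G V]
    (p : List ((V × P.X) × Bool)) : FreeGroup P.X :=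
  FreeGroup.mk (p.map (fun z => (z.1.2, z.2)))

section wd

variable {G : Type u} [Group G] {P : Pres G} {V : Type u} [RAct G V]

theorem wd_nil : wd (P := P) ([] : List ((V × P.X) × Bool)) = 1 := rfl

theorem wd_append (p p' : List ((V × P.X) × Bool)) : wd (p ++ p') = wd p * wd p' := by
  unfold wd
  rw [List.map_append, FreeGroup.mul_mk]

theorem wd_cons (z : (V × P.X) × Bool) (p : List ((V × P.X) × Bool)) :
    wd (z :: p) = FreeGroup.mk [(z.1.2, z.2)] * wd p := by
  unfold wd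
  rw [List.map_cons, mk_cons]

theorem wd_rev (p : List ((V × P.X) × Bool)) : wd (FreeGroup.invRev p) = (wd p)⁻¹ := by
  unfold wd
  rw [FreeGroup.inv_mk]
  congr 1
  unfold FreeGroup.invRev
  simp [List.map_reverse]

theorem t_eq (z : (V × P.X) × Bool) :
    (cov P V).t z = ra ((cov P V).s z) (P.q (FreeGroup.mk [(z.1.2, z.2)])) := by
  obtain ⟨⟨b, y⟩, s⟩ := z
  rw [q_single]
  cases s with
  | true => rfl
  | false => exact (ra_inv_cancel _ _).symm

theorem path_pos {U : Set V} {b b' : V} {p : List ((V × P.X) × Bool)}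
    (h : (cov P V).IsPath U b p b') : b' = ra b (P.q (wd p)) := by
  induction p generalizing b with
  | nil => rw [wd_nil, map_one, RAct.ra_one, h.2]
  | cons z p ih =>
    have h3 := ih h.2.2
    rw [t_eq, h.2.1] at h3
    rw [wd_cons, map_mul, RAct.ra_mul]
    exact h3

theorem wd_walk (v : V) (l : List (P.X × Bool)) : wd (walk P v l) = FreeGroup.mk l := by
  unfold wd
  congr 1
  induction l generalizing v with
  | nil => rfl
  | cons z l ih =>
    rw [walk_cons, List.map_cons, ih]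
    rfl

end wd

section lift

variable {G : Type u} [Group G] {Q : Type u} [Group Q] {f : G →* Q} (T : Setup f) {S : Subgroup G}
variable {Γ : Type u} [Group Γ] (ε : RC S → T.P.X → Γ) (U' : Set (RC S))

/-- the local relations valid on `U'` -/
structure Loc : Prop where
  relN : ∀ v ∈ U', ∀ i, ev T.P ε v (T.α (FreeGroup.mk (T.PN.rel i))) = 1
  relQ : ∀ i, ∃ n : FreeGroup T.PN.X, ∀ v ∈ U', EQ T ε v (T.β (FreeGroup.mk (T.PQ.rel i))) (T.α n)
  comm : ∀ (x : T.PN.X) (z : T.PQ.X × Bool), ∃ n : FreeGroup T.PN.X, ∀ v ∈ U',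
    EQ T ε v (T.α (FreeGroup.of x) * T.β (FreeGroup.mk [z])) (T.β (FreeGroup.mk [z]) * T.α n)

/-- the bad vertices of the base -/
def A0 : Set (RC (S.map f)) := prj f S '' U'ᶜ

variable {U'} in
theorem mem_of_A0 {v : RC S} (h : prj f S v ∉ A0 U') : v ∈ U' := by
  by_contra hv
  exact h ⟨v, hv, rfl⟩

variable {T ε U'}

theorem push1 (hL : Loc T ε U') (z : T.PQ.X × Bool) (n : FreeGroup T.PN.X) :
    ∀ v, prj f S v ∉ A0 U' → ∃ n' : FreeGroup T.PN.X,
      EQ T ε v (T.α n * T.β (FreeGroup.mk [z])) (T.β (FreeGroup.mk [z]) * T.α n') := by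
  induction n using FreeGroup.induction_on with
  | C1 =>
    intro v _
    refine ⟨1, ?_⟩
    rw [map_one, one_mul, mul_one]
    exact .refl _ _
  | of x =>
    intro v hv
    obtain ⟨n, hn⟩ := hL.comm x z
    exact ⟨n, hn v (mem_of_A0 hv)⟩
  | inv_of x _ =>
    intro v hv
    obtain ⟨n, hn⟩ := hL.comm x z
    have hv' : prj f S (ps T v (T.α (FreeGroup.of x)⁻¹)) ∉ A0 U' := by
      rw [prj_alpha]; exact hv
    have h1 := (hn _ (mem_of_A0 hv')).mul_left
    have h2 := h1.mul_right (T.α n)⁻¹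
    refine ⟨n⁻¹, ?_⟩
    have e1 : T.α (FreeGroup.of x)⁻¹ * (T.α (FreeGroup.of x) * T.β (FreeGroup.mk [z])) *
      (T.α n)⁻¹ = T.β (FreeGroup.mk [z]) * T.α n⁻¹ := by
      rw [map_inv, map_inv]; group
    have e2 : T.α (FreeGroup.of x)⁻¹ * (T.β (FreeGroup.mk [z]) * T.α n) * (T.α n)⁻¹ =
      T.α (FreeGroup.of x)⁻¹ * T.β (FreeGroup.mk [z]) := by group
    rw [e1, e2] at h2
    exact h2.symm
  | mul n n' h h' =>
    intro v hv
    obtain ⟨m', hm'⟩ := h' (ps T v (T.α n)) (by rw [prj_alpha]; exact hv)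
    obtain ⟨m, hm⟩ := h v hv
    refine ⟨m * m', ?_⟩
    have h1 := hm'.mul_left
    have h2 := hm.mul_right (T.α m')
    rw [map_mul, map_mul, mul_assoc]
    refine h1.trans ?_
    rw [← mul_assoc, ← mul_assoc]
    exact h2

theorem prj_step {v : RC S} {z : (RC (S.map f) × T.PQ.X) × Bool}
    (h : (cov T.PQ (RC (S.map f))).s z = prj f S v) :
    prj f S (ps T v (T.β (FreeGroup.mk [(z.1.2, z.2)]))) =
      (cov T.PQ (RC (S.map f))).t z := by
  rw [prj_beta, t_eq, h]

theorem push (hL : Loc T ε U') {p : List ((RC (S.map f) × T.PQ.X) × Bool)}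
    {v : RC S} {b' : RC (S.map f)}
    (hp : (cov T.PQ (RC (S.map f))).IsPath (A0 U')ᶜ (prj f S v) p b')
    (n : FreeGroup T.PN.X) :
    ∃ n' : FreeGroup T.PN.X, EQ T ε v (T.α n * T.β (wd p)) (T.β (wd p) * T.α n') := by
  induction p generalizing v n with
  | nil =>
    refine ⟨n, ?_⟩
    rw [wd_nil, map_one, one_mul, mul_one]
    exact .refl _ _
  | cons z p ih =>
    obtain ⟨h1, h2, h3⟩ := hp
    obtain ⟨m, hm⟩ := push1 hL (z.1.2, z.2) n v h1
    rw [← prj_step h2] at h3
    obtain ⟨m', hm'⟩ := ih h3 m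
    refine ⟨m', ?_⟩
    rw [wd_cons, map_mul, ← mul_assoc]
    refine (hm.mul_right _).trans ?_
    rw [mul_assoc, mul_assoc]
    exact hm'.mul_left

theorem prj_path {p : List ((RC (S.map f) × T.PQ.X) × Bool)}
    {v : RC S} {b' : RC (S.map f)} {W : Set (RC (S.map f))}
    (hp : (cov T.PQ (RC (S.map f))).IsPath W (prj f S v) p b') :
    prj f S (ps T v (T.β (wd p))) = b' := by
  rw [prj_beta, ← path_pos hp]

/-- homotopic paths of the base have lifts which differ by a vertical arrow -/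
theorem htp_lift (hL : Loc T ε U') {b b' : RC (S.map f)}
    {p p' : List ((RC (S.map f) × T.PQ.X) × Bool)}
    (h : (cov T.PQ (RC (S.map f))).Htp (A0 U')ᶜ b b' p p') :
    ∀ v : RC S, prj f S v = b → LE T ε v (T.β (wd p)) (T.β (wd p')) := by
  refine htp_induct (K := cov T.PQ (RC (S.map f)))
    (fun p p' => ∀ v : RC S, prj f S v = b → LE T ε v (T.β (wd p)) (T.β (wd p')))
    ?_ ?_ ?_ ?_ ?_ h
  · intro l _ v _
    exact LE.refl v _
  · intro l l' ih v hv
    exact (ih v hv).symm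
  · intro l l' l'' ih1 ih2 v hv
    exact (ih1 v hv).trans (ih2 v hv)
  · intro a c z v hv
    have e : wd (P := T.PQ) (a ++ z :: (z.1, !z.2) :: c) = wd (a ++ c) := by
      rw [wd_append, wd_append, wd_cons, wd_cons, ← mul_assoc, ← mul_assoc]
      congr 1
      have e2 : FreeGroup.mk [(z.1.2, !z.2)] = (FreeGroup.mk [(z.1.2, z.2)])⁻¹ := by
        rw [FreeGroup.inv_mk]; rfl
      show wd a * FreeGroup.mk [(z.1.2, z.2)] * FreeGroup.mk [(z.1.2, !z.2)] = wd a
      rw [e2, mul_inv_cancel_right]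
    rw [e]
    exact LE.refl v _
  · intro a c f h v hv
    rw [List.append_assoc] at h
    obtain ⟨b1, h1, h2⟩ := h.split
    obtain ⟨b2, h3, h4⟩ := h2.split
    subst hv
    obtain ⟨b0, i⟩ := f
    have e3 : wd (P := T.PQ) ((cov T.PQ (RC (S.map f))).bd (b0, i)) =
      FreeGroup.mk (T.PQ.rel i) := wd_walk b0 (T.PQ.rel i)
    have h3' := path_pos h3
    rw [e3, q_rel, RAct.ra_one] at h3'
    subst h3'
    have hp1 := prj_path h1
    obtain ⟨nr, hnr⟩ := hL.relQ i
    have k1 := hnr (ps T v (T.β (wd a))) (mem_of_A0 (by rw [hp1]; exact h4.left))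
    rw [← hp1] at h4
    obtain ⟨n', hn'⟩ := push hL h4 nr
    have k2 := ((k1.mul_right (T.β (wd c))).trans hn').mul_left
    apply LE.symm
    refine ⟨n', ?_⟩
    rw [wd_append, wd_append, wd_append, e3, map_mul T.β, map_mul T.β, map_mul T.β]
    have k3 := k2.symm
    rw [← mul_assoc, ← mul_assoc] at k3
    exact k3

end lift

end Pool.Agent.R645.TM
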