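import Pool.Agent.R645.TM.Prod

/-! Final forms. -/

set_option autoImplicit false

namespace Pool.Agent.R645.TM

universe u v w

open Cx

theorem tameC_of_tame {G : Type u} [Group G] {P : Pres G} {K : Subgroup G} (h : Tame P K) :
    TameC P (RC K) := by
  refine tameC_of_tameV P h (RC.mk K 1) ?_
  intro v
  obtain ⟨g, rfl⟩ := v.exists_rep
  exact ⟨g⁻¹, by rw [RC.ra_mk, mul_inv_cancel]⟩

/-- extension theorem, strong form -/
theorem ext_main {G : Type u} [Group G] (N : Subgroup G)
    [N.Normal] (hN : ∃ P : Pres N, ∀ K : Subgroup N, K.FG → Tame P K)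
    (hQ : ∃ P : Pres (G ⧸ N), ∀ K : Subgroup (G ⧸ N), K.FG → Tame P K)
    (hfgip : ∀ S : Subgroup G, S.FG → (N ⊓ S).FG) (P : Pres G) (S : Subgroup G) (hS : S.FG) :
    Tame P S := by
  have e : (QuotientGroup.mk' N).ker = N := QuotientGroup.ker_mk' N
  have hN' : ∃ P : Pres (QuotientGroup.mk' N).ker,
      ∀ K : Subgroup (QuotientGroup.mk' N).ker, K.FG → Tame P K := by
    rw [e]; exact hN
  obtain ⟨PN, h1⟩ := hN'
  obtain ⟨PQ, h2⟩ := hQ
  exact ext_tame (QuotientGroup.mk'_surjective N) P PN PQ (fun K hK => tameC_of_tame (h1 K hK))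
    (fun K hK => tameC_of_tame (h2 K hK)) (by rw [e]; exact hfgip) S hS

/-- tameness does not depend on the finite presentation -/
theorem indep_main {G : Type u} [Group G] (P P' : Pres G)
    (h : ∀ K : Subgroup G, K.FG → Tame P K) (S : Subgroup G) (hS : S.FG) : Tame P' S :=
  tame_indep P P' (fun K hK => tameC_of_tame (h K hK)) S hS

theorem fg_of_cyclic (K : Type*) [Group K] [IsCyclic K] : Group.FG K := by
  obtain ⟨g, hg⟩ := IsCyclic.exists_generator (α := K)
  refine ⟨⟨{g}, ?_⟩⟩
  rw [eq_top_iff]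
  intro x _
  rw [Finset.coe_singleton]
  obtain ⟨k, rfl⟩ := hg x
  exact Subgroup.zpow_mem _ (Subgroup.subset_closure (Set.mem_singleton g)) k

/-- products with the infinite cyclic group, strong form -/
theorem prod_main {H : Type u} [Group H] (PH : Pres H)
    (hH : ∀ K : Subgroup H, K.FG → Tame PH K) (P : Pres (H × Multiplicative ℤ))
    (S : Subgroup (H × Multiplicative ℤ)) (hS : S.FG) : Tame P S := by
  let f : H × Multiplicative ℤ →* H := MonoidHom.fst H (Multiplicative ℤ)
  have hf : Function.Surjective f := fun h => ⟨(h, 1), rfl⟩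
  let t : f.ker := ⟨(1, Multiplicative.ofAdd 1), rfl⟩
  have hpow : ∀ k : ℤ, ((t ^ k : f.ker) : H × Multiplicative ℤ) = (1, Multiplicative.ofAdd k) := by
    intro k
    rw [Subgroup.coe_zpow]
    show ((1 : H), Multiplicative.ofAdd (1 : ℤ)) ^ k = _
    ext
    · show (1 : H) ^ k = 1
      rw [one_zpow]
    · show (Multiplicative.ofAdd (1 : ℤ)) ^ k = Multiplicative.ofAdd k
      rw [← ofAdd_zsmul]
      simp
  have ht : ∀ g : f.ker, ∃ k : ℤ, t ^ k = g := by
    rintro ⟨⟨h, z⟩, hg⟩
    refine ⟨Multiplicative.toAdd z, ?_⟩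
    apply Subtype.ext
    rw [hpow]
    have h1 : h = 1 := hg
    subst h1
    rfl
  have hinf : ∀ k : ℤ, t ^ k = 1 → k = 0 := by
    intro k hk
    have h1 := congrArg (Subtype.val) hk
    rw [hpow] at h1
    exact congrArg (fun z : H × Multiplicative ℤ => Multiplicative.toAdd z.2) h1
  have hcyc : IsCyclic f.ker := ⟨t, ht⟩
  refine ext_tame hf P (presZ t ht hinf) PH (fun K _ => tameC_presZ t ht hinf K)
    (fun K hK => tameC_of_tame (hH K hK)) ?_ S hS
  intro S' _
  have h1 : (S'.subgroupOf f.ker).FG := by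
    rw [← Group.fg_iff_subgroup_fg]
    exact fg_of_cyclic _
  have h2 := fg_map f.ker.subtype _ h1
  rw [Subgroup.subgroupOf_map_subtype, inf_comm] at h2
  exact h2

end Pool.Agent.R645.TM
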