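import Pool.Agent.R645.TM.Bridge
import Pool.Agent.R645.TM.Gen

/-! Finite presentations, covering complexes, barycentric subdivision, tame subgroups. -/

set_option autoImplicit false

namespace Pool.Agent.R645.TM

universe u v

/-- A finite presentation of the group `G`: finite sets `X` of generators and `ι` of relators; the
generator `x` represents the element `gen x` of `G`, the relator `rel i` is a nonempty word in the
letters `x = (x, true)` and `x⁻¹ = (x, false)`; the map from the free group is onto and its kernel
is the normal closure of the relators. -/
structure Pres (G : Type u) [Group G] where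
  X : Type
  ι : Type
  finX : Finite X
  finι : Finite ι
  gen : X → G
  rel : ι → List (X × Bool)
  rel_ne : ∀ i, rel i ≠ []
  surj : Function.Surjective (FreeGroup.lift gen)
  ker : (FreeGroup.lift gen).ker =
    Subgroup.normalClosure (Set.range fun i => FreeGroup.mk (rel i))

/-- the homomorphism from the free group -/
abbrev Pres.q {G : Type u} [Group G] (P : Pres G) : FreeGroup P.X →* G := FreeGroup.lift P.gen

/-- A right action of the group `G` on `V`. -/
class RAct (G : Type u) [Group G] (V : Type v) where
  ra : V → G → V
  ra_one : ∀ x : V, ra x 1 = x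
  ra_mul : ∀ (x : V) (g h : G), ra x (g * h) = ra (ra x g) h

export RAct (ra)

/-- The set of right cosets `H \ G`. -/
def RC {G : Type u} [Group G] (H : Subgroup G) : Type u := Quotient (QuotientGroup.rightRel H)

/-- the right coset `H g` -/
def RC.mk {G : Type u} [Group G] (H : Subgroup G) (g : G) : RC H :=
  Quotient.mk (QuotientGroup.rightRel H) g

/-- The group `G` acts on the right cosets of `H` by right multiplication. -/
instance RC.ract {G : Type u} [Group G] (H : Subgroup G) : RAct G (RC H) where
  ra x g := Quotient.map (fun a => a * g) (by
    intro a b h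
    have h' : b * a⁻¹ ∈ H := QuotientGroup.rightRel_apply.1 h
    apply QuotientGroup.rightRel_apply.2
    have e : b * g * (a * g)⁻¹ = b * a⁻¹ := by group
    rw [e]
    exact h') x
  ra_one := by
    rintro ⟨a⟩
    show RC.mk H (a * 1) = RC.mk H a
    rw [mul_one]
  ra_mul := by
    rintro ⟨a⟩ g h
    show RC.mk H (a * (g * h)) = RC.mk H (a * g * h)
    rw [mul_assoc]

theorem RC.ra_mk {G : Type u} [Group G] (H : Subgroup G) (a g : G) :
    ra (RC.mk H a) g = RC.mk H (a * g) := rfl

theorem RC.exists_rep {G : Type u} [Group G] {H : Subgroup G} (v : RC H) : ∃ g, v = RC.mk H g := by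
  obtain ⟨g⟩ := v
  exact ⟨g, rfl⟩

theorem RC.mk_eq {G : Type u} [Group G] {H : Subgroup G} {a b : G} :
    RC.mk H a = RC.mk H b ↔ b * a⁻¹ ∈ H := by
  rw [← QuotientGroup.rightRel_apply]
  exact Quotient.eq

section cov

variable {G : Type u} [Group G] (P : Pres G)

/-- The list of signed edges traversed when the word `l` is read starting at the vertex `v`; the
edge `(v, x)` goes from `v` to `v x`. -/
def walk {V : Type u} [RAct G V] : V → List (P.X × Bool) → List ((V × P.X) × Bool)
  | _, [] => []
  | v, (x, true) :: l => ((v, x), true) :: walk (ra v (P.gen x)) l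
  | v, (x, false) :: l => ((ra v (P.gen x)⁻¹, x), false) :: walk (ra v (P.gen x)⁻¹) l

/-- The covering complex with vertex set `V`.  For `V = RC H = H \ G` this is the covering space
`T_H` of the presentation 2-complex corresponding to the subgroup `H`: one edge `(v, x)` from `v`
to `v x` for each vertex `v` and generator `x`, and one 2-cell `(v, i)` for each vertex `v` and
each relator `i`, attached along the path starting at `v` which reads the relator. -/
abbrev cov (V : Type u) [RAct G V] : Cx.{u} where
  V := V
  E := V × P.X
  F := V × P.ι
  src z := z.1
  tgt z := ra z.1 (P.gen z.2)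
  bd f := walk P f.1 (P.rel f.2)

end cov

/-- The cells of a 2-complex. -/
inductive Cell (K : Cx.{u}) : Type u
  | v (p : K.V) : Cell K
  | e (x : K.E) : Cell K
  | f (r : K.F) : Cell K

/-- The edges of the barycentric subdivision: `half x b` joins (the barycentre of) the edge `x` to
its source (`b = false`) or its target (`b = true`); `side r i` joins the 2-cell `r` to the `i`-th
edge of its boundary path; `corner r i` joins the 2-cell `r` to the initial vertex of the `i`-th
signed edge of its boundary path. -/
inductive SdE (K : Cx.{u}) : Type u
  | half (x : K.E) (b : Bool) : SdE K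
  | side (r : K.F) (i : Fin (K.bd r).length) : SdE K
  | corner (r : K.F) (i : Fin (K.bd r).length) : SdE K

/-- the initial vertex of an edge of the barycentric subdivision -/
def SdE.src {K : Cx.{u}} : SdE K → Cell K
  | .half x _ => .e x
  | .side r _ => .f r
  | .corner r _ => .f r

/-- the final vertex of an edge of the barycentric subdivision -/
def SdE.tgt {K : Cx.{u}} : SdE K → Cell K
  | .half x b => .v (if b then K.tgt x else K.src x)
  | .side r i => .e ((K.bd r).get i).1
  | .corner r i => .v (K.s ((K.bd r).get i))

/-- the cyclic successor -/
def nxt {n : ℕ} (i : Fin n) : Fin n := ⟨(i.1 + 1) % n, Nat.mod_lt _ (lt_of_le_of_lt (Nat.zero_le _) i.2)⟩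

/-- The triangles of the barycentric subdivision: the triangle `(r, i, b)` is spanned by the
2-cell `r`, the `i`-th edge of the boundary path of `r` and the initial (`b = false`) or final
(`b = true`) vertex of the `i`-th signed edge of this path. -/
structure Tri (K : Cx.{u}) : Type u where
  r : K.F
  i : Fin (K.bd r).length
  b : Bool

/-- the half edge of a triangle: it joins the `i`-th edge to its initial or final vertex -/
def Tri.mid {K : Cx.{u}} (z : Tri K) : SdE K :=
  .half ((K.bd z.r).get z.i).1 (if z.b then ((K.bd z.r).get z.i).2 else !((K.bd z.r).get z.i).2)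

/-- the boundary path of a triangle -/
def Tri.bd {K : Cx.{u}} (z : Tri K) : List (SdE K × Bool) :=
  [(.side z.r z.i, true), (z.mid, true), (.corner z.r (if z.b then nxt z.i else z.i), false)]

/-- The barycentric subdivision of a 2-complex; its vertices are the cells. -/
abbrev Sd (K : Cx.{u}) : Cx.{u} where
  V := Cell K
  E := SdE K
  F := Tri K
  src := SdE.src
  tgt := SdE.tgt
  bd := Tri.bd

/-- `C` is (the set of cells of) a finite subcomplex of `K`. -/
structure IsFinSub (K : Cx.{u}) (C : Set (Cell K)) : Prop where
  fin : C.Finite
  edge : ∀ x, Cell.e x ∈ C → Cell.v (K.src x) ∈ C ∧ Cell.v (K.tgt x) ∈ C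
  face : ∀ r, Cell.f r ∈ C → ∀ z ∈ K.bd r, Cell.e z.1 ∈ C

/-- The subgroup `H` is tame with respect to the finite presentation `P` of `G`: for each finite
subcomplex `C` of the covering space `T_H` of the presentation 2-complex, every component of the
complement of `C` has finitely generated fundamental group.  The complement of `C` is replaced by
the full subcomplex of the barycentric subdivision of `T_H` on (the barycentres of) the cells that
are not in `C`, to which it deformation retracts; `c` is the base point. -/
def Tame {G : Type u} [Group G] (P : Pres G) (H : Subgroup G) : Prop :=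
  ∀ C : Set (Cell (cov P (RC H))), IsFinSub (cov P (RC H)) C →
    ∀ c : (Cᶜ : Set (Cell (cov P (RC H)))), Group.FG ((Sd (cov P (RC H))).Pi1 Cᶜ c)

end Pool.Agent.R645.TM
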