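import Pool.Agent.R645.TM.Zed

/-! The product with an infinite cyclic group. -/

set_option autoImplicit false

namespace Pool.Agent.R645.TM

universe u v w

open Cx

section pres

variable {H : Type u} [Group H] (P : Pres H)

/-- the relators of the product -/
def relZ : P.ι ⊕ P.X → List ((P.X ⊕ Unit) × Bool)
  | Sum.inl i => (P.rel i).map (fun z => (Sum.inl z.1, z.2))
  | Sum.inr x => [(Sum.inl x, true), (Sum.inr (), true), (Sum.inl x, false), (Sum.inr (), false)]

/-- the generators of the product -/
def genZ : P.X ⊕ Unit → H × Multiplicative ℤ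
  | Sum.inl x => (P.gen x, 1)
  | Sum.inr _ => (1, Multiplicative.ofAdd 1)

/-- inclusion of free groups -/
def incF : FreeGroup P.X →* FreeGroup (P.X ⊕ Unit) := FreeGroup.lift fun x => FreeGroup.of (Sum.inl x)

theorem incF_mk (l : List (P.X × Bool)) :
    incF P (FreeGroup.mk l) = FreeGroup.mk (l.map (fun z => (Sum.inl z.1, z.2))) := by
  induction l with
  | nil => rfl
  | cons z l ih =>
    rw [mk_cons z l, map_mul, ih, List.map_cons,
      mk_cons ((Sum.inl z.1, z.2) : (P.X ⊕ Unit) × Bool) (l.map _)]
    congr 1
    obtain ⟨x, b⟩ := z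
    cases b with
    | true =>
      have h : FreeGroup.mk [(x, true)] = FreeGroup.of x := rfl
      rw [h, incF, FreeGroup.lift_apply_of]
      rfl
    | false =>
      have h : FreeGroup.mk [(x, false)] = (FreeGroup.of x)⁻¹ := rfl
      rw [h, incF, map_inv, FreeGroup.lift_apply_of]
      rfl

/-- projection to the free group of `H` -/
def prX : FreeGroup (P.X ⊕ Unit) →* FreeGroup P.X :=
  FreeGroup.lift (Sum.elim FreeGroup.of fun _ => 1)

/-- the exponent sum of the new letter -/
def prT : FreeGroup (P.X ⊕ Unit) →* Multiplicative ℤ :=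
  FreeGroup.lift (Sum.elim (fun _ => 1) fun _ => Multiplicative.ofAdd 1)

/-- the normal subgroup generated by the relators -/
def NcZ : Subgroup (FreeGroup (P.X ⊕ Unit)) :=
  Subgroup.normalClosure (Set.range fun i => FreeGroup.mk (relZ P i))

instance : (NcZ P).Normal := Subgroup.normalClosure_normal

theorem comm_t (x : P.X) : Commute (QuotientGroup.mk' (NcZ P) (FreeGroup.of (Sum.inl x)))
    (QuotientGroup.mk' (NcZ P) (FreeGroup.of (Sum.inr ()))) := by
  have h : FreeGroup.mk (relZ P (Sum.inr x)) ∈ NcZ P :=
    Subgroup.subset_normalClosure ⟨Sum.inr x, rfl⟩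
  have h1 : QuotientGroup.mk' (NcZ P) (FreeGroup.mk (relZ P (Sum.inr x))) = 1 := by
    rw [← MonoidHom.mem_ker, QuotientGroup.ker_mk']
    exact h
  have h2 : FreeGroup.mk (relZ P (Sum.inr x)) = FreeGroup.of (Sum.inl x) * FreeGroup.of (Sum.inr ()) *
      (FreeGroup.of (Sum.inl x))⁻¹ * (FreeGroup.of (Sum.inr ()))⁻¹ := rfl
  rw [h2, map_mul, map_mul, map_mul, map_inv, map_inv, mul_inv_eq_one, mul_inv_eq_iff_eq_mul] at h1
  exact h1

/-- the new letter is central -/
theorem central_t (w : FreeGroup (P.X ⊕ Unit)) : Commute (QuotientGroup.mk' (NcZ P) w)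
    (QuotientGroup.mk' (NcZ P) (FreeGroup.of (Sum.inr ()))) := by
  induction w using FreeGroup.induction_on with
  | C1 => rw [map_one]; exact Commute.one_left _
  | of x =>
    rcases x with x | x
    · exact comm_t P x
    · exact Commute.refl _
  | inv_of x h => rw [map_inv]; exact h.inv_left
  | mul x y hx hy => rw [map_mul]; exact hx.mul_left hy

/-- normal form in the quotient -/
theorem normal_form (w : FreeGroup (P.X ⊕ Unit)) : QuotientGroup.mk' (NcZ P) w =
    QuotientGroup.mk' (NcZ P) (incF P (prX P w)) *
      QuotientGroup.mk' (NcZ P) (FreeGroup.of (Sum.inr ())) ^ (Multiplicative.toAdd (prT P w)) := by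
  induction w using FreeGroup.induction_on with
  | C1 => rw [map_one, map_one, map_one, map_one, map_one, toAdd_one, zpow_zero, mul_one]
  | of x =>
    rcases x with x | x
    · rw [prX, prT, FreeGroup.lift_apply_of, FreeGroup.lift_apply_of]
      show _ = QuotientGroup.mk' (NcZ P) (incF P (FreeGroup.of x)) * _ ^ (0 : ℤ)
      rw [incF, FreeGroup.lift_apply_of, zpow_zero, mul_one]
    · rw [prX, prT, FreeGroup.lift_apply_of, FreeGroup.lift_apply_of]
      show _ = QuotientGroup.mk' (NcZ P) (incF P 1) * _ ^ (1 : ℤ)
      rw [map_one, map_one, one_mul, zpow_one]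
  | inv_of x h =>
    have hc := (central_t P (incF P (prX P (FreeGroup.of x)))).zpow_right
      (Multiplicative.toAdd (prT P (FreeGroup.of x)))
    rw [map_inv, h, map_inv (prX P), map_inv (incF P), map_inv (prT P), toAdd_inv, zpow_neg,
      map_inv (QuotientGroup.mk' (NcZ P)), mul_inv_rev]
    exact (hc.inv_inv).eq.symm
  | mul x y hx hy =>
    have hc := (central_t P (incF P (prX P y))).zpow_right (Multiplicative.toAdd (prT P x))
    rw [map_mul, hx, hy, map_mul (prX P), map_mul (incF P), map_mul (prT P), toAdd_mul, zpow_add,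
      map_mul (QuotientGroup.mk' (NcZ P))]
    calc _ = QuotientGroup.mk' (NcZ P) (incF P (prX P x)) *
        (QuotientGroup.mk' (NcZ P) (FreeGroup.of (Sum.inr ())) ^ (Multiplicative.toAdd (prT P x)) *
        QuotientGroup.mk' (NcZ P) (incF P (prX P y))) *
        QuotientGroup.mk' (NcZ P) (FreeGroup.of (Sum.inr ())) ^ (Multiplicative.toAdd (prT P y)) := by
          group
      _ = _ := by rw [← hc.eq]; group

theorem lift_genZ (w : FreeGroup (P.X ⊕ Unit)) :
    FreeGroup.lift (genZ P) w = (P.q (prX P w), prT P w) := by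
  have h : FreeGroup.lift (genZ P) = (P.q.comp (prX P)).prod (prT P) := by
    apply FreeGroup.ext_hom
    rintro (x | x)
    · rw [FreeGroup.lift_apply_of]
      show (P.gen x, 1) = (P.q (prX P (FreeGroup.of (Sum.inl x))), prT P (FreeGroup.of (Sum.inl x)))
      rw [prX, prT, FreeGroup.lift_apply_of, FreeGroup.lift_apply_of]
      show _ = (FreeGroup.lift P.gen (FreeGroup.of x), _)
      rw [FreeGroup.lift_apply_of]
      rfl
    · rw [FreeGroup.lift_apply_of]
      show (1, Multiplicative.ofAdd 1) =
        (P.q (prX P (FreeGroup.of (Sum.inr x))), prT P (FreeGroup.of (Sum.inr x)))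
      rw [prX, prT, FreeGroup.lift_apply_of, FreeGroup.lift_apply_of]
      show _ = (FreeGroup.lift P.gen 1, _)
      rw [(FreeGroup.lift P.gen).map_one]
      rfl
  rw [h]
  rfl

/-- the presentation of `H × ℤ` -/
def presProd : Pres (H × Multiplicative ℤ) where
  X := P.X ⊕ Unit
  ι := P.ι ⊕ P.X
  finX := by
    have := P.finX
    infer_instance
  finι := by
    have := P.finX
    have := P.finι
    infer_instance
  gen := genZ P
  rel := relZ P
  rel_ne := by
    rintro (i | x)
    · intro h
      exact P.rel_ne i (List.map_eq_nil_iff.1 h)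
    · intro h
      cases h
  surj := by
    rintro ⟨h, z⟩
    obtain ⟨w, hw⟩ := P.surj h
    refine ⟨incF P w * FreeGroup.of (Sum.inr ()) ^ (Multiplicative.toAdd z), ?_⟩
    have h1 : prX P (incF P w) = w := by
      have : (prX P).comp (incF P) = MonoidHom.id _ := by
        apply FreeGroup.ext_hom
        intro x
        rw [MonoidHom.comp_apply, incF, FreeGroup.lift_apply_of, prX, FreeGroup.lift_apply_of]
        rfl
      exact DFunLike.congr_fun this w
    have h2 : prT P (incF P w) = 1 := by
      have : (prT P).comp (incF P) = 1 := by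
        apply FreeGroup.ext_hom
        intro x
        rw [MonoidHom.comp_apply, incF, FreeGroup.lift_apply_of, prT, FreeGroup.lift_apply_of]
        rfl
      exact DFunLike.congr_fun this w
    rw [lift_genZ, map_mul, h1, map_mul (prT P), h2, map_zpow, map_zpow, one_mul]
    have h3 : prX P (FreeGroup.of (Sum.inr ())) = 1 := by
      rw [prX, FreeGroup.lift_apply_of]; rfl
    have h4 : prT P (FreeGroup.of (Sum.inr ())) = Multiplicative.ofAdd 1 := by
      rw [prT, FreeGroup.lift_apply_of]; rfl
    rw [h3, h4, one_zpow, mul_one]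
    have h5 : P.q w = h := hw
    rw [h5, ← ofAdd_zsmul]
    simp
  ker := by
    apply le_antisymm
    · intro w hw
      rw [MonoidHom.mem_ker, lift_genZ] at hw
      obtain ⟨h1, h2⟩ := Prod.mk.inj hw
      have h3 := normal_form P w
      rw [h2, toAdd_one, zpow_zero, mul_one] at h3
      have h4 : incF P (prX P w) ∈ NcZ P := by
        have h5 : prX P w ∈ Subgroup.normalClosure (Set.range fun i => FreeGroup.mk (P.rel i)) := by
          rw [← P.ker]
          exact h1
        have h6 : Subgroup.normalClosure (Set.range fun i => FreeGroup.mk (P.rel i)) ≤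
            (NcZ P).comap (incF P) := by
          apply Subgroup.normalClosure_le_normal
          rintro _ ⟨i, rfl⟩
          show incF P (FreeGroup.mk (P.rel i)) ∈ NcZ P
          rw [incF_mk]
          exact Subgroup.subset_normalClosure ⟨Sum.inl i, rfl⟩
        exact h6 h5
      have h7 : QuotientGroup.mk' (NcZ P) (incF P (prX P w)) = 1 := by
        rw [← MonoidHom.mem_ker, QuotientGroup.ker_mk']
        exact h4
      rw [h7] at h3
      have h8 : w ∈ (QuotientGroup.mk' (NcZ P)).ker := h3
      rw [QuotientGroup.ker_mk'] at h8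
      exact h8
    · apply Subgroup.normalClosure_le_normal
      rintro _ ⟨i | x, rfl⟩
      · rw [SetLike.mem_coe, MonoidHom.mem_ker]
        show FreeGroup.lift (genZ P) (FreeGroup.mk ((P.rel i).map (fun z => (Sum.inl z.1, z.2)))) = 1
        rw [← incF_mk, lift_genZ]
        have h1 : prX P (incF P (FreeGroup.mk (P.rel i))) = FreeGroup.mk (P.rel i) := by
          have : (prX P).comp (incF P) = MonoidHom.id _ := by
            apply FreeGroup.ext_hom
            intro x
            rw [MonoidHom.comp_apply, incF, FreeGroup.lift_apply_of, prX, FreeGroup.lift_apply_of]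
            rfl
          exact DFunLike.congr_fun this _
        have h2 : prT P (incF P (FreeGroup.mk (P.rel i))) = 1 := by
          have : (prT P).comp (incF P) = 1 := by
            apply FreeGroup.ext_hom
            intro x
            rw [MonoidHom.comp_apply, incF, FreeGroup.lift_apply_of, prT, FreeGroup.lift_apply_of]
            rfl
          exact DFunLike.congr_fun this _
        rw [h1, h2, q_rel]
        rfl
      · rw [SetLike.mem_coe, MonoidHom.mem_ker]
        have h2 : FreeGroup.mk (relZ P (Sum.inr x)) = FreeGroup.of (Sum.inl x) *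
          FreeGroup.of (Sum.inr ()) * (FreeGroup.of (Sum.inl x))⁻¹ *
          (FreeGroup.of (Sum.inr ()))⁻¹ := rfl
        show FreeGroup.lift (genZ P) (FreeGroup.mk (relZ P (Sum.inr x))) = 1
        rw [h2, map_mul, map_mul, map_mul, map_inv, map_inv, FreeGroup.lift_apply_of,
          FreeGroup.lift_apply_of]
        show (P.gen x, (1 : Multiplicative ℤ)) * (1, Multiplicative.ofAdd 1) * (P.gen x, 1)⁻¹ *
          (1, Multiplicative.ofAdd 1)⁻¹ = 1
        ext <;> simp

end pres

end Pool.Agent.R645.TM
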