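import Pool.Agent.R645.TM.Dir1

/-! Extensions: lifting paths of the base. -/

set_option autoImplicit false

namespace Pool.Agent.R645.TM

universe u v w

open Cx

section far

variable {G : Type u} [Group G] {V : Type v} [RAct G V]

/-- the vertices whose `F`-translates lie in `U` -/
def farS (F : Set G) (U : Set V) : Set V := {v | ∀ p ∈ F, ra v p ∈ U}

theorem farS_fin {F : Set G} {U : Set V} (hF : F.Finite) (hU : Uᶜ.Finite) :
    (farS F U)ᶜ.Finite := by
  have h : (farS F U)ᶜ ⊆ ⋃ p ∈ F, (fun d => ra d p⁻¹) '' Uᶜ := by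
    intro v hv
    have h1 : ∃ p ∈ F, ra v p ∉ U := by
      by_contra hcon
      apply hv
      intro p hp
      by_contra h2
      exact hcon ⟨p, hp, h2⟩
    obtain ⟨p, hp, h2⟩ := h1
    rw [Set.mem_iUnion₂]
    exact ⟨p, hp, ra v p, h2, ra_inv_cancel v p⟩
  exact Set.Finite.subset (hF.biUnion fun p _ => hU.image _) h

theorem fam {ι : Type*} [Finite ι] {U : Set V} {Q : ι → V → Prop}
    (h : ∀ i, ∃ F : Set G, F.Finite ∧ ∀ v, (∀ p ∈ F, ra v p ∈ U) → Q i v) :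
    ∃ F : Set G, F.Finite ∧ ∀ v, (∀ p ∈ F, ra v p ∈ U) → ∀ i, Q i v := by
  choose F hF h using h
  refine ⟨⋃ i, F i, Set.finite_iUnion hF, fun v hv i => h i v fun p hp => hv p ?_⟩
  rw [Set.mem_iUnion]
  exact ⟨i, hp⟩

end far

/-- compatible presentations for an extension -/
structure Setup {G : Type u} [Group G] {Q : Type u} [Group Q] (f : G →* Q) where
  P : Pres G
  PN : Pres f.ker
  PQ : Pres Q
  surj : Function.Surjective f
  α : FreeGroup PN.X →* FreeGroup P.X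
  β : FreeGroup PQ.X →* FreeGroup P.X
  hα : ∀ n, P.q (α n) = (PN.q n : G)
  hβ : ∀ y, f (P.q (β y)) = PQ.q y

section base

variable {G : Type u} [Group G] {Q : Type u} [Group Q] (f : G →* Q) (S : Subgroup G)

/-- the projection of right cosets to the base -/
def prj : RC S → RC (S.map f) :=
  Quotient.map (f) (by
    intro a b h
    have h' : b * a⁻¹ ∈ S := QuotientGroup.rightRel_apply.1 h
    apply QuotientGroup.rightRel_apply.2
    rw [← map_inv, ← map_mul]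
    exact ⟨_, h', rfl⟩)

theorem prj_mk (a : G) : prj f S (RC.mk S a) = RC.mk _ (f a) := rfl

theorem prj_ra (v : RC S) (g : G) : prj f S (ra v g) = ra (prj f S v) (f g) := by
  obtain ⟨a, rfl⟩ := v.exists_rep
  rw [RC.ra_mk, prj_mk, prj_mk, RC.ra_mk, map_mul]

theorem prj_ra_mem (v : RC S) (n : f.ker) : prj f S (ra v (n : G)) = prj f S v := by
  have h : f (n : G) = 1 := n.2
  rw [prj_ra, h, RAct.ra_one]

theorem prj_eq {v v' : RC S} (h : prj f S v = prj f S v') : ∃ n : f.ker, v' = ra v (n : G) := by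
  obtain ⟨a, rfl⟩ := v.exists_rep
  obtain ⟨a', rfl⟩ := v'.exists_rep
  rw [prj_mk, prj_mk, RC.mk_eq] at h
  obtain ⟨s, hs, h1⟩ := h
  rw [← map_inv, ← map_mul] at h1
  have h2 : s⁻¹ * (a' * a⁻¹) ∈ f.ker := by
    rw [MonoidHom.mem_ker, map_mul, ← h1, ← map_mul, inv_mul_cancel, map_one]
  have h3 : a⁻¹ * (s⁻¹ * (a' * a⁻¹)) * a⁻¹⁻¹ ∈ f.ker :=
    Subgroup.Normal.conj_mem inferInstance _ h2 _
  refine ⟨⟨_, h3⟩, ?_⟩
  show RC.mk S a' = RC.mk S (a * (a⁻¹ * (s⁻¹ * (a' * a⁻¹)) * a⁻¹⁻¹))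
  rw [RC.mk_eq]
  have e : a * (a⁻¹ * (s⁻¹ * (a' * a⁻¹)) * a⁻¹⁻¹) * a'⁻¹ = s⁻¹ := by group
  rw [e]
  exact S.inv_mem hs

theorem prj_surj (hf : Function.Surjective f) (b : RC (S.map f)) : ∃ v, prj f S v = b := by
  obtain ⟨g, rfl⟩ := b.exists_rep
  obtain ⟨a, rfl⟩ := hf g
  exact ⟨RC.mk S a, prj_mk f S a⟩

/-- the stabiliser in the kernel of the right coset `S a` -/
def stb (a : G) : Subgroup f.ker := (S.comap (MulAut.conj a).toMonoidHom).subgroupOf f.ker

theorem mem_stb {a : G} {n : f.ker} : n ∈ stb f S a ↔ a * n * a⁻¹ ∈ S := Iff.rfl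

/-- the orbit map of the right coset `S a` -/
def orb (a : G) : RC (stb f S a) → RC S :=
  Quotient.map (fun n : f.ker => a * (n : G)) (by
    intro n n' h
    have h' : n' * n⁻¹ ∈ stb f S a := QuotientGroup.rightRel_apply.1 h
    apply QuotientGroup.rightRel_apply.2
    rw [mem_stb] at h'
    have e : a * (n' : G) * (a * (n : G))⁻¹ = a * ((n' * n⁻¹ : f.ker) : G) * a⁻¹ := by
      rw [Subgroup.coe_mul, Subgroup.coe_inv]; group
    show a * (n' : G) * (a * (n : G))⁻¹ ∈ S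
    rw [e]
    exact h')

theorem orb_mk (a : G) (n : f.ker) : orb f S a (RC.mk _ n) = RC.mk S (a * n) := rfl

theorem orb_ra (a : G) (m : RC (stb f S a)) (n : f.ker) :
    orb f S a (ra m n) = ra (orb f S a m) (n : G) := by
  obtain ⟨k, rfl⟩ := m.exists_rep
  rw [RC.ra_mk, orb_mk, orb_mk, RC.ra_mk, Subgroup.coe_mul, mul_assoc]

theorem orb_inj (a : G) : Function.Injective (orb f S a) := by
  intro m m' h
  obtain ⟨n, rfl⟩ := m.exists_rep
  obtain ⟨n', rfl⟩ := m'.exists_rep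
  rw [orb_mk, orb_mk, RC.mk_eq] at h
  rw [RC.mk_eq, mem_stb]
  have e : a * (n' : G) * (a * (n : G))⁻¹ = a * ((n' * n⁻¹ : f.ker) : G) * a⁻¹ := by
    rw [Subgroup.coe_mul, Subgroup.coe_inv]; group
  rw [← e]
  exact h

theorem prj_orb (a : G) (m : RC (stb f S a)) : prj f S (orb f S a m) = prj f S (RC.mk S a) := by
  obtain ⟨n, rfl⟩ := m.exists_rep
  rw [orb_mk, ← RC.ra_mk, prj_ra_mem]

theorem orb_surj {a : G} {v : RC S} (h : prj f S v = prj f S (RC.mk S a)) :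
    ∃ m, orb f S a m = v := by
  obtain ⟨n, rfl⟩ := prj_eq f S h.symm
  exact ⟨RC.mk _ n, by rw [orb_mk, RC.ra_mk]⟩

end base

section lift

variable {G : Type u} [Group G] {Q : Type u} [Group Q] {f : G →* Q} (T : Setup f) {S : Subgroup G}
variable {Γ : Type u} [Group Γ] (ε : RC S → T.P.X → Γ)

/-- the end point of a word -/
abbrev ps (v : RC S) (w : FreeGroup T.P.X) : RC S := ra v (T.P.q w)

theorem ps_mul (v : RC S) (w w' : FreeGroup T.P.X) : ps T v (w * w') = ps T (ps T v w) w' := by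
  show ra v (T.P.q (w * w')) = _
  rw [map_mul, RAct.ra_mul]

theorem ps_one (v : RC S) : ps T v 1 = v := by
  show ra v (T.P.q 1) = v
  rw [map_one, RAct.ra_one]

theorem ps_alpha (v : RC S) (n : FreeGroup T.PN.X) : ps T v (T.α n) = ra v ((T.PN.q n : f.ker) : G) := by
  show ra v (T.P.q (T.α n)) = _
  rw [T.hα]

theorem prj_alpha (v : RC S) (n : FreeGroup T.PN.X) : prj f S (ps T v (T.α n)) = prj f S v := by
  rw [ps_alpha, prj_ra_mem]

theorem prj_beta (v : RC S) (y : FreeGroup T.PQ.X) :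
    prj f S (ps T v (T.β y)) = ra (prj f S v) (T.PQ.q y) := by
  show prj f S (ra v (T.P.q (T.β y))) = _
  rw [prj_ra, T.hβ]

theorem fib {v v' : RC S} (h : prj f S v = prj f S v') :
    ∃ n : FreeGroup T.PN.X, v' = ps T v (T.α n) := by
  obtain ⟨n, rfl⟩ := prj_eq f S h
  obtain ⟨m, hm⟩ := T.PN.surj n
  refine ⟨m, ?_⟩
  rw [ps_alpha]
  show _ = ra v ((FreeGroup.lift T.PN.gen m : f.ker) : G)
  rw [hm]

/-- equality up to a vertical arrow at the end -/
def LE (v : RC S) (w w' : FreeGroup T.P.X) : Prop :=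
  ∃ n : FreeGroup T.PN.X, ev T.P ε v (w * T.α n) = ev T.P ε v w' ∧ T.P.q (w * T.α n) = T.P.q w'

variable {T ε}

theorem LE.refl (v : RC S) (w : FreeGroup T.P.X) : LE T ε v w w :=
  ⟨1, by rw [map_one, mul_one], by rw [map_one, mul_one]⟩

theorem LE.trans {v : RC S} {w w' w'' : FreeGroup T.P.X} (h : LE T ε v w w')
    (h' : LE T ε v w' w'') : LE T ε v w w'' := by
  obtain ⟨n, h1, h2⟩ := h
  obtain ⟨n', h3, h4⟩ := h'
  refine ⟨n * n', ?_, ?_⟩
  · rw [map_mul, ← mul_assoc, ev_mul, h1, h2, ← ev_mul, h3]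
  · rw [map_mul T.α, ← mul_assoc, map_mul T.P.q, h2, ← map_mul, h4]

theorem LE.symm {v : RC S} {w w' : FreeGroup T.P.X} (h : LE T ε v w w') : LE T ε v w' w := by
  obtain ⟨n, h1, h2⟩ := h
  refine ⟨n⁻¹, ?_, ?_⟩
  · rw [map_inv, ev_mul, ← h1, ← h2, ← ev_mul]
    congr 1
    group
  · rw [map_inv, map_mul, ← h2, ← map_mul]
    congr 1
    group

end lift

end Pool.Agent.R645.TM
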