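import Pool.Agent.R645.TM.Coc

/-! Reading words in covering complexes; components of cofinite subgraphs. -/

set_option autoImplicit false

namespace Pool.Agent.R645.TM

universe u v w

section walk

variable {G : Type u} [Group G] (P : Pres G) {V : Type u} [RAct G V]

/-- the vertex reached by reading one letter -/
def sv (v : V) (z : P.X × Bool) : V := if z.2 then ra v (P.gen z.1) else ra v (P.gen z.1)⁻¹

/-- the signed edge traversed by reading one letter -/
def se (v : V) (z : P.X × Bool) : (V × P.X) × Bool :=
  ((if z.2 then v else ra v (P.gen z.1)⁻¹, z.1), z.2)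

theorem walk_cons (v : V) (z : P.X × Bool) (l : List (P.X × Bool)) :
    walk P v (z :: l) = se P v z :: walk P (sv P v z) l := by
  obtain ⟨x, b⟩ := z
  cases b <;> rfl

theorem s_se (v : V) (z : P.X × Bool) : (cov P V).s (se P v z) = v := by
  obtain ⟨x, b⟩ := z
  cases b
  · exact ra_cancel_inv _ _
  · rfl

theorem t_se (v : V) (z : P.X × Bool) : (cov P V).t (se P v z) = sv P v z := by
  obtain ⟨x, b⟩ := z
  cases b <;> rfl

theorem q_single (v : V) (z : P.X × Bool) : ra v (P.q (FreeGroup.mk [z])) = sv P v z := by
  obtain ⟨x, b⟩ := z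
  cases b with
  | true =>
    have h : FreeGroup.mk [(x, true)] = FreeGroup.of x := rfl
    rw [h, Pres.q, FreeGroup.lift_apply_of]
    rfl
  | false =>
    have h : FreeGroup.mk [(x, false)] = (FreeGroup.of x)⁻¹ := rfl
    rw [h, Pres.q, map_inv, FreeGroup.lift_apply_of]
    rfl

theorem mk_cons {X : Type*} (z : X × Bool) (l : List (X × Bool)) :
    FreeGroup.mk (z :: l) = FreeGroup.mk [z] * FreeGroup.mk l := by
  rw [FreeGroup.mul_mk]; rfl

theorem ra_cons (v : V) (z : P.X × Bool) (l : List (P.X × Bool)) :
    ra v (P.q (FreeGroup.mk (z :: l))) = ra (sv P v z) (P.q (FreeGroup.mk l)) := by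
  rw [mk_cons, map_mul, RAct.ra_mul, q_single]

theorem ra_nil (v : V) : ra v (P.q (FreeGroup.mk [])) = v := by
  have h : FreeGroup.mk ([] : List (P.X × Bool)) = 1 := rfl
  rw [h, map_one, RAct.ra_one]

theorem InU_cons {U : Set V} {v : V} {z : P.X × Bool} {l : List (P.X × Bool)} :
    InU P U v (z :: l) ↔ v ∈ U ∧ InU P U (sv P v z) l := by
  constructor
  · intro h
    constructor
    · have := h 0 (Nat.zero_le _)
      rw [List.take_zero, ra_nil] at this
      exact this
    · intro k hk
      have := h (k + 1) (by rw [List.length_cons]; omega)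
      rw [List.take_succ_cons, ra_cons] at this
      exact this
  · rintro ⟨h1, h2⟩ k hk
    cases k with
    | zero => rw [List.take_zero, ra_nil]; exact h1
    | succ k =>
      rw [List.take_succ_cons, ra_cons]
      exact h2 k (by rw [List.length_cons] at hk; omega)

theorem InU_nil {U : Set V} {v : V} : InU P U v [] ↔ v ∈ U := by
  constructor
  · intro h
    have := h 0 (Nat.zero_le _)
    rw [List.take_zero, ra_nil] at this
    exact this
  · intro h k hk
    rw [List.take_nil, ra_nil]
    exact h

theorem InU.start {U : Set V} {v : V} {l : List (P.X × Bool)} (h : InU P U v l) : v ∈ U := by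
  have := h 0 (Nat.zero_le _)
  rw [List.take_zero, ra_nil] at this
  exact this

theorem InU.take {U : Set V} {v : V} {l : List (P.X × Bool)} (h : InU P U v l) (k : ℕ) :
    InU P U v (l.take k) := by
  intro j hj
  rw [List.length_take] at hj
  rw [List.take_take]
  exact h _ (by omega)

theorem walk_path {U : Set V} {v : V} {l : List (P.X × Bool)} (h : InU P U v l) :
    (cov P V).IsPath U v (walk P v l) (ra v (P.q (FreeGroup.mk l))) := by
  induction l generalizing v with
  | nil =>
    rw [ra_nil]
    exact ⟨(InU_nil P).1 h, rfl⟩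
  | cons z l ih =>
    rw [InU_cons] at h
    rw [walk_cons, ra_cons]
    refine ⟨h.1, s_se P v z, ?_⟩
    rw [t_se]
    exact ih h.2

theorem length_walk (v : V) (l : List (P.X × Bool)) : (walk P v l).length = l.length := by
  induction l generalizing v with
  | nil => rfl
  | cons z l ih => rw [walk_cons, List.length_cons, List.length_cons, ih]

theorem getElem_walk (v : V) (l : List (P.X × Bool)) (j : ℕ) (h : j < (walk P v l).length)
    (h' : j < l.length) :
    (walk P v l)[j] = se P (ra v (P.q (FreeGroup.mk (l.take j)))) l[j] := by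
  induction l generalizing v j with
  | nil => exact absurd h' (Nat.not_lt_zero _)
  | cons z l ih =>
    cases j with
    | zero =>
      simp only [walk_cons, List.getElem_cons_zero, List.take_zero, ra_nil]
    | succ j =>
      simp only [walk_cons, List.getElem_cons_succ, List.take_succ_cons, ra_cons]
      exact ih _ _ _ (by rw [List.length_cons] at h'; omega)

variable {Γ : Type w} [Group Γ] (ε : V → P.X → Γ)

/-- the value of one letter -/
def vl (v : V) (z : P.X × Bool) : Γ :=
  if z.2 then ε v z.1 else (ε (ra v (P.gen z.1)⁻¹) z.1)⁻¹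

theorem ev_single (v : V) (z : P.X × Bool) : ev P ε v (FreeGroup.mk [z]) = vl P ε v z := by
  obtain ⟨x, b⟩ := z
  cases b with
  | true => exact ev_of P ε v x
  | false =>
    have h : FreeGroup.mk [(x, false)] = (FreeGroup.of x)⁻¹ := rfl
    rw [h, ev_inv, Pres.q, FreeGroup.lift_apply_of, ev_of]
    rfl

theorem ev_cons (v : V) (z : P.X × Bool) (l : List (P.X × Bool)) :
    ev P ε v (FreeGroup.mk (z :: l)) = vl P ε v z * ev P ε (sv P v z) (FreeGroup.mk l) := by
  rw [mk_cons, ev_mul, ev_single, q_single]

theorem ev_nil (v : V) : ev P ε v (FreeGroup.mk []) = 1 := ev_one P ε v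

theorem take_succ_mk (l : List (P.X × Bool)) (k : ℕ) (hk : k < l.length) :
    FreeGroup.mk (l.take (k + 1)) = FreeGroup.mk (l.take k) * FreeGroup.mk [l[k]] := by
  rw [FreeGroup.mul_mk, List.take_concat_get' l k hk]

theorem ev_take_succ (v : V) (l : List (P.X × Bool)) (k : ℕ) (hk : k < l.length) :
    ev P ε v (FreeGroup.mk (l.take (k + 1))) = ev P ε v (FreeGroup.mk (l.take k)) *
      vl P ε (ra v (P.q (FreeGroup.mk (l.take k)))) l[k] := by
  rw [take_succ_mk P l k hk, ev_mul, ev_single]

theorem ra_take_succ (v : V) (l : List (P.X × Bool)) (k : ℕ) (hk : k < l.length) :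
    ra v (P.q (FreeGroup.mk (l.take (k + 1)))) =
      sv P (ra v (P.q (FreeGroup.mk (l.take k)))) l[k] := by
  rw [take_succ_mk P l k hk, map_mul, RAct.ra_mul, q_single]

/-- a word read in `U` gives an arrow -/
theorem gen_word {U : Set V} {v : V} {l : List (P.X × Bool)} (h : InU P U v l) :
    Gen U (edg P ε) v (ev P ε v (FreeGroup.mk l)) (ra v (P.q (FreeGroup.mk l))) := by
  induction l generalizing v with
  | nil =>
    rw [ev_nil, ra_nil]
    exact .one ((InU_nil P).1 h)
  | cons z l ih =>
    rw [InU_cons] at h
    rw [ev_cons, ra_cons]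
    refine Gen.mul ?_ (ih h.2)
    have h1 := h.1
    have h2 := h.2.start
    obtain ⟨x, b⟩ := z
    cases b with
    | true => exact gen_of P h1 h2
    | false =>
      have h3 : Gen U (edg P ε) (ra v (P.gen x)⁻¹) (ε (ra v (P.gen x)⁻¹) x)
          (ra (ra v (P.gen x)⁻¹) (P.gen x)) := gen_of P h2 (by rw [ra_cancel_inv]; exact h1)
      rw [ra_cancel_inv] at h3
      exact h3.inv

/-- Cofinite subsets of connected covering graphs have finitely many components, in the form of an
induction principle. -/
theorem comp_fin (v0 : V) (htr : ∀ v : V, ∃ g : G, v0 = ra v g) (D : Set V) (hD : D.Finite) :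
    ∃ R : Set V, R.Finite ∧ R ⊆ Dᶜ ∧ ∀ Q : V → Prop, (∀ w ∈ R, Q w) →
      (∀ v x, v ∉ D → ra v (P.gen x) ∉ D → (Q v ↔ Q (ra v (P.gen x)))) → ∀ v, v ∉ D → Q v := by
  have hX := P.finX
  refine ⟨({v0} ∪ ((⋃ x : P.X, (fun d => ra d (P.gen x)) '' D) ∪
    (⋃ x : P.X, (fun d => ra d (P.gen x)⁻¹) '' D))) \ D, ?_, fun x hx => hx.2, ?_⟩
  · apply Set.Finite.subset _ Set.sdiff_subset
    apply Set.Finite.union (Set.finite_singleton _)
    apply Set.Finite.union
    · exact Set.finite_iUnion (fun x => hD.image _)
    · exact Set.finite_iUnion (fun x => hD.image _)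
  · intro Q hR hQ
    have key : ∀ (l : List (P.X × Bool)) (v : V), v ∉ D →
        (ra v (P.q (FreeGroup.mk l)) = v0 ∨ ra v (P.q (FreeGroup.mk l)) ∈ D) → Q v := by
      intro l
      induction l with
      | nil =>
        intro v hv h
        rw [ra_nil] at h
        rcases h with h | h
        · exact hR v ⟨Or.inl h, hv⟩
        · exact absurd h hv
      | cons z l ih =>
        intro v hv h
        rw [ra_cons] at h
        by_cases h1 : sv P v z ∈ D
        · apply hR v
          refine ⟨Or.inr ?_, hv⟩
          obtain ⟨x, b⟩ := z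
          cases b with
          | true =>
            right
            rw [Set.mem_iUnion]
            exact ⟨x, _, h1, ra_inv_cancel _ _⟩
          | false =>
            left
            rw [Set.mem_iUnion]
            exact ⟨x, _, h1, ra_cancel_inv _ _⟩
        · have h2 := ih _ h1 h
          obtain ⟨x, b⟩ := z
          cases b with
          | true => exact (hQ v x hv h1).2 h2
          | false =>
            have h3 := hQ (ra v (P.gen x)⁻¹) x h1 (by rw [ra_cancel_inv]; exact hv)
            rw [ra_cancel_inv] at h3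
            exact h3.1 h2
    intro v hv
    obtain ⟨g, hg⟩ := htr v
    obtain ⟨w, hw⟩ := P.surj g
    obtain ⟨l, hl⟩ := Quot.exists_rep w
    apply key l v hv
    left
    have e : FreeGroup.mk l = w := hl
    rw [e]
    show ra v (FreeGroup.lift P.gen w) = v0
    rw [hw, hg]

end walk

end Pool.Agent.R645.TM
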