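import Pool.Agent.R645.TM.Ext

/-! Trivial and infinite cyclic groups. -/

set_option autoImplicit false

namespace Pool.Agent.R645.TM

universe u v w

open Cx

/-- finite covering complexes -/
theorem tameC_finite {G : Type u} [Group G] (P : Pres G) (V : Type u) [RAct G V] [Finite V] :
    TameC P V := by
  intro Γ _ U _ ε _
  have hX := P.finX
  refine fgs_add (US := ∅) (S := fun _ _ _ => False) ⟨fun h => h.elim, fun h => h.elim,
    fun h => h, fun h => h.elim⟩ ⟨⟨∅, Set.finite_empty, fun u hu => hu.elim⟩, fun u hu => hu.elim⟩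
    (Set.empty_subset _) (Set.toFinite _) (fun _ _ _ h => h.elim)
    (Set.range fun z : V × P.X => (z.1, ε z.1 z.2, ra z.1 (P.gen z.2))) (Set.finite_range _) ?_
  rintro u g w _ _ ⟨x, rfl, rfl⟩
  exact Or.inl ⟨(u, x), rfl⟩

/-- the presentation of the trivial group -/
def presTriv (G : Type u) [Group G] [Subsingleton G] : Pres G where
  X := Empty
  ι := Empty
  finX := inferInstance
  finι := inferInstance
  gen := Empty.elim
  rel := Empty.elim
  rel_ne := fun i => i.elim
  surj := fun _ => ⟨1, Subsingleton.elim _ _⟩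
  ker := Subsingleton.elim _ _

/-- independence of the presentation -/
theorem tame_indep {G : Type u} [Group G] (P P' : Pres G)
    (h : ∀ K : Subgroup G, K.FG → TameC P (RC K)) (S : Subgroup G) (hS : S.FG) : Tame P' S := by
  have hsub : Subsingleton (MonoidHom.id G).ker := by
    have : (MonoidHom.id G).ker = ⊥ := by
      rw [MonoidHom.ker_eq_bot_iff]
      exact Function.injective_id
    rw [this]
    infer_instance
  refine ext_tame (f := MonoidHom.id G) Function.surjective_id P' (presTriv _) P ?_ h ?_ S hS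
  · intro K _
    have : Finite (RC K) := by
      apply Finite.of_surjective (RC.mk K)
      intro v
      obtain ⟨g, rfl⟩ := v.exists_rep
      exact ⟨g, rfl⟩
    exact tameC_finite _ _
  · intro S _
    have : (MonoidHom.id G).ker ⊓ S = ⊥ := by
      have h1 : (MonoidHom.id G).ker = ⊥ := by
        rw [MonoidHom.ker_eq_bot_iff]
        exact Function.injective_id
      rw [h1, bot_inf_eq]
    rw [this]
    exact bot_fg

section cyclic

theorem freeGroup_unit (w : FreeGroup Unit) : ∃ k : ℤ, w = FreeGroup.of () ^ k := by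
  induction w using FreeGroup.induction_on with
  | C1 => exact ⟨0, by rw [zpow_zero]⟩
  | of x => exact ⟨1, by rw [zpow_one]⟩
  | inv_of x _ => exact ⟨-1, by rw [zpow_neg_one]⟩
  | mul x y hx hy =>
    obtain ⟨k, rfl⟩ := hx
    obtain ⟨l, rfl⟩ := hy
    exact ⟨k + l, by rw [zpow_add]⟩

variable {N : Type u} [Group N] (t : N) (ht : ∀ g : N, ∃ k : ℤ, t ^ k = g)
  (hinf : ∀ k : ℤ, t ^ k = 1 → k = 0)

/-- the presentation of an infinite cyclic group -/
abbrev presZ : Pres N where
  X := Unit
  ι := Empty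
  finX := inferInstance
  finι := inferInstance
  gen := fun _ => t
  rel := Empty.elim
  rel_ne := fun i => i.elim
  surj := by
    intro g
    obtain ⟨k, rfl⟩ := ht g
    exact ⟨FreeGroup.of () ^ k, by rw [map_zpow, FreeGroup.lift_apply_of]⟩
  ker := by
    have h1 : (Set.range fun i : Empty => FreeGroup.mk ((Empty.elim i : List (Unit × Bool)))) = ∅ :=
      Set.range_eq_empty _
    rw [h1, Subgroup.normalClosure_empty, eq_bot_iff]
    intro w hw
    obtain ⟨k, rfl⟩ := freeGroup_unit w
    rw [MonoidHom.mem_ker, map_zpow, FreeGroup.lift_apply_of] at hw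
    rw [hinf k hw, zpow_zero]
    exact Subgroup.one_mem _

theorem tameC_presZ (K : Subgroup N) : TameC (presZ t ht hinf) (RC K) := by
  have hsurj : ∀ v : RC K, ∃ k : ℤ, ra (RC.mk K 1) (t ^ k) = v := by
    intro v
    obtain ⟨g, rfl⟩ := v.exists_rep
    obtain ⟨k, rfl⟩ := ht g
    exact ⟨k, by rw [RC.ra_mk, one_mul]⟩
  by_cases hinj : Function.Injective (fun k : ℤ => ra (RC.mk K 1) (t ^ k))
  · intro Γ _ U hU ε _
    choose κ hκ using hsurj
    have hκ1 : ∀ k : ℤ, κ (ra (RC.mk K 1) (t ^ k)) = k := fun k => hinj (hκ _)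
    let p : RC K → Γ := fun v => ev (presZ t ht hinf) ε (RC.mk K 1) (FreeGroup.of () ^ κ v)
    have hq : ∀ k : ℤ, (presZ t ht hinf).q (FreeGroup.of () ^ k) = t ^ k := by
      intro k
      rw [map_zpow]
      show (FreeGroup.lift (fun _ : Unit => t) (FreeGroup.of ())) ^ k = t ^ k
      rw [FreeGroup.lift_apply_of]
    have hp : ∀ v x, ε v x = (p v)⁻¹ * p (ra v t) := by
      intro v x
      obtain ⟨k, rfl⟩ : ∃ k, ra (RC.mk K 1) (t ^ k) = v := ⟨_, hκ v⟩
      have e1 : ra (ra (RC.mk K 1) (t ^ k)) t = ra (RC.mk K 1) (t ^ (k + 1)) := by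
        rw [← RAct.ra_mul, zpow_add_one]
      show _ = (ev (presZ t ht hinf) ε (RC.mk K 1) (FreeGroup.of () ^ κ _))⁻¹ *
        ev (presZ t ht hinf) ε (RC.mk K 1) (FreeGroup.of () ^ κ _)
      rw [e1, hκ1, hκ1, zpow_add_one, ev_mul, hq, ev_of, inv_mul_cancel_left]
    have hA : Gpd U (fun u g w => u ∈ U ∧ w ∈ U ∧ g = (p u)⁻¹ * p w) :=
      { mem := fun h => ⟨h.1, h.2.1⟩
        one := fun {u} h => ⟨h, h, by rw [inv_mul_cancel]⟩
        inv := by
          rintro u g w ⟨h1, h2, rfl⟩
          exact ⟨h2, h1, by group⟩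
        mul := by
          rintro u g v h w ⟨h1, h2, rfl⟩ ⟨h3, h4, rfl⟩
          exact ⟨h1, h4, by group⟩ }
    constructor
    · obtain ⟨R, hR, hRU, hind⟩ := comp_fin (presZ t ht hinf) (RC.mk K 1) (by
        intro v
        obtain ⟨g, rfl⟩ := v.exists_rep
        exact ⟨g⁻¹, by rw [RC.ra_mk, mul_inv_cancel]⟩) Uᶜ hU
      refine ⟨R, hR, fun u hu => ?_⟩
      refine hind (fun v => ∃ w ∈ R, ∃ g, Gen U (edg (presZ t ht hinf) ε) v g w) ?_ ?_ u
        (fun h => h hu)
      · intro w hw
        have : w ∈ U := by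
          have := hRU hw
          rwa [compl_compl] at this
        exact ⟨w, hw, 1, .one this⟩
      · intro v x h1 h2
        have h3 := gen_of (presZ t ht hinf) (ε := ε) (not_not.1 h1) (not_not.1 h2)
        constructor
        · rintro ⟨w, hw, g, hg⟩
          exact ⟨w, hw, _, h3.inv.mul hg⟩
        · rintro ⟨w, hw, g, hg⟩
          exact ⟨w, hw, _, h3.mul hg⟩
    · intro u _
      have h1 : Subgroup.closure {g | Gen U (edg (presZ t ht hinf) ε) u g u} = ⊥ := by
        rw [eq_bot_iff, Subgroup.closure_le]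
        intro g hg
        have h2 := Gen.le hA (le_refl _) (by
          rintro u g w hu hw ⟨x, rfl, rfl⟩
          exact ⟨hu, hw, hp u x⟩) hg
        rw [h2.2.2, inv_mul_cancel]
        exact Subgroup.one_mem _
      rw [h1]
      exact bot_fg
  · -- the vertex set is finite
    have hfin : Finite (RC K) := by
      have h1 : ∃ k l : ℤ, ra (RC.mk K 1) (t ^ k) = ra (RC.mk K 1) (t ^ l) ∧ k < l := by
        by_contra hcon
        apply hinj
        intro k l hkl
        by_contra hne
        rcases lt_or_gt_of_ne hne with h | h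
        · exact hcon ⟨k, l, hkl, h⟩
        · exact hcon ⟨l, k, hkl.symm, h⟩
      obtain ⟨k, l, hkl, hlt⟩ := h1
      have hd : t ^ (l - k) ∈ K := by
        rw [RC.ra_mk, RC.ra_mk, one_mul, one_mul, RC.mk_eq] at hkl
        rw [zpow_sub]
        exact hkl
      have hper : ∀ (m : ℤ) (j : ℤ), RC.mk K (t ^ (m + j * (l - k))) = RC.mk K (t ^ m) := by
        intro m j
        rw [RC.mk_eq]
        have e : t ^ m * (t ^ (m + j * (l - k)))⁻¹ = ((t ^ (l - k)) ^ j)⁻¹ := by
          rw [← zpow_mul, ← zpow_neg, ← zpow_neg, ← zpow_add]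
          congr 1
          ring
        rw [e]
        exact K.inv_mem (K.zpow_mem hd j)
      have h2 : Function.Surjective (fun i : Set.Ico (0 : ℤ) (l - k) => RC.mk K (t ^ i.1)) := by
        intro v
        obtain ⟨m, rfl⟩ := hsurj v
        have hpos : 0 < l - k := by omega
        refine ⟨⟨m % (l - k), Int.emod_nonneg _ hpos.ne', Int.emod_lt_of_pos _ hpos⟩, ?_⟩
        show RC.mk K (t ^ (m % (l - k))) = ra (RC.mk K 1) (t ^ m)
        rw [RC.ra_mk, one_mul, ← hper (m % (l - k)) (m / (l - k))]
        congr 2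
        have := Int.emod_add_mul_ediv m (l - k)
        linarith [mul_comm (l - k) (m / (l - k))]
      exact Finite.of_surjective _ h2
    exact tameC_finite _ _

end cyclic

end Pool.Agent.R645.TM
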